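import Pool.Agent.LCB.Defs
import Pool.Agent.MP_92db0f_lc_alg.State

/-!
A set of strings, none of them bad, can be added without changing the values at given points.
-/

set_option autoImplicit false

namespace Pool.Agent.LCB

open MvPolynomial MP_92db0f_lc_alg

variable {K : ℕ → Type} [∀ i, Field (K i)]

/-- over every field there is a polynomial of degree at most 2 in each variable that vanishes at the
points of `S` and is the indicator function of `z` on `{0,1}^n` -/
def GoodAll (S : Finset (Pt K)) {n : ℕ} (z : Fin n → Bool) : Prop :=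
  ∀ i, ∃ g : MvPolynomial (Fin n) (K i), (∀ j, g.degreeOf j ≤ 2) ∧
    (∀ y : Fin n → K i, (⟨n, i, y⟩ : Pt K) ∈ S → eval y g = 0) ∧
    ∀ x, eval (bpt (K i) x) g = if x = z then 1 else 0

open Classical in
/-- at most `|S|` strings are bad -/
lemma exists_bad (S : Finset (Pt K)) : ∃ B : Finset (List Bool), B.card ≤ S.card ∧
    ∀ (n : ℕ) (z : Fin n → Bool), List.ofFn z ∉ B → GoodAll S z := by
  have hinj : ∀ n i, Function.Injective (fun y : Fin n → K i => (⟨n, i, y⟩ : Pt K)) := by
    intro n i y y' h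
    simpa using h
  let Y : (n i : ℕ) → Finset (Fin n → K i) := fun n i =>
    S.preimage (fun y => ⟨n, i, y⟩) (hinj n i).injOn
  have hmem : ∀ (n i : ℕ) (y : Fin n → K i), y ∈ Y n i → (⟨n, i, y⟩ : Pt K) ∈ S := fun n i y hy =>
    (Finset.mem_preimage (f := fun y : Fin n → K i => (⟨n, i, y⟩ : Pt K))).1 hy
  let I : Finset (ℕ × ℕ) := S.image fun p => (p.1, p.2.1)
  let B : ℕ × ℕ → Finset (List Bool) := fun ni =>
    ((Finset.univ : Finset (Fin ni.1 → Bool)).filter fun z => ¬ Good (Y ni.1 ni.2) z).image List.ofFn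
  have hY : ∀ ni : ℕ × ℕ, (Y ni.1 ni.2).card ≤ (S.filter fun p => (p.1, p.2.1) = ni).card := by
    rintro ⟨n, i⟩
    have h1 : ((Y n i).image fun y => (⟨n, i, y⟩ : Pt K)) ⊆ S.filter fun p => (p.1, p.2.1) = (n, i) := by
      intro p hp
      obtain ⟨y, hy, rfl⟩ := Finset.mem_image.1 hp
      rw [Finset.mem_filter]
      exact ⟨hmem n i y hy, rfl⟩
    have h2 := Finset.card_le_card h1
    rwa [Finset.card_image_of_injective _ (hinj n i)] at h2
  refine ⟨I.biUnion B, ?_, ?_⟩
  · refine Finset.card_biUnion_le.trans ?_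
    calc ∑ ni ∈ I, (B ni).card ≤ ∑ ni ∈ I, (S.filter fun p => (p.1, p.2.1) = ni).card :=
          Finset.sum_le_sum fun ni _ => Finset.card_image_le.trans ((card_bad _ _).trans (hY ni))
      _ = S.card := by
          rw [← Finset.card_eq_sum_card_image (f := fun p : Pt K => (p.1, p.2.1))]
  · intro n z hz i
    have hgood : Good (Y n i) z := by
      by_cases hi : (n, i) ∈ I
      · by_contra hbad
        exact hz (Finset.mem_biUnion.2 ⟨(n, i), hi, Finset.mem_image.2
          ⟨z, Finset.mem_filter.2 ⟨Finset.mem_univ _, hbad⟩, rfl⟩⟩)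
      · have hYe : Y n i = ∅ := by
          rw [Finset.eq_empty_iff_forall_notMem]
          intro y hy
          exact hi (Finset.mem_image.2 ⟨_, hmem n i y hy, rfl⟩)
        refine ⟨dl (K i) z, fun j => (degreeOf_dl z j).trans (by norm_num), ?_, eval_dl z⟩
        intro y hy
        rw [hYe] at hy
        exact absurd hy (Finset.notMem_empty _)
    obtain ⟨g, h1, h2, h3⟩ := hgood
    exact ⟨g, h1, fun y hy => h2 y (Finset.mem_preimage.2 hy), h3⟩

open Classical in
/-- A set of good strings can be added. -/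
lemma exists_add (S : Finset (Pt K)) : ∃ B : Finset (List Bool), B.card ≤ S.card ∧
    ∀ (σ : St K) (Z : Set (List Bool)), (∀ w ∈ Z, w ∉ B ∧ w ∉ σ.A) →
      ∃ τ : St K, τ.A = σ.A ∪ Z ∧ Agree σ τ S ∧
        ∀ n, (∀ w ∈ Z, w.length ≠ n) → τ.F n = σ.F n := by
  obtain ⟨B, hB, hgood⟩ := exists_bad S
  refine ⟨B, hB, fun σ Z hZ => ?_⟩
  have h1 : ∀ (n : ℕ) (z : Fin n → Bool), List.ofFn z ∈ Z → GoodAll S z := fun n z hz =>
    hgood n z (hZ _ hz).1
  let g : (n i : ℕ) → (Fin n → Bool) → MvPolynomial (Fin n) (K i) := fun n i z =>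
    if h : List.ofFn z ∈ Z then (h1 n z h i).choose else 0
  have g0 : ∀ n i z, List.ofFn z ∉ Z → g n i z = 0 := fun n i z h => dif_neg h
  have gs : ∀ n i z (h : List.ofFn z ∈ Z), (∀ j, (g n i z).degreeOf j ≤ 2) ∧
      (∀ y : Fin n → K i, (⟨n, i, y⟩ : Pt K) ∈ S → eval y (g n i z) = 0) ∧
      ∀ x, eval (bpt (K i) x) (g n i z) = if x = z then 1 else 0 := by
    intro n i z h
    have e : g n i z = (h1 n z h i).choose := dif_pos h
    rw [e]
    exact (h1 n z h i).choose_spec
  let G : (n i : ℕ) → MvPolynomial (Fin n) (K i) := fun n i => ∑ z, g n i z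
  have hdeg : ∀ n i j, (G n i).degreeOf j ≤ 2 := by
    intro n i j
    refine (degreeOf_sum_le _ _ _).trans (Finset.sup_le fun z _ => ?_)
    by_cases h : List.ofFn z ∈ Z
    · exact (gs n i z h).1 j
    · rw [g0 n i z h, degreeOf_zero]
      omega
  have hval : ∀ n i x, eval (bpt (K i) x) (G n i) = if List.ofFn x ∈ Z then 1 else 0 := by
    intro n i x
    have e1 : ∀ z : Fin n → Bool, eval (bpt (K i) x) (g n i z) =
        if x = z then (if List.ofFn x ∈ Z then 1 else 0) else 0 := by
      intro z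
      by_cases h : List.ofFn z ∈ Z
      · rw [(gs n i z h).2.2 x]
        by_cases hx : x = z
        · rw [if_pos hx, if_pos hx, hx, if_pos h]
        · rw [if_neg hx, if_neg hx]
      · rw [g0 n i z h, map_zero]
        by_cases hx : x = z
        · rw [if_pos hx, hx, if_neg h]
        · rw [if_neg hx]
    rw [map_sum, Finset.sum_congr rfl fun z _ => e1 z, Finset.sum_ite_eq]
    rw [if_pos (Finset.mem_univ x)]
  have hS : ∀ n i (y : Fin n → K i), (⟨n, i, y⟩ : Pt K) ∈ S → eval y (G n i) = 0 := by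
    intro n i y hy
    rw [map_sum]
    refine Finset.sum_eq_zero fun z _ => ?_
    by_cases h : List.ofFn z ∈ Z
    · exact (gs n i z h).2.1 y hy
    · rw [g0 n i z h, map_zero]
  have hF : IsExtension (σ.A ∪ Z) (fun n i => σ.F n i + G n i) := by
    refine ⟨fun n i j => (degreeOf_add_le _ _ _).trans (max_le (σ.ext.degree n i j) (hdeg n i j)),
      fun n i x => ?_⟩
    rw [map_add, σ.ext.value n i x]
    have h2 := hval n i x
    change eval (fun j => if x j then 1 else 0) (G n i) = _ at h2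
    rw [h2]
    by_cases hx : List.ofFn x ∈ Z
    · have h3 : List.ofFn x ∈ σ.A ∪ Z := Or.inr hx
      rw [if_neg (hZ _ hx).2, if_pos hx, zero_add, if_pos h3]
    · rw [if_neg hx, add_zero]
      by_cases ha : List.ofFn x ∈ σ.A
      · have h3 : List.ofFn x ∈ σ.A ∪ Z := Or.inl ha
        rw [if_pos ha, if_pos h3]
      · have h3 : List.ofFn x ∉ σ.A ∪ Z := by
          rintro (h | h)
          · exact ha h
          · exact hx h
        rw [if_neg ha, if_neg h3]
  refine ⟨⟨_, _, hF⟩, rfl, ?_, ?_⟩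
  · rintro ⟨n, i, y⟩ hp
    change eval y (σ.F n i) = eval y (σ.F n i + G n i)
    rw [map_add, hS n i y hp, add_zero]
  · intro n hn
    funext i
    change σ.F n i + G n i = σ.F n i
    have : G n i = 0 := Finset.sum_eq_zero fun z _ => g0 n i z fun h => hn _ h (by simp)
    rw [this, add_zero]

end Pool.Agent.LCB
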