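import Pool.Agent.LCB.Defs

/-!
Classes relative to an oracle, with advice.
-/

set_option autoImplicit false

namespace Pool.Agent.LCB

open Turing Computability Lib.helper60 MP_92db0f_lc_alg

/-- The class `NP` relative to the oracle `O`: certificates of polynomial length, checked in
polynomial time with the oracle `O`. -/
def InNP (O L : Set (List Bool)) : Prop :=
  ∃ (R : List Bool × List Bool → Prop) (P : Polynomial ℕ), PolyTime encPair O R ∧
    ∀ x : List Bool, x ∈ L ↔ ∃ y : List Bool, y.length ≤ P.eval x.length ∧ R (x, y)

/-- Nondeterministic time with advice, relative to the oracle `O`: the input `x` is in `L` if and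
only if it has a certificate of length at most `T |x|`; the certificates are checked in time
polynomial in the length of the input, the advice and the certificate by a machine with the oracle
`O`, where the advice has length at most `a |x|` and depends on `|x|` only. -/
def InNAdv (O : Set (List Bool)) (T a : ℕ → ℕ) (L : Set (List Bool)) : Prop :=
  ∃ (R : (List Bool × List Bool) × List Bool → Prop) (α : ℕ → List Bool),
    PolyTime (fun z : (List Bool × List Bool) × List Bool => encPair (encPair z.1, z.2)) O R ∧
    (∀ n, (α n).length ≤ a n) ∧
    ∀ x, x ∈ L ↔ ∃ y : List Bool, y.length ≤ T x.length ∧ R ((x, α x.length), y)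

/-- The language `L` is decided by a polynomial-time machine with the oracles `A` and `T` and an
advice string of length at most `n ^ c + C`, which depends on the length `n` of the input only. The
machine makes at most `n ^ c + C` queries to `T` (these are the queries to `join A T` that begin
with `1`). The next query `q` and the decision `d` are computed by Turing machines in time
polynomial in the length of the input, the advice and the answers so far. -/
def InPFew (c : ℕ) (A T L : Set (List Bool)) : Prop :=
  ∃ (q : (List Bool × List Bool) × List Bool → List Bool)
    (d : (List Bool × List Bool) × List Bool → Bool) (α : ℕ → List Bool) (P : Polynomial ℕ)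
    (C : ℕ),
    Nonempty (TM2ComputableInPolyTime
      (fun z : (List Bool × List Bool) × List Bool => encPair (encPair z.1, z.2))
        (fun w => w) q) ∧
    Nonempty (TM2ComputableInPolyTime
      (fun z : (List Bool × List Bool) × List Bool => encPair (encPair z.1, z.2))
        encodeBool d) ∧
    (∀ n, (α n).length ≤ n ^ c + C) ∧
    ∀ x : List Bool,
      {i : ℕ | i < P.eval x.length ∧ ∃ Q : List Bool, q ((x, α x.length),
        answers (join A T) q (x, α x.length) i) = true :: Q}.ncard ≤ x.length ^ c + C ∧
      (x ∈ L ↔ d ((x, α x.length),
        answers (join A T) q (x, α x.length) (P.eval x.length)) = true)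

/-- The class `P/a`: a polynomial-time Turing machine with an advice string of length at most `a n`,
which depends on the length `n` of the input only. -/
def InPAdv (a : ℕ → ℕ) (T : Set (List Bool)) : Prop :=
  ∃ (D : List Bool × List Bool → Bool) (α : ℕ → List Bool),
    Nonempty (TM2ComputableInPolyTime encPair encodeBool D) ∧ (∀ n, (α n).length ≤ a n) ∧
    ∀ x, x ∈ T ↔ D (x, α x.length) = true

/-- The function `t` is bounded by `n ^ o(1)`. -/
def Subpoly (t : ℕ → ℕ) : Prop := ∀ k : ℕ, ∃ C : ℕ, ∀ n, t n ^ k ≤ C * (n + 1)

/-- The left cut of the real number `x`, padded: the codes of the pairs of a string `v` with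
`0.v ≤ x` and the string `1 ... 1` of length `|v| ^ k`. -/
def padCut (x : ℝ) (k : ℕ) : Set (List Bool) :=
  {w | ∃ v : List Bool, w = encPair (v, List.replicate (v.length ^ k) true) ∧ point v ≤ x}

end Pool.Agent.LCB
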