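import Pool.Agent.LCB.Final
import Pool.Agent.LCB.RelDefs
import Pool.Agent.MP_92db0f_lc_thr.OP

/-!
The padded left cut: it is in `UP` and in `RP`, it is decided with few bits of advice, and it is
hard for `NEXP`.
-/

set_option autoImplicit false

namespace Pool.Agent.LCB

open Turing Computability Lib.helper60 MP_92db0f_lc_alg
open MP_92db0f_lc hiding answers InNEXP
open MP_92db0f_lc_thr (cls cls_bounds PT_cls PT_of_TM2 PT_of_TM2' HasSz)

/-- the padded string -/
def pk (k : ℕ) (v : List Bool) : List Bool := encPair (v, List.replicate (v.length ^ k) true)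

lemma length_pk (k : ℕ) (v : List Bool) : (pk k v).length = 2 * v.length + 2 + v.length ^ k := by
  unfold pk
  rw [length_encPair, List.length_replicate]

/-- the test whether the string is padded correctly -/
def isPk (k : ℕ) (w : List Bool) : Bool := decide (w = pk k (unpair w).1)

lemma isPk_pk (k : ℕ) (v : List Bool) : isPk k (pk k v) = true := by
  unfold isPk
  rw [show (unpair (pk k v)).1 = v from by unfold pk; rw [unpair_enc], decide_eq_true_eq]

lemma unpair_pk (k : ℕ) (v : List Bool) : (unpair (pk k v)).1 = v := by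
  unfold pk
  rw [unpair_enc]

lemma mem_padCut {X : ℝ} {k : ℕ} {w : List Bool} :
    w ∈ padCut X k ↔ isPk k w = true ∧ (unpair w).1 ∈ leftCut X := by
  constructor
  · rintro ⟨v, h, hv⟩
    have h' : w = pk k v := h
    rw [h', isPk_pk, unpair_pk]
    exact ⟨rfl, hv⟩
  · rintro ⟨h1, h2⟩
    unfold isPk at h1
    rw [decide_eq_true_eq] at h1
    exact ⟨(unpair w).1, h1, h2⟩

lemma pk_mem {X : ℝ} {k : ℕ} {v : List Bool} : pk k v ∈ padCut X k ↔ v ∈ leftCut X := by
  rw [mem_padCut, isPk_pk, unpair_pk]
  simp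

lemma PT_pk {α : Type} [DEnc α] (k : ℕ) {v : α → List Bool} (hv : PT v) :
    PT (fun a => pk k (v a)) :=
  PT_encPair hv (PT.replicate (PT_npow (PT.length hv) k) (PT.const true))

lemma PT_isPk {α : Type} [DEnc α] (k : ℕ) {w : α → List Bool} (hw : PT w) :
    PT (fun a => isPk k (w a)) :=
  PT_leq hw (PT_pk k (PT_unpair.comp hw).p1)

lemma unpair_le {k : ℕ} {w : List Bool} (h : isPk k w = true) : (unpair w).1.length ≤ w.length := by
  unfold isPk at h
  rw [decide_eq_true_eq] at h
  conv_rhs => rw [h]
  rw [length_pk]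
  omega

/-! ### UP and RP -/

variable {K : ℕ → Type} [∀ i, Field (K i)] {Y : Sys K}

theorem inUP_pad (κ : Conf Y) {X : ℝ} (hX : ∀ (t : ℕ) (u : List Bool), u.length = P t →
    (point u ≤ X ↔ vb u ≤ κ.N t)) (k : ℕ) : InUP κ.σ.A (padCut X k) := by
  refine ⟨fun p => isPk k p.1 = true ∧ p.2.length = pn (unpair p.1).1.length ∧
    cU (pad (unpair p.1).1) p.2 ∈ κ.σ.A, 40 * (Polynomial.X + 1), ?_, ?_⟩
  · have h1 : PT (fun w : List Bool => unpair (unpair w).1) := PT_unpair.comp PT_unpair.p1
    have h2 : PT (fun w : List Bool => unpair (unpair (unpair w).1).1) := PT_unpair.comp h1.p1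
    refine ⟨fun z => cU (pad (unpair z.1.1).1) z.1.2, fun z => isPk k z.1.1 &&
      (decide (z.1.2.length = pn (unpair z.1.1).1.length) && z.2.headD false), 1, ?_, ?_, ?_⟩
    · refine PT.toTM2 (F := fun w => cU (pad (unpair (unpair (unpair w).1).1).1)
        (unpair (unpair w).1).2) ?_ ?_
      · exact PT.cons (PT.const true) (PT.cons (PT.const true) (PT.append (PT_pad h2.p1) h1.p2))
      · intro a
        simp only [unpair_enc]
    · refine PT.decider (F := fun w => isPk k (unpair (unpair w).1).1 &&
        (decide ((unpair (unpair w).1).2.length = pn (unpair (unpair (unpair w).1).1).1.length) &&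
          (unpair w).2.headD false)) ?_ ?_
      · exact PT.band (PT_isPk k h1.p1) (PT.band (PT.neq (PT.length h1.p2)
          (PT_pn (PT.length h2.p1))) (PT.headD PT_unpair.p2 (PT.const false)))
      · intro a
        simp only [unpair_enc]
    · rintro ⟨x, y⟩
      simp [answers]
  · intro w
    rw [mem_padCut, mem_cut κ hX]
    obtain ⟨v, hv⟩ : ∃ v, v = (unpair w).1 := ⟨_, rfl⟩
    dsimp only
    rw [← hv]
    refine ⟨⟨?_, ?_⟩, ?_⟩
    · rintro ⟨h0, h⟩
      obtain ⟨s, ⟨h1, h2⟩, -⟩ := κ.up (cls v.length) (pad v) (length_pad v) h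
      refine ⟨s, ?_, h0, h1, h2⟩
      have h3 := pn_le v.length
      have h4 := unpair_le h0
      rw [← hv] at h4
      rw [h1]
      change pn v.length ≤ _
      simp
      omega
    · rintro ⟨s, _, h0, h1, h2⟩
      refine ⟨h0, ?_⟩
      by_contra hlt
      exact κ.upn (cls v.length) (pad v) (length_pad v) (not_le.1 hlt) s h1 h2
    · rintro s s' _ _ ⟨_, h1, h2⟩ ⟨_, h3, h4⟩
      by_cases h : vb (pad v) ≤ κ.N (cls v.length)
      · exact (κ.up (cls v.length) (pad v) (length_pad v) h).unique ⟨h1, h2⟩ ⟨h3, h4⟩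
      · exact absurd h2 (κ.upn (cls v.length) (pad v) (length_pad v) (not_le.1 h) s h1)

theorem inRP_pad (κ : Conf Y) {X : ℝ} (hX : ∀ (t : ℕ) (u : List Bool), u.length = P t →
    (point u ≤ X ↔ vb u ≤ κ.N t)) (k : ℕ) : InRP κ.σ.A (padCut X k) := by
  refine ⟨fun p => isPk k p.1 = true ∧ cR (pad (unpair p.1).1)
    (p.2.take (pn (unpair p.1).1.length)) ∈ κ.σ.A, 40 * (Polynomial.X + 1), ?_, ?_⟩
  · have h1 : PT (fun w : List Bool => unpair (unpair w).1) := PT_unpair.comp PT_unpair.p1
    have h2 : PT (fun w : List Bool => unpair (unpair (unpair w).1).1) := PT_unpair.comp h1.p1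
    refine ⟨fun z => cR (pad (unpair z.1.1).1) (z.1.2.take (pn (unpair z.1.1).1.length)),
      fun z => isPk k z.1.1 && z.2.headD false, 1, ?_, ?_, ?_⟩
    · refine PT.toTM2 (F := fun w => cR (pad (unpair (unpair (unpair w).1).1).1)
        ((unpair (unpair w).1).2.take (pn (unpair (unpair (unpair w).1).1).1.length))) ?_ ?_
      · exact PT.cons (PT.const true) (PT.cons (PT.const false) (PT.append (PT_pad h2.p1)
          (PT_take (PT_pn (PT.length h2.p1)) h1.p2)))
      · intro a
        simp only [unpair_enc]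
    · refine PT.decider (F := fun w => isPk k (unpair (unpair w).1).1 &&
        (unpair w).2.headD false) (PT.band (PT_isPk k h1.p1)
          (PT.headD PT_unpair.p2 (PT.const false))) ?_
      intro a
      simp only [unpair_enc]
    · rintro ⟨x, y⟩
      simp [answers]
  · intro w
    have hev : (40 * (Polynomial.X + 1) : Polynomial ℕ).eval w.length = 40 * (w.length + 1) := by
      simp
    rw [mem_padCut, mem_cut κ hX, hev]
    obtain ⟨v, hv⟩ : ∃ v, v = (unpair w).1 := ⟨_, rfl⟩
    dsimp only
    rw [← hv]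
    constructor
    · rintro ⟨h0, h⟩
      have h3 := pn_le v.length
      have h4 := unpair_le h0
      rw [← hv] at h4
      obtain ⟨c, hc⟩ := Nat.exists_eq_add_of_le (show pn v.length ≤ 40 * (w.length + 1) by omega)
      rw [hc]
      refine (ncard_take (pn v.length) c (fun s => cR (pad v) s ∈ κ.σ.A)
        (κ.rp (cls v.length) (pad v) (length_pad v) h)).trans (Nat.mul_le_mul_left _ ?_)
      refine Set.ncard_le_ncard ?_ ((finite_strings _).subset fun s hs => hs.1)
      rintro y ⟨h5, h6⟩
      exact ⟨h5, h0, h6⟩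
    · intro h y hy
      rintro ⟨h0, h5⟩
      have h3 := pn_le v.length
      have h4 := unpair_le h0
      rw [← hv] at h4
      refine κ.rpn (cls v.length) (pad v) (length_pad v) (not_le.1 fun h6 => h ⟨h0, h6⟩)
        (y.take (pn v.length)) ?_ h5
      rw [List.length_take, hy, min_eq_left (by omega)]
      rfl

/-! ### advice -/

lemma lt_iff_first : ∀ (n : ℕ) (v u : List Bool), v.length = n → u.length = n →
    (vb v < vb u ↔ ∃ i < n, v.take i = u.take i ∧ v.getD i false = false ∧
      u.getD i false = true) := by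
  intro n
  induction n with
  | zero =>
    intro v u hv hu
    rw [List.length_eq_zero_iff] at hv hu
    rw [hv, hu]
    simp
  | succ n ih =>
    intro v u hv hu
    obtain ⟨v', b, rfl⟩ : ∃ v' b, v = v' ++ [b] :=
      ⟨v.dropLast, v.getLast (by rintro rfl; simp at hv), (List.dropLast_append_getLast _).symm⟩
    obtain ⟨u', d, rfl⟩ : ∃ u' d, u = u' ++ [d] :=
      ⟨u.dropLast, u.getLast (by rintro rfl; simp at hu), (List.dropLast_append_getLast _).symm⟩
    simp only [List.length_append, List.length_singleton, Nat.add_right_cancel_iff] at hv hu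
    have h0 := ih v' u' hv hu
    rw [vb_append, vb_append]
    have hb := Bool.toNat_lt b
    have hd := Bool.toNat_lt d
    have e1 : ∀ i < n, (v' ++ [b]).take i = v'.take i ∧ (u' ++ [d]).take i = u'.take i ∧
        (v' ++ [b]).getD i false = v'.getD i false ∧
        (u' ++ [d]).getD i false = u'.getD i false := by
      intro i hi
      refine ⟨List.take_append_of_le_length (by omega), List.take_append_of_le_length (by omega),
        List.getD_append _ _ _ _ (by omega), List.getD_append _ _ _ _ (by omega)⟩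
    have e2 : (v' ++ [b]).take n = v' ∧ (u' ++ [d]).take n = u' ∧
        (v' ++ [b]).getD n false = b ∧ (u' ++ [d]).getD n false = d := by
      refine ⟨?_, ?_, ?_, ?_⟩
      · rw [List.take_append_of_le_length (by omega), List.take_of_length_le (by omega)]
      · rw [List.take_append_of_le_length (by omega), List.take_of_length_le (by omega)]
      · rw [List.getD_append_right _ _ _ _ (by omega), hv, Nat.sub_self]
        rfl
      · rw [List.getD_append_right _ _ _ _ (by omega), hu, Nat.sub_self]
        rfl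
    constructor
    · intro h
      rcases Nat.lt_trichotomy (vb v') (vb u') with h1 | h1 | h1
      · obtain ⟨i, hi, h2, h3, h4⟩ := h0.1 h1
        obtain ⟨g1, g2, g3, g4⟩ := e1 i hi
        exact ⟨i, by omega, by rw [g1, g2, h2], by rw [g3, h3], by rw [g4, h4]⟩
      · have h2 := vb_inj n v' u' hv hu h1
        refine ⟨n, by omega, by rw [e2.1, e2.2.1, h2], ?_, ?_⟩
        · rw [e2.2.2.1]
          cases b with
          | false => rfl
          | true =>
            rw [show true.toNat = 1 from rfl] at h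
            omega
        · rw [e2.2.2.2]
          cases d with
          | true => rfl
          | false =>
            rw [show false.toNat = 0 from rfl] at h
            omega
      · omega
    · rintro ⟨i, hi, h2, h3, h4⟩
      rcases Nat.lt_or_ge i n with h | h
      · obtain ⟨g1, g2, g3, g4⟩ := e1 i h
        rw [g1, g2] at h2
        rw [g3] at h3
        rw [g4] at h4
        have := h0.2 ⟨i, h, h2, h3, h4⟩
        omega
      · have hin : i = n := by omega
        subst hin
        rw [e2.1, e2.2.1] at h2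
        rw [e2.2.2.1] at h3
        rw [e2.2.2.2] at h4
        rw [h2, h3, h4]
        rw [show true.toNat = 1 from rfl, show false.toNat = 0 from rfl]
        omega

/-- the comparison of two binary numbers -/
def cmp (v u : List Bool) : Bool :=
  decide (v = u) || (List.range v.length).any fun i => decide (v.take i = u.take i) &&
    (!v.getD i false && u.getD i false)

lemma cmp_iff {v u : List Bool} (h : v.length = u.length) : cmp v u = true ↔ vb v ≤ vb u := by
  unfold cmp
  rw [Bool.or_eq_true, decide_eq_true_eq, List.any_eq_true]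
  have h1 := lt_iff_first v.length v u rfl h.symm
  constructor
  · rintro (h2 | ⟨i, hi, h2⟩)
    · rw [h2]
    · rw [List.mem_range] at hi
      simp only [Bool.and_eq_true, decide_eq_true_eq, Bool.not_eq_true'] at h2
      exact (h1.2 ⟨i, hi, h2⟩).le
  · intro h2
    rcases Nat.lt_or_ge (vb v) (vb u) with h3 | h3
    · obtain ⟨i, hi, h4⟩ := h1.1 h3
      refine Or.inr ⟨i, List.mem_range.2 hi, ?_⟩
      simp only [Bool.and_eq_true, decide_eq_true_eq, Bool.not_eq_true']
      exact h4
    · exact Or.inl (vb_inj v.length v u rfl h.symm (le_antisymm h2 h3))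

lemma PT_cmp {α : Type} [DEnc α] {v u : α → List Bool} (hv : PT v) (hu : PT u) :
    PT (fun a => cmp (v a) (u a)) := by
  unfold cmp
  refine PT.bor (PT_leq hv hu) (PT.any (p := fun w : α × ℕ =>
    decide ((v w.1).take w.2 = (u w.1).take w.2) && (!(v w.1).getD w.2 false &&
      (u w.1).getD w.2 false)) (PT.range (PT.length hv)) ?_)
  exact PT.band (PT_leq (PT_take PT.snd (hv.comp PT.fst)) (PT_take PT.snd (hu.comp PT.fst)))
    (PT.band (PT.bnot (PT.getD (hv.comp PT.fst) PT.snd (PT.const false)))
      (PT.getD (hu.comp PT.fst) PT.snd (PT.const false)))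

theorem inPAdv_pad {X : ℝ} (hX0 : 0 ≤ X) (hX1 : X < 1) {k : ℕ} (hk : 1 ≤ k) :
    ∃ a : ℕ → ℕ, (∀ n, a n ^ k ≤ n) ∧ InPAdv a (padCut X k) := by
  classical
  -- the digits of the real number
  have hdig : ∀ r : ℕ, ∃ u : List Bool, u.length = r ∧ vb u = ⌊X * 2 ^ r⌋₊ := by
    intro r
    apply exists_vb
    rw [Nat.floor_lt (by positivity)]
    push_cast
    have h : (0 : ℝ) < 2 ^ r := by positivity
    nlinarith
  choose u hu1 hu2 using hdig
  let α : ℕ → List Bool := fun n =>
    if h : ∃ r, 2 * r + 2 + r ^ k = n then u (Classical.choose h) else []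
  have hα : ∀ r, α (2 * r + 2 + r ^ k) = u r := by
    intro r
    have h : ∃ r', 2 * r' + 2 + r' ^ k = 2 * r + 2 + r ^ k := ⟨r, rfl⟩
    have h1 := Classical.choose_spec h
    have h2 : Classical.choose h = r := by
      obtain ⟨r', hr'⟩ : ∃ r', r' = Classical.choose h := ⟨_, rfl⟩
      rw [← hr'] at h1 ⊢
      rcases Nat.lt_trichotomy r' r with h3 | h3 | h3
      · have := Nat.pow_le_pow_left h3.le k
        omega
      · exact h3
      · have := Nat.pow_le_pow_left h3.le k
        omega
    simp only [α, dif_pos h, h2]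
  refine ⟨fun n => (α n).length, ?_, fun z => isPk k z.1 && cmp (unpair z.1).1 z.2, α,
    PT.verifier ?_, fun n => le_rfl, ?_⟩
  · intro n
    by_cases h : ∃ r, 2 * r + 2 + r ^ k = n
    · obtain ⟨r, rfl⟩ := h
      dsimp only
      rw [hα, hu1]
      omega
    · simp only [α, dif_neg h, List.length_nil]
      rw [zero_pow (by omega)]
      exact Nat.zero_le _
  · exact PT.band (PT_isPk k PT.fst) (PT_cmp (PT_unpair.comp PT.fst).p1 PT.snd)
  · intro w
    rw [mem_padCut, Bool.and_eq_true]
    refine and_congr_right fun h => ?_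
    unfold isPk at h
    rw [decide_eq_true_eq] at h
    obtain ⟨v, hv⟩ : ∃ v, v = (unpair w).1 := ⟨_, rfl⟩
    rw [← hv] at h ⊢
    have h1 : w.length = 2 * v.length + 2 + v.length ^ k := by rw [h, length_pk]
    dsimp only
    rw [h1, hα, cmp_iff (hu1 _).symm, hu2]
    change point v ≤ X ↔ _
    rw [point_eq, Nat.le_floor_iff (by positivity), div_le_iff₀ (by positivity)]

/-! ### hardness -/

lemma inNTime_of_inNEXP {O L : Set (List Bool)} (h : InNEXP O L) :
    ∃ b, 1 ≤ b ∧ InNTime b O L := by
  obtain ⟨k, R, hR, hL⟩ := h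
  obtain ⟨r, hr, hRr⟩ := MP_92db0f_lc_thr.OP.of_polyTime hR
  have h1 : PT (fun p : List Bool × List Bool =>
      decide (p.2.length - 1 ≤ p2 p.2.length (p.1.length ^ k + k))) :=
    PT.nle (PT.npred (PT.length PT.snd)) (PT_p2 (PT.length PT.snd)
      (PT.nadd (PT_npow (PT.length PT.fst) k) (PT.const k)))
  have h2 := MP_92db0f_lc_thr.OP.and (HasSz.prod HasSz.bits HasSz.bits) h1 hr
  refine ⟨k + 1, by omega, k + 1, _, MP_92db0f_lc_thr.OP.polyTime h2, fun x => ?_⟩
  rw [hL x]
  have h3 : ∀ y : List Bool, y.length - 1 ≤ p2 y.length (x.length ^ k + k) ↔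
      y.length ≤ 2 ^ (x.length ^ k + k) := by
    intro y
    rw [p2_eq]
    have : 1 ≤ 2 ^ (x.length ^ k + k) := Nat.one_le_two_pow
    omega
  have h4 : x.length ^ k + k ≤ (k + 1) * (x.length ^ (k + 1) + 1) := by
    have h5 : x.length ^ k ≤ x.length ^ (k + 1) + 1 := by
      rcases Nat.eq_zero_or_pos x.length with h | h
      · rw [h]
        rcases Nat.eq_zero_or_pos k with h6 | h6
        · rw [h6]
          simp
        · rw [zero_pow (by omega)]
          omega
      · exact (Nat.pow_le_pow_right h (by omega)).trans (Nat.le_succ _)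
    have h6 : (k + 1) * (x.length ^ (k + 1) + 1) =
      k * x.length ^ (k + 1) + x.length ^ (k + 1) + k + 1 := by ring
    omega
  constructor
  · rintro ⟨y, hy1, hy2⟩
    refine ⟨y, hy1.trans (Nat.pow_le_pow_right (by norm_num) h4), ?_⟩
    rw [Bool.and_eq_true, decide_eq_true_eq]
    exact ⟨(h3 y).2 hy1, (hRr _).1 hy2⟩
  · rintro ⟨y, _, hy2⟩
    rw [Bool.and_eq_true, decide_eq_true_eq] at hy2
    exact ⟨y, (h3 y).1 hy2.1, (hRr _).2 hy2.2⟩

/-- the translated query -/
def trq (k : ℕ) (w : List Bool) : List Bool :=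
  bif w.headD false then true :: pk k w.tail else w

lemma trq_mem {A : Set (List Bool)} {X : ℝ} {k : ℕ} {w : List Bool} :
    trq k w ∈ join A (padCut X k) ↔ w ∈ join A (leftCut X) := by
  rcases w with _ | ⟨b, u⟩
  · change [] ∈ _ ↔ _
    constructor <;>
    · rintro (⟨u, h, _⟩ | ⟨u, h, _⟩) <;> exact absurd h (by simp)
  · cases b with
    | false =>
      change false :: u ∈ _ ↔ _
      rw [mem_join_false, mem_join_false]
    | true =>
      change true :: pk k u ∈ _ ↔ _
      rw [mem_join_true, mem_join_true, pk_mem]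

theorem inP_of_short {b k : ℕ} {A L : Set (List Bool)} {X : ℝ}
    (h : InPShort b (join A (leftCut X)) L) : InP (join A (padCut X k)) L := by
  obtain ⟨q, d, C, hq, hd, hL⟩ := h
  have hqt : PT q := PT_of_TM2 (PT_encPair PT.fst PT.snd) hq
  have hans : ∀ (x : List Bool) (i : ℕ), answers (join A (padCut X k)) (fun z => trq k (q z)) x i =
      answers (join A (leftCut X)) q x i := by
    classical
    intro x i
    induction i with
    | zero => rfl
    | succ i ih =>
      rw [answers, answers, ih]
      congr 2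
      rw [Bool.eq_iff_iff, decide_eq_true_eq, decide_eq_true_eq]
      exact trq_mem
  refine ⟨fun z => trq k (q z), d, Polynomial.C C * (Polynomial.X ^ b + 1), ?_, hd, ?_⟩
  · refine PT.toTM2 (F := fun w => trq k (q ((unpair w).1, (unpair w).2))) ?_ ?_
    · have h1 : PT (fun w : List Bool => q ((unpair w).1, (unpair w).2)) :=
        hqt.comp (PT.pair PT_unpair.p1 PT_unpair.p2)
      exact PT.cond (PT.headD h1 (PT.const false)) (PT.cons (PT.const true) (PT_pk k (PT.tail h1))) h1
    · intro z
      dsimp only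
      rw [unpair_enc]
  · intro x
    have h1 : (Polynomial.C C * (Polynomial.X ^ b + 1) : Polynomial ℕ).eval x.length =
        C * (x.length ^ b + 1) := by simp
    rw [h1, hans]
    exact (hL x).1

/-- **The barrier for padded cuts.** -/
theorem padded_barrier {K : ℕ → Type} [∀ i, Field (K i)] (num : (i : ℕ) → K i → ℕ)
    (hnum : ∀ i, Function.Injective (num i)) :
    ∃ (A : Set (List Bool)) (F : (n i : ℕ) → MvPolynomial (Fin n) (K i)) (x : ℝ),
      IsExtension A F ∧ ∀ k, 1 ≤ k → InUP A (padCut x k) ∧ InRP A (padCut x k) ∧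
        (∃ a : ℕ → ℕ, (∀ n, a n ^ k ≤ n) ∧ InPAdv a (padCut x k)) ∧
        ∀ L, InNEXP (join A (extOracle num F)) L → InP (join A (padCut x k)) L := by
  obtain ⟨Y, ζ, X, hX0, hX1, hX, h⟩ := world num hnum
  refine ⟨ζ.σ.A, ζ.σ.F, X, ζ.σ.ext, fun k hk => ⟨inUP_pad ζ hX k, inRP_pad ζ hX k,
    inPAdv_pad hX0 hX1 hk, fun L hL => ?_⟩⟩
  obtain ⟨b, hb, hL'⟩ := inNTime_of_inNEXP hL
  exact inP_of_short (h b hb L hL')

end Pool.Agent.LCB
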