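import Pool.Agent.LCB.Add

/-!
Configurations: the digits of a real number and the state of the requirements, coded into the
oracle.
-/

set_option autoImplicit false

namespace Pool.Agent.LCB

open MvPolynomial MP_92db0f_lc_alg

/-- the number of digits of the classes up to `t` -/
def P (t : ℕ) : ℕ := 20 * (2 ^ (t + 1) - 1)

lemma P_succ (t : ℕ) : P (t + 1) = P t + 20 * 2 ^ (t + 1) := by
  unfold P
  have h1 : 1 ≤ 2 ^ (t + 1) := Nat.one_le_two_pow
  have h2 : 2 ^ (t + 1 + 1) = 2 * 2 ^ (t + 1) := by rw [pow_succ]; ring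
  omega

lemma P_zero : P 0 = 20 := rfl

lemma P_strictMono : StrictMono P := strictMono_nat_of_lt_succ fun t => by
  rw [P_succ]
  have h1 : 1 ≤ 2 ^ (t + 1) := Nat.one_le_two_pow
  omega

lemma P_mono {s t : ℕ} (h : s ≤ t) : P s ≤ P t := P_strictMono.monotone h

lemma le_P (t : ℕ) : 20 * 2 ^ t ≤ P t := by
  unfold P
  have h1 : 1 ≤ 2 ^ t := Nat.one_le_two_pow
  have h2 : 2 ^ (t + 1) = 2 * 2 ^ t := by rw [pow_succ]; ring
  omega

lemma lt_P (t : ℕ) : t < P t := by
  have h1 := le_P t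
  have h2 : t < 2 ^ t := Nat.lt_two_pow_self
  omega

lemma P_inj {s t : ℕ} (h : P s = P t) : s = t := P_strictMono.injective h

/-- a certificate in the sense of `UP` -/
def cU (u s : List Bool) : List Bool := true :: true :: (u ++ s)

/-- a certificate in the sense of `RP` -/
def cR (u s : List Bool) : List Bool := true :: false :: (u ++ s)

lemma cU_inj {u s u' s' : List Bool} (hs : s.length = u.length) (hs' : s'.length = u'.length)
    (h : cU u s = cU u' s') : u = u' ∧ s = s' := by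
  unfold cU at h
  simp only [List.cons.injEq, true_and] at h
  apply List.append_inj h
  have := congrArg List.length h
  rw [List.length_append, List.length_append] at this
  omega

lemma cR_inj {u s u' s' : List Bool} (hs : s.length = u.length) (hs' : s'.length = u'.length)
    (h : cR u s = cR u' s') : u = u' ∧ s = s' := by
  unfold cR at h
  simp only [List.cons.injEq, true_and] at h
  apply List.append_inj h
  have := congrArg List.length h
  rw [List.length_append, List.length_append] at this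
  omega

lemma cU_ne_cR (u s u' s' : List Bool) : cU u s ≠ cR u' s' := by
  unfold cU cR
  simp

/-- A system of requirements of classes `lv r`. The state of the requirement `r` is written at the
address `u` as the string `tab u r`; `acc σ r` says that the requirement is accepted relative to
`σ`, and acceptance depends on at most `2 ^ 2 ^ lv r` sample points. -/
structure Sys (K : ℕ → Type) [∀ i, Field (K i)] where
  Req : Type
  lv : Req → ℕ
  Rq : ℕ → Finset Req
  mem_Rq : ∀ t r, r ∈ Rq t ↔ lv r = t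
  card_Rq : ∀ t, (Rq t).card ≤ 2 ^ (2 * 2 ^ t + 2)
  tab : List Bool → Req → List Bool
  tab_inj : ∀ u r u' r', tab u r = tab u' r' → u = u' ∧ r = r'
  tab_len : ∀ u r, u.length ≤ (tab u r).length
  tab_head : ∀ u r, ∃ w, tab u r = false :: w
  acc : St K → Req → Prop
  use : ∀ σ r, acc σ r → ∃ S : Finset (Pt K), S.card ≤ 2 ^ 2 ^ lv r ∧ ∀ τ, Agree σ τ S → acc τ r

variable {K : ℕ → Type} [∀ i, Field (K i)]

lemma Sys.tab_ne_cU (Y : Sys K) (u : List Bool) (r : Y.Req) (u' s' : List Bool) :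
    Y.tab u r ≠ cU u' s' := by
  obtain ⟨w, hw⟩ := Y.tab_head u r
  rw [hw]
  unfold cU
  simp

lemma Sys.tab_ne_cR (Y : Sys K) (u : List Bool) (r : Y.Req) (u' s' : List Bool) :
    Y.tab u r ≠ cR u' s' := by
  obtain ⟨w, hw⟩ := Y.tab_head u r
  rw [hw]
  unfold cR
  simp

open Classical in
/-- A configuration: `N t` is the number whose binary digits are the digits of the classes up to
`t`, and `s` is the set of the accepted requirements. -/
structure Conf (Y : Sys K) where
  N : ℕ → ℕ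
  s : Set Y.Req
  σ : St K
  zero : N 0 < 2 ^ 20
  step : ∀ t, N (t + 1) / 2 ^ (20 * 2 ^ (t + 1)) = N t
  dig : ∀ t, N t % 2 ^ (20 * 2 ^ t) ≤ 2 ^ (5 * 2 ^ t + 10) * ((Y.Rq t).filter fun r => r ∈ s).card
  tab : ∀ (r : Y.Req) (u : List Bool), u.length = P (Y.lv r) → N (Y.lv r) ≤ vb u →
    (Y.tab u r ∈ σ.A ↔ vb u = N (Y.lv r) ∧ r ∈ s)
  up : ∀ (t : ℕ) (u : List Bool), u.length = P t → vb u ≤ N t →
    ∃! s : List Bool, s.length = P t ∧ cU u s ∈ σ.A
  upn : ∀ (t : ℕ) (u : List Bool), u.length = P t → N t < vb u →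
    ∀ s : List Bool, s.length = P t → cU u s ∉ σ.A
  rp : ∀ (t : ℕ) (u : List Bool), u.length = P t → vb u ≤ N t →
    2 ^ P t ≤ 2 * {s : List Bool | s.length = P t ∧ cR u s ∈ σ.A}.ncard
  rpn : ∀ (t : ℕ) (u : List Bool), u.length = P t → N t < vb u →
    ∀ s : List Bool, s.length = P t → cR u s ∉ σ.A

/-- the digit block of class `t` is small -/
lemma Conf.dig_lt {Y : Sys K} (κ : Conf Y) (t : ℕ) :
    κ.N t % 2 ^ (20 * 2 ^ t) + 1 < 2 ^ (20 * 2 ^ t) := by
  classical
  have h1 := κ.dig t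
  have h2 : ((Y.Rq t).filter fun r => r ∈ κ.s).card ≤ 2 ^ (2 * 2 ^ t + 2) :=
    (Finset.card_filter_le _ _).trans (Y.card_Rq t)
  have h3 : 2 ^ (5 * 2 ^ t + 10) * ((Y.Rq t).filter fun r => r ∈ κ.s).card ≤
      2 ^ (5 * 2 ^ t + 10) * 2 ^ (2 * 2 ^ t + 2) := Nat.mul_le_mul_left _ h2
  rw [← pow_add] at h3
  have h4 : 1 ≤ 2 ^ t := Nat.one_le_two_pow
  have h5 : 2 ^ (5 * 2 ^ t + 10 + (2 * 2 ^ t + 2)) * 2 ≤ 2 ^ (20 * 2 ^ t) := by
    rw [← pow_succ]
    exact Nat.pow_le_pow_right (by norm_num) (by omega)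
  have h6 : 2 ≤ 2 ^ (5 * 2 ^ t + 10 + (2 * 2 ^ t + 2)) := by
    calc 2 = 2 ^ 1 := by norm_num
      _ ≤ _ := Nat.pow_le_pow_right (by norm_num) (by omega)
  have h7 := κ.dig t
  have h8 : κ.N t % 2 ^ (20 * 2 ^ t) ≤ 2 ^ (5 * 2 ^ t + 10 + (2 * 2 ^ t + 2)) := by
    refine le_trans (le_trans h7 ?_) h3
    exact le_of_eq (by congr)
  omega

end Pool.Agent.LCB
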