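import Pool.Agent.MP_92db0f_lc_alg.Defs

/-!
Left cuts of real numbers, the class `RP` relative to an oracle, nondeterministic time
`2 ^ O(n ^ b)` relative to an oracle, and polynomial time with few and short queries.
-/

set_option autoImplicit false

namespace Pool.Agent.LCB

open Turing Computability Lib.helper60 MP_92db0f_lc_alg

/-- The real number with the binary expansion `0.v`. -/
noncomputable def point : List Bool → ℝ
  | [] => 0
  | b :: v => ((if b then 1 else 0) + point v) / 2

/-- The left cut of the real number `x`: the strings `v` with `0.v ≤ x`. -/
def leftCut (x : ℝ) : Set (List Bool) := {v | point v ≤ x}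

/-- The class `RP` relative to the oracle `O`: at least half of the strings of a certain polynomial
length are certificates if `x ∈ L`, and none of them is if `x ∉ L`. -/
def InRP (O L : Set (List Bool)) : Prop :=
  ∃ (R : List Bool × List Bool → Prop) (P : Polynomial ℕ), PolyTime encPair O R ∧
    ∀ x : List Bool,
      (x ∈ L → 2 ^ P.eval x.length ≤
        2 * {y : List Bool | y.length = P.eval x.length ∧ R (x, y)}.ncard) ∧
      (x ∉ L → ∀ y : List Bool, y.length = P.eval x.length → ¬ R (x, y))

/-- Nondeterministic time `2 ^ O(n ^ b)` relative to the oracle `O`: membership of `x` is witnessed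
by certificates of length at most `2 ^ (k * (|x| ^ b + 1))`, which a deterministic machine with the
oracle `O` checks in time polynomial in the length of `x` and the certificate. -/
def InNTime (b : ℕ) (O L : Set (List Bool)) : Prop :=
  ∃ (k : ℕ) (R : List Bool × List Bool → Prop), PolyTime encPair O R ∧
    ∀ x, x ∈ L ↔ ∃ y : List Bool, y.length ≤ 2 ^ (k * (x.length ^ b + 1)) ∧ R (x, y)

/-- The language `L` is decided by a deterministic polynomial-time machine with the oracle `O` that
makes `O(n ^ b)` queries, each of length `O(n ^ b)`, on inputs of length `n`: the next query `q` and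
the decision `d` are computed by Turing machines in time polynomial in the length of the input and
the answers so far. -/
def InPShort (b : ℕ) (O L : Set (List Bool)) : Prop :=
  ∃ (q : List Bool × List Bool → List Bool) (d : List Bool × List Bool → Bool) (k : ℕ),
    Nonempty (TM2ComputableInPolyTime encPair (fun w => w) q) ∧
    Nonempty (TM2ComputableInPolyTime encPair encodeBool d) ∧
    ∀ x : List Bool, (x ∈ L ↔ d (x, answers O q x (k * (x.length ^ b + 1))) = true) ∧
      ∀ i < k * (x.length ^ b + 1), (q (x, answers O q x i)).length ≤ k * (x.length ^ b + 1)

end Pool.Agent.LCB
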