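import Pool.Agent.LCB.Conf

/-!
The event: one more requirement is accepted, the digits of its class are increased, and all later
digits are reset.
-/

set_option autoImplicit false

namespace Pool.Agent.LCB

open MvPolynomial MP_92db0f_lc_alg

lemma vb_lt (u : List Bool) : vb u < 2 ^ u.length := by
  induction u using List.reverseRecOn with
  | nil => simp
  | append_singleton u b ih =>
    rw [vb_append, List.length_append, List.length_singleton, pow_succ]
    have := Bool.toNat_lt b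
    omega

/-- the strings of length `n` -/
lemma finite_strings (n : ℕ) : {s : List Bool | s.length = n}.Finite := by
  have h : {s : List Bool | s.length = n} ⊆ Set.range (fun x : Fin n → Bool => List.ofFn x) := by
    rintro s rfl
    exact ⟨s.get, List.ofFn_get s⟩
  exact (Set.finite_range _).subset h

lemma ncard_strings (n : ℕ) : {s : List Bool | s.length = n}.ncard = 2 ^ n := by
  have h : {s : List Bool | s.length = n} = Set.range (fun x : Fin n → Bool => List.ofFn x) := by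
    ext s
    constructor
    · rintro rfl
      exact ⟨s.get, List.ofFn_get s⟩
    · rintro ⟨x, rfl⟩
      simp
  rw [h, ← Set.image_univ, Set.ncard_image_of_injective _ List.ofFn_injective, Set.ncard_univ]
  simp

/-- few strings are excluded -/
lemma ncard_good (n : ℕ) (B : Finset (List Bool)) (hB : 2 * B.card ≤ 2 ^ n)
    (f : List Bool → List Bool) (hf : ∀ s s' : List Bool, s.length = n → s'.length = n →
      f s = f s' → s = s') :
    2 ^ n ≤ 2 * {s : List Bool | s.length = n ∧ f s ∉ B}.ncard := by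
  classical
  have h1 : {s : List Bool | s.length = n} =
      {s : List Bool | s.length = n ∧ f s ∉ B} ∪ {s : List Bool | s.length = n ∧ f s ∈ B} := by
    ext s
    constructor
    · intro h
      by_cases hs : f s ∈ B
      · exact Or.inr ⟨h, hs⟩
      · exact Or.inl ⟨h, hs⟩
    · rintro (h | h) <;> exact h.1
  have h2 : {s : List Bool | s.length = n ∧ f s ∈ B}.ncard ≤ B.card := by
    rw [← Set.ncard_coe_finset B]
    refine Set.ncard_le_ncard_of_injOn f (fun s hs => hs.2) ?_ B.finite_toSet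
    intro s hs s' hs' h
    exact hf s s' hs.1 hs'.1 h
  have h3 := ncard_strings n
  rw [h1] at h3
  have h4 := Set.ncard_union_le {s : List Bool | s.length = n ∧ f s ∉ B}
    {s : List Bool | s.length = n ∧ f s ∈ B}
  omega

lemma exists_good_string (n : ℕ) (B : Finset (List Bool)) (hB : 2 * B.card ≤ 2 ^ n)
    (f : List Bool → List Bool) (hf : ∀ s s' : List Bool, s.length = n → s'.length = n →
      f s = f s' → s = s') : ∃ s : List Bool, s.length = n ∧ f s ∉ B := by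
  have h := ncard_good n B hB f hf
  by_contra hcon
  push Not at hcon
  have h1 : {s : List Bool | s.length = n ∧ f s ∉ B} = ∅ := by
    ext s
    simp only [Set.mem_ofPred_eq, Set.mem_empty_iff_false, iff_false, not_and, not_not]
    exact hcon s
  rw [h1, Set.ncard_empty] at h
  have : 0 < 2 ^ n := by positivity
  omega

variable {K : ℕ → Type} [∀ i, Field (K i)] {Y : Sys K}

open Classical in
/-- **The event.** -/
theorem Conf.event (κ : Conf Y) (r₀ : Y.Req) (hr : r₀ ∉ κ.s) (S : Finset (Pt K))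
    (hS : S.card < 2 ^ (5 * 2 ^ Y.lv r₀ + 10)) :
    ∃ κ' : Conf Y, (∀ j < Y.lv r₀, κ'.N j = κ.N j) ∧
      (∀ r, r ∈ κ'.s ↔ (Y.lv r < Y.lv r₀ ∧ r ∈ κ.s) ∨ (Y.lv r = Y.lv r₀ ∧ (r ∈ κ.s ∨ r = r₀))) ∧
      Agree κ.σ κ'.σ S ∧ (∀ n < P (Y.lv r₀), κ'.σ.F n = κ.σ.F n) ∧
      ∀ w : List Bool, w.length < P (Y.lv r₀) → (w ∈ κ'.σ.A ↔ w ∈ κ.σ.A) := by
  obtain ⟨t, ht⟩ : ∃ t, t = Y.lv r₀ := ⟨_, rfl⟩
  rw [← ht] at hS ⊢
  obtain ⟨B, hBS, hadd⟩ := exists_add S
  have hM : 1 ≤ 2 ^ t := Nat.one_le_two_pow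
  have hPt := le_P t
  have hB : B.card < 2 ^ (5 * 2 ^ t + 10) := lt_of_le_of_lt hBS hS
  -- the increment
  obtain ⟨δ, hδ1, hδ2, hδ⟩ : ∃ δ, 1 ≤ δ ∧ δ ≤ 2 ^ (5 * 2 ^ t + 10) ∧
      ∀ r ∈ Y.Rq t, ∀ u : List Bool, u.length = P t → vb u = κ.N t + δ → Y.tab u r ∉ B := by
    by_contra hcon
    push Not at hcon
    choose f hf1 g hg1 hg2 hg3 using hcon
    let F : (δ : ℕ) → List Bool := fun δ =>
      if h : 1 ≤ δ ∧ δ ≤ 2 ^ (5 * 2 ^ t + 10) then Y.tab (g δ h.1 h.2) (f δ h.1 h.2) else []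
    have hle : ((Finset.Icc 1 (2 ^ (5 * 2 ^ t + 10))).image F).card ≤ B.card := by
      apply Finset.card_le_card
      intro w hw
      obtain ⟨δ, hδ, rfl⟩ := Finset.mem_image.1 hw
      rw [Finset.mem_Icc] at hδ
      simp only [F, dif_pos hδ]
      exact hg3 δ hδ.1 hδ.2
    rw [Finset.card_image_of_injOn, Nat.card_Icc] at hle
    · omega
    · intro δ hδ δ' hδ' h
      rw [Finset.mem_coe, Finset.mem_Icc] at hδ hδ'
      simp only [F, dif_pos hδ, dif_pos hδ'] at h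
      have h1 := (Y.tab_inj _ _ _ _ h).1
      have h2 := hg2 δ hδ.1 hδ.2
      have h3 := hg2 δ' hδ'.1 hδ'.2
      rw [h1] at h2
      omega
  -- the size of the digit block
  have hacc : ((Y.Rq t).filter fun r => r ∈ κ.s).card + 1 ≤ 2 ^ (2 * 2 ^ t + 2) := by
    refine le_trans ?_ (Y.card_Rq t)
    apply Nat.succ_le_of_lt
    apply Finset.card_lt_card
    rw [Finset.filter_ssubset]
    exact ⟨r₀, (Y.mem_Rq _ _).2 ht.symm, hr⟩
  have hdig : κ.N t % 2 ^ (20 * 2 ^ t) + δ ≤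
      2 ^ (5 * 2 ^ t + 10) * (((Y.Rq t).filter fun r => r ∈ κ.s).card + 1) := by
    rw [Nat.mul_succ]
    exact Nat.add_le_add (κ.dig t) hδ2
  have hdig2 : κ.N t % 2 ^ (20 * 2 ^ t) + δ < 2 ^ (20 * 2 ^ t) := by
    refine lt_of_le_of_lt hdig ?_
    refine lt_of_le_of_lt (Nat.mul_le_mul_left _ hacc) ?_
    rw [← pow_add]
    exact Nat.pow_lt_pow_right (by norm_num) (by omega)
  have hdiv : (κ.N t + δ) / 2 ^ (20 * 2 ^ t) = κ.N t / 2 ^ (20 * 2 ^ t) := by
    have h1 := Nat.div_add_mod (κ.N t) (2 ^ (20 * 2 ^ t))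
    conv_lhs => rw [← h1]
    rw [Nat.add_assoc, Nat.mul_add_div (by positivity), Nat.div_eq_of_lt hdig2, Nat.add_zero]
  have hmod : (κ.N t + δ) % 2 ^ (20 * 2 ^ t) = κ.N t % 2 ^ (20 * 2 ^ t) + δ := by
    have h1 := Nat.div_add_mod (κ.N t) (2 ^ (20 * 2 ^ t))
    conv_lhs => rw [← h1]
    rw [Nat.add_assoc, Nat.mul_add_mod, Nat.mod_eq_of_lt hdig2]
  -- the new digits
  obtain ⟨N', hN'⟩ : ∃ N' : ℕ → ℕ, ∀ j, N' j =
      if j < t then κ.N j else (κ.N t + δ) * 2 ^ (P j - P t) := ⟨_, fun _ => rfl⟩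
  have hN1 : ∀ j < t, N' j = κ.N j := fun j hj => by rw [hN', if_pos hj]
  have hN2 : N' t = κ.N t + δ := by
    rw [hN', if_neg (lt_irrefl t), Nat.sub_self, pow_zero, mul_one]
  have hN3 : ∀ j, t ≤ j → N' (j + 1) = N' j * 2 ^ (20 * 2 ^ (j + 1)) := by
    intro j hj
    rw [hN', hN', if_neg (by omega), if_neg (by omega), mul_assoc, ← pow_add]
    congr 2
    have h1 := P_succ j
    have h2 := P_mono hj
    omega
  have hN4 : ∀ j, t ≤ j → κ.N j < N' j := by
    intro j hj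
    induction j, hj using Nat.le_induction with
    | base => omega
    | succ j hj ih =>
      rw [hN3 j hj]
      have h1 := κ.step j
      have h2 := Nat.div_add_mod (κ.N (j + 1)) (2 ^ (20 * 2 ^ (j + 1)))
      have h3 := Nat.mod_lt (κ.N (j + 1)) (show 0 < 2 ^ (20 * 2 ^ (j + 1)) by positivity)
      rw [h1] at h2
      have h4 : (κ.N j + 1) * 2 ^ (20 * 2 ^ (j + 1)) ≤ N' j * 2 ^ (20 * 2 ^ (j + 1)) :=
        Nat.mul_le_mul_right _ ih
      rw [Nat.add_mul, one_mul, Nat.mul_comm (κ.N j)] at h4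
      omega
  -- certificates
  have hB2 : ∀ j, t ≤ j → 2 * B.card ≤ 2 ^ P j := by
    intro j hj
    have h1 := P_mono hj
    have h2 : 2 ^ (5 * 2 ^ t + 10) * 2 ≤ 2 ^ P j := by
      rw [← pow_succ]
      exact Nat.pow_le_pow_right (by norm_num) (by omega)
    omega
  have hch : ∀ j u, ∃ s : List Bool, t ≤ j → u.length = P j → s.length = P j ∧ cU u s ∉ B := by
    intro j u
    by_cases h : t ≤ j ∧ u.length = P j
    · obtain ⟨s, h1, h2⟩ := exists_good_string (P j) B (hB2 j h.1) (cU u) (fun s s' hs hs' he =>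
        (cU_inj (by omega) (by omega) he).2)
      exact ⟨s, fun _ _ => ⟨h1, h2⟩⟩
    · exact ⟨[], fun h1 h2 => absurd ⟨h1, h2⟩ h⟩
  choose ch hch using hch
  -- the new strings
  let Z₁ : Set (List Bool) := {w | ∃ r ∈ Y.Rq t, (r ∈ κ.s ∨ r = r₀) ∧ ∃ u : List Bool,
    u.length = P t ∧ vb u = N' t ∧ w = Y.tab u r}
  let Z₂ : Set (List Bool) := {w | ∃ j, t ≤ j ∧ ∃ u : List Bool, u.length = P j ∧ κ.N j < vb u ∧
    vb u ≤ N' j ∧ w = cU u (ch j u)}
  let Z₃ : Set (List Bool) := {w | ∃ j, t ≤ j ∧ ∃ u : List Bool, u.length = P j ∧ κ.N j < vb u ∧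
    vb u ≤ N' j ∧ ∃ s : List Bool, s.length = P j ∧ w = cR u s ∧ w ∉ B}
  have hlvt : ∀ r ∈ Y.Rq t, Y.lv r = t := fun r h => (Y.mem_Rq t r).1 h
  obtain ⟨σ', hA', hagree, hF'⟩ := hadd κ.σ (Z₁ ∪ Z₂ ∪ Z₃) (by
    rintro w ((⟨r, hr1, -, u, hu1, hu2, rfl⟩ | ⟨j, hj, u, hu1, hu2, -, rfl⟩) |
      ⟨j, hj, u, hu1, hu2, -, s, hs, rfl, hw⟩)
    · refine ⟨hδ r hr1 u hu1 (hu2.trans hN2), ?_⟩
      have h1 := hlvt r hr1
      rw [κ.tab r u (by rw [h1]; exact hu1) (by rw [h1]; omega), h1]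
      omega
    · obtain ⟨h1, h2⟩ := hch j u hj hu1
      exact ⟨h2, κ.upn j u hu1 hu2 _ h1⟩
    · exact ⟨hw, κ.rpn j u hu1 hu2 _ hs⟩)
  have hlen : ∀ w ∈ Z₁ ∪ Z₂ ∪ Z₃, P t ≤ w.length := by
    rintro w ((⟨r, -, -, u, hu1, -, rfl⟩ | ⟨j, hj, u, hu1, -, -, rfl⟩) |
      ⟨j, hj, u, hu1, -, -, s, hs, rfl, -⟩)
    · exact hu1 ▸ Y.tab_len u r
    · have h1 := P_mono hj
      simp only [cU, List.length_cons, List.length_append]
      omega
    · have h1 := P_mono hj
      simp only [cR, List.length_cons, List.length_append]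
      omega
  have hmem : ∀ w, w ∈ σ'.A ↔ w ∈ κ.σ.A ∨ w ∈ Z₁ ∨ w ∈ Z₂ ∨ w ∈ Z₃ := by
    intro w
    rw [hA']
    constructor
    · rintro (h | (h | h) | h)
      · exact Or.inl h
      · exact Or.inr (Or.inl h)
      · exact Or.inr (Or.inr (Or.inl h))
      · exact Or.inr (Or.inr (Or.inr h))
    · rintro (h | h | h | h)
      · exact Or.inl h
      · exact Or.inr (Or.inl (Or.inl h))
      · exact Or.inr (Or.inl (Or.inr h))
      · exact Or.inr (Or.inr h)
  obtain ⟨s', hs'⟩ : ∃ s' : Set Y.Req, ∀ r, r ∈ s' ↔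
      (Y.lv r < t ∧ r ∈ κ.s) ∨ (Y.lv r = t ∧ (r ∈ κ.s ∨ r = r₀)) := ⟨{r | _}, fun _ => Iff.rfl⟩
  -- membership of the codes
  have mtab : ∀ r u, Y.tab u r ∈ σ'.A ↔ Y.tab u r ∈ κ.σ.A ∨
      (Y.lv r = t ∧ (r ∈ κ.s ∨ r = r₀) ∧ u.length = P t ∧ vb u = N' t) := by
    intro r u
    rw [hmem]
    constructor
    · rintro (h | ⟨r', h1, h2, u', h3, h4, h5⟩ | ⟨j, -, u', -, -, -, h5⟩ |
        ⟨j, -, u', -, -, -, s, -, h5, -⟩)
      · exact Or.inl h
      · obtain ⟨rfl, rfl⟩ := Y.tab_inj _ _ _ _ h5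
        exact Or.inr ⟨hlvt _ h1, h2, h3, h4⟩
      · exact absurd h5 (Y.tab_ne_cU _ _ _ _)
      · exact absurd h5 (Y.tab_ne_cR _ _ _ _)
    · rintro (h | ⟨h1, h2, h3, h4⟩)
      · exact Or.inl h
      · exact Or.inr (Or.inl ⟨r, (Y.mem_Rq t r).2 h1, h2, u, h3, h4, rfl⟩)
  have mU : ∀ j u s, u.length = P j → s.length = P j → (cU u s ∈ σ'.A ↔ cU u s ∈ κ.σ.A ∨
      (t ≤ j ∧ κ.N j < vb u ∧ vb u ≤ N' j ∧ s = ch j u)) := by
    intro j u s hu hs
    rw [hmem]
    constructor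
    · rintro (h | ⟨r', -, -, u', -, -, h5⟩ | ⟨j', h1, u', h2, h3, h4, h5⟩ |
        ⟨j', -, u', -, -, -, s', -, h5, -⟩)
      · exact Or.inl h
      · exact absurd h5.symm (Y.tab_ne_cU _ _ _ _)
      · obtain ⟨e1, e2⟩ := cU_inj (by omega) (by rw [(hch j' u' h1 h2).1, h2]) h5
        subst e1
        have e3 : j = j' := P_inj (hu.symm.trans h2)
        subst e3
        exact Or.inr ⟨h1, h3, h4, e2⟩
      · exact absurd h5 (cU_ne_cR _ _ _ _)
    · rintro (h | ⟨h1, h2, h3, rfl⟩)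
      · exact Or.inl h
      · exact Or.inr (Or.inr (Or.inl ⟨j, h1, u, hu, h2, h3, rfl⟩))
  have mR : ∀ j u s, u.length = P j → s.length = P j → (cR u s ∈ σ'.A ↔ cR u s ∈ κ.σ.A ∨
      (t ≤ j ∧ κ.N j < vb u ∧ vb u ≤ N' j ∧ cR u s ∉ B)) := by
    intro j u s hu hs
    rw [hmem]
    constructor
    · rintro (h | ⟨r', -, -, u', -, -, h5⟩ | ⟨j', h1, u', h2, h3, h4, h5⟩ |
        ⟨j', h1, u', h2, h3, h4, s', h6, h5, h7⟩)
      · exact Or.inl h
      · exact absurd h5.symm (Y.tab_ne_cR _ _ _ _)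
      · exact absurd h5.symm (cU_ne_cR _ _ _ _)
      · obtain ⟨e1, e2⟩ := cR_inj (by omega) (by omega) h5
        subst e1
        have e3 : j = j' := P_inj (hu.symm.trans h2)
        subst e3
        exact Or.inr ⟨h1, h3, h4, h7⟩
    · rintro (h | ⟨h1, h2, h3, h4⟩)
      · exact Or.inl h
      · exact Or.inr (Or.inr (Or.inr ⟨j, h1, u, hu, h2, h3, s, hs, rfl, h4⟩))
  refine ⟨⟨N', s', σ', ?_, ?_, ?_, ?_, ?_, ?_, ?_, ?_⟩, hN1, hs', hagree, ?_, ?_⟩
  · -- zero
    rcases Nat.eq_zero_or_pos t with h0 | h0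
    · subst h0
      rw [hN2]
      have h1 := κ.zero
      have h2 : κ.N 0 % 2 ^ (20 * 2 ^ 0) = κ.N 0 := Nat.mod_eq_of_lt (by simpa using h1)
      rw [h2] at hdig2
      simpa using hdig2
    · rw [hN1 0 h0]
      exact κ.zero
  · -- step
    intro j
    rcases Nat.lt_trichotomy (j + 1) t with h | h | h
    · rw [hN1 _ h, hN1 _ (by omega)]
      exact κ.step j
    · rw [h, hN2, hdiv, ← h, hN1 j (by omega)]
      exact κ.step j
    · rw [hN3 j (by omega)]
      exact Nat.mul_div_cancel _ (by positivity)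
  · -- dig
    intro j
    rcases Nat.lt_trichotomy j t with h | h | h
    · rw [hN1 _ h]
      refine (κ.dig j).trans (le_of_eq ?_)
      congr 2
      apply Finset.filter_congr
      intro r hr1
      have h1 := (Y.mem_Rq j r).1 hr1
      rw [hs']
      constructor
      · intro h2
        exact Or.inl ⟨by omega, h2⟩
      · rintro (h2 | h2)
        · exact h2.2
        · omega
    · subst h
      rw [hN2, hmod]
      refine hdig.trans (Nat.mul_le_mul_left _ ?_)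
      apply Nat.succ_le_of_lt
      apply Finset.card_lt_card
      rw [Finset.ssubset_iff_of_subset]
      · refine ⟨r₀, Finset.mem_filter.2 ⟨(Y.mem_Rq _ _).2 ht.symm,
          (hs' r₀).2 (Or.inr ⟨ht.symm, Or.inr rfl⟩)⟩, ?_⟩
        intro h1
        exact hr (Finset.mem_filter.1 h1).2
      · intro r hr1
        rw [Finset.mem_filter] at hr1 ⊢
        exact ⟨hr1.1, (hs' r).2 (Or.inr ⟨hlvt r hr1.1, Or.inl hr1.2⟩)⟩
    · obtain ⟨i, rfl⟩ : ∃ i, j = i + 1 := ⟨j - 1, by omega⟩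
      rw [hN3 i (by omega), Nat.mul_mod_left]
      exact Nat.zero_le _
  · -- tab
    intro r u hu hle
    rw [mtab, hs']
    rcases Nat.lt_trichotomy (Y.lv r) t with h | h | h
    · rw [hN1 _ h] at hle ⊢
      rw [κ.tab r u hu hle]
      constructor
      · rintro (h1 | h1)
        · exact ⟨h1.1, Or.inl ⟨h, h1.2⟩⟩
        · omega
      · rintro ⟨h1, h2 | h2⟩
        · exact Or.inl ⟨h1, h2.2⟩
        · omega
    · have h1 : κ.N (Y.lv r) < N' (Y.lv r) := hN4 _ h.ge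
      rw [κ.tab r u hu (by omega)]
      constructor
      · rintro (h2 | ⟨h2, h3, h4, h5⟩)
        · omega
        · rw [h]
          exact ⟨h5, Or.inr ⟨rfl, h3⟩⟩
      · rintro ⟨h2, h3 | h3⟩
        · omega
        · rw [h] at h2 hu
          exact Or.inr ⟨h, h3.2, hu, h2⟩
    · have h1 : κ.N (Y.lv r) < N' (Y.lv r) := hN4 _ h.le
      rw [κ.tab r u hu (by omega)]
      constructor
      · rintro (h2 | ⟨h2, -⟩)
        · omega
        · omega
      · rintro ⟨_, h3 | h3⟩ <;> omega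
  · -- up
    intro j u hu hle
    rcases Nat.lt_or_ge j t with h | h
    · rw [hN1 _ h] at hle
      obtain ⟨s, ⟨h1, h2⟩, h3⟩ := κ.up j u hu hle
      refine ⟨s, ⟨h1, (mU j u s hu h1).2 (Or.inl h2)⟩, ?_⟩
      rintro s₁ ⟨h4, h5⟩
      rcases (mU j u s₁ hu h4).1 h5 with h6 | h6
      · exact h3 s₁ ⟨h4, h6⟩
      · omega
    · rcases Nat.lt_or_ge (κ.N j) (vb u) with h1 | h1
      · obtain ⟨h2, -⟩ := hch j u h hu
        refine ⟨ch j u, ⟨h2, (mU j u _ hu h2).2 (Or.inr ⟨h, h1, hle, rfl⟩)⟩, ?_⟩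
        rintro s₁ ⟨h4, h5⟩
        rcases (mU j u s₁ hu h4).1 h5 with h6 | h6
        · exact absurd h6 (κ.upn j u hu h1 s₁ h4)
        · exact h6.2.2.2
      · obtain ⟨s, ⟨h2, h3⟩, h4⟩ := κ.up j u hu h1
        refine ⟨s, ⟨h2, (mU j u s hu h2).2 (Or.inl h3)⟩, ?_⟩
        rintro s₁ ⟨h5, h6⟩
        rcases (mU j u s₁ hu h5).1 h6 with h7 | h7
        · exact h4 s₁ ⟨h5, h7⟩
        · omega
  · -- upn
    intro j u hu hlt s hs hmem'
    rcases (mU j u s hu hs).1 hmem' with h | h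
    · rcases Nat.lt_or_ge j t with h1 | h1
      · rw [hN1 _ h1] at hlt
        exact κ.upn j u hu hlt s hs h
      · have h2 := hN4 j h1
        exact κ.upn j u hu (by omega) s hs h
    · omega
  · -- rp
    intro j u hu hle
    rcases Nat.lt_or_ge j t with h | h
    · rw [hN1 _ h] at hle
      refine (κ.rp j u hu hle).trans (Nat.mul_le_mul_left _ ?_)
      refine Set.ncard_le_ncard ?_ ((finite_strings (P j)).subset fun s hs => hs.1)
      rintro s ⟨h1, h2⟩
      exact ⟨h1, (mR j u s hu h1).2 (Or.inl h2)⟩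
    · rcases Nat.lt_or_ge (κ.N j) (vb u) with h1 | h1
      · refine (ncard_good (P j) B (hB2 j h) (cR u) (fun s s' hs hs' he =>
          (cR_inj (by omega) (by omega) he).2)).trans (Nat.mul_le_mul_left _ ?_)
        refine Set.ncard_le_ncard ?_ ((finite_strings (P j)).subset fun s hs => hs.1)
        rintro s ⟨h2, h3⟩
        exact ⟨h2, (mR j u s hu h2).2 (Or.inr ⟨h, h1, hle, h3⟩)⟩
      · refine (κ.rp j u hu h1).trans (Nat.mul_le_mul_left _ ?_)
        refine Set.ncard_le_ncard ?_ ((finite_strings (P j)).subset fun s hs => hs.1)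
        rintro s ⟨h2, h3⟩
        exact ⟨h2, (mR j u s hu h2).2 (Or.inl h3)⟩
  · -- rpn
    intro j u hu hlt s hs hmem'
    rcases (mR j u s hu hs).1 hmem' with h | h
    · rcases Nat.lt_or_ge j t with h1 | h1
      · rw [hN1 _ h1] at hlt
        exact κ.rpn j u hu hlt s hs h
      · have h2 := hN4 j h1
        exact κ.rpn j u hu (by omega) s hs h
    · omega
  · intro n hn
    exact hF' n fun w hw h => by
      have := hlen w hw
      omega
  · intro w hw
    rw [hA']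
    constructor
    · rintro (h | h)
      · exact h
      · have := hlen w h
        omega
    · exact Or.inl

end Pool.Agent.LCB
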