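import Pool.Agent.LCB.Mach
import Pool.Agent.MP_92db0f_lc.Certs
import Pool.Agent.MP_92db0f_lc_alg.Final

/-!
The world in which nondeterministic exponential time with access to the oracle and its extension is
decided with a left cut that belongs to `UP` and to `RP`.
-/

set_option autoImplicit false

namespace Pool.Agent.LCB

open Turing Computability Lib.helper60 MP_92db0f_lc_alg
open MP_92db0f_lc hiding answers InNEXP
open MP_92db0f_lc_thr (cls cls_bounds PT_cls)

/-! ### padding -/

/-- the number of digits for the strings of length `n` -/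
def pn (n : ℕ) : ℕ := P (cls n)

lemma pn_eq (n : ℕ) : 20 * p2 (2 * (n + 1)) (cls n + 1) = pn n := by
  have h := (cls_bounds n).1
  have h1 : 2 ^ (cls n + 1) = 2 * 2 ^ cls n := by rw [pow_succ]; ring
  rw [p2_eq' (by omega)]
  rfl

lemma pn_le (n : ℕ) : pn n ≤ 40 * (n + 1) := by
  have h := (cls_bounds n).1
  have h1 : 2 ^ (cls n + 1) = 2 * 2 ^ cls n := by rw [pow_succ]; ring
  unfold pn P
  omega

lemma le_pn (n : ℕ) : n ≤ pn n := by
  have h := (cls_bounds n).2
  have h1 : 2 ^ (cls n + 1) = 2 * 2 ^ cls n := by rw [pow_succ]; ring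
  have h2 := le_P (cls n)
  unfold pn
  omega

lemma PT_pn {α : Type} [DEnc α] {n : α → ℕ} (hn : PT n) : PT (fun a => pn (n a)) :=
  (PT.nmul (PT.const 20) (PT_p2 (PT.nmul (PT.const 2) (PT.nsucc hn)) (PT.nsucc (PT_cls hn)))).congr
    fun a => pn_eq (n a)

/-- the string `v` with zeros appended -/
def pad (v : List Bool) : List Bool := v ++ List.replicate (pn v.length - v.length) false

lemma length_pad (v : List Bool) : (pad v).length = pn v.length := by
  have := le_pn v.length
  unfold pad
  rw [List.length_append, List.length_replicate]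
  omega

lemma point_pad' (v : List Bool) : point (pad v) = point v := point_pad v _

lemma PT_pad {α : Type} [DEnc α] {v : α → List Bool} (hv : PT v) : PT (fun a => pad (v a)) :=
  PT.append hv (PT.replicate (PT.nsub (PT_pn (PT.length hv)) (PT.length hv)) (PT.const false))

/-! ### the left cut in UP and in RP -/

variable {K : ℕ → Type} [∀ i, Field (K i)] {Y : Sys K}

lemma mem_cut (κ : Conf Y) {X : ℝ} (hX : ∀ (t : ℕ) (u : List Bool), u.length = P t →
    (point u ≤ X ↔ vb u ≤ κ.N t)) (v : List Bool) :
    v ∈ leftCut X ↔ vb (pad v) ≤ κ.N (cls v.length) := by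
  rw [← hX (cls v.length) (pad v) (length_pad v), point_pad']
  rfl

theorem inUP_cut (κ : Conf Y) {X : ℝ} (hX : ∀ (t : ℕ) (u : List Bool), u.length = P t →
    (point u ≤ X ↔ vb u ≤ κ.N t)) : InUP κ.σ.A (leftCut X) := by
  refine ⟨fun p => p.2.length = pn p.1.length ∧ cU (pad p.1) p.2 ∈ κ.σ.A,
    40 * (Polynomial.X + 1), ?_, ?_⟩
  · have h1 : PT (fun w : List Bool => unpair (unpair w).1) := PT_unpair.comp PT_unpair.p1
    refine ⟨fun z => cU (pad z.1.1) z.1.2, fun z => decide (z.1.2.length = pn z.1.1.length) &&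
      z.2.headD false, 1, ?_, ?_, ?_⟩
    · refine PT.toTM2 (F := fun w => cU (pad (unpair (unpair w).1).1) (unpair (unpair w).1).2) ?_ ?_
      · exact PT.cons (PT.const true) (PT.cons (PT.const true) (PT.append (PT_pad h1.p1) h1.p2))
      · intro a
        simp only [unpair_enc]
    · refine PT.decider (F := fun w => decide ((unpair (unpair w).1).2.length =
        pn (unpair (unpair w).1).1.length) && (unpair w).2.headD false) ?_ ?_
      · exact PT.band (PT.neq (PT.length h1.p2) (PT_pn (PT.length h1.p1)))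
          (PT.headD PT_unpair.p2 (PT.const false))
      · intro a
        simp only [unpair_enc]
    · rintro ⟨x, y⟩
      simp [answers]
  · intro v
    have hlen : pn v.length ≤ (40 * (Polynomial.X + 1) : Polynomial ℕ).eval v.length := by
      have := pn_le v.length
      simpa using this
    rw [mem_cut κ hX]
    refine ⟨⟨?_, ?_⟩, ?_⟩
    · intro h
      obtain ⟨s, ⟨h1, h2⟩, -⟩ := κ.up (cls v.length) (pad v) (length_pad v) h
      exact ⟨s, by rw [h1]; exact hlen, h1, h2⟩
    · rintro ⟨s, _, h1, h2⟩
      by_contra hlt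
      exact κ.upn (cls v.length) (pad v) (length_pad v) (not_le.1 hlt) s h1 h2
    · rintro s s' _ _ ⟨h1, h2⟩ ⟨h3, h4⟩
      by_cases h : vb (pad v) ≤ κ.N (cls v.length)
      · exact (κ.up (cls v.length) (pad v) (length_pad v) h).unique ⟨h1, h2⟩ ⟨h3, h4⟩
      · exact absurd h2 (κ.upn (cls v.length) (pad v) (length_pad v) (not_le.1 h) s h1)

/-- the strings whose first digits form a good string -/
lemma ncard_take (a c : ℕ) (G : List Bool → Prop) (h : 2 ^ a ≤
    2 * {s : List Bool | s.length = a ∧ G s}.ncard) :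
    2 ^ (a + c) ≤ 2 * {y : List Bool | y.length = a + c ∧ G (y.take a)}.ncard := by
  have h1 : ({s : List Bool | s.length = a ∧ G s} ×ˢ {w : List Bool | w.length = c}).ncard ≤
      {y : List Bool | y.length = a + c ∧ G (y.take a)}.ncard := by
    refine Set.ncard_le_ncard_of_injOn (fun p => p.1 ++ p.2) ?_ ?_
      ((finite_strings (a + c)).subset fun s hs => hs.1)
    · rintro ⟨s, w⟩ ⟨⟨h1, h2⟩, h3⟩
      have h3' : w.length = c := h3
      have h1' : s.length = a := h1
      refine ⟨by simp only [List.length_append]; omega, ?_⟩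
      dsimp only
      rw [List.take_append_of_le_length (by omega), List.take_of_length_le (by omega)]
      exact h2
    · rintro ⟨s, w⟩ ⟨⟨h1, h2⟩, h3⟩ ⟨s', w'⟩ ⟨⟨h1', h2'⟩, h3'⟩ he
      dsimp only at he h1 h1'
      obtain ⟨e1, e2⟩ := List.append_inj he (by omega)
      rw [e1, e2]
  rw [Set.ncard_prod, ncard_strings] at h1
  calc 2 ^ (a + c) = 2 ^ a * 2 ^ c := pow_add _ _ _
    _ ≤ 2 * {s : List Bool | s.length = a ∧ G s}.ncard * 2 ^ c := Nat.mul_le_mul_right _ h
    _ = 2 * ({s : List Bool | s.length = a ∧ G s}.ncard * 2 ^ c) := by ring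
    _ ≤ _ := Nat.mul_le_mul_left _ h1

theorem inRP_cut (κ : Conf Y) {X : ℝ} (hX : ∀ (t : ℕ) (u : List Bool), u.length = P t →
    (point u ≤ X ↔ vb u ≤ κ.N t)) : InRP κ.σ.A (leftCut X) := by
  refine ⟨fun p => cR (pad p.1) (p.2.take (pn p.1.length)) ∈ κ.σ.A,
    40 * (Polynomial.X + 1), ?_, ?_⟩
  · have h1 : PT (fun w : List Bool => unpair (unpair w).1) := PT_unpair.comp PT_unpair.p1
    refine ⟨fun z => cR (pad z.1.1) (z.1.2.take (pn z.1.1.length)), fun z => z.2.headD false, 1,
      ?_, ?_, ?_⟩
    · refine PT.toTM2 (F := fun w => cR (pad (unpair (unpair w).1).1)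
        ((unpair (unpair w).1).2.take (pn (unpair (unpair w).1).1.length))) ?_ ?_
      · exact PT.cons (PT.const true) (PT.cons (PT.const false) (PT.append (PT_pad h1.p1)
          (PT_take (PT_pn (PT.length h1.p1)) h1.p2)))
      · intro a
        simp only [unpair_enc]
    · refine PT.decider (F := fun w => (unpair w).2.headD false)
        (PT.headD PT_unpair.p2 (PT.const false)) ?_
      intro a
      simp only [unpair_enc]
    · rintro ⟨x, y⟩
      simp [answers]
  · intro v
    have hev : (40 * (Polynomial.X + 1) : Polynomial ℕ).eval v.length = 40 * (v.length + 1) := by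
      simp
    have hlen := pn_le v.length
    rw [mem_cut κ hX, hev]
    obtain ⟨c, hc⟩ := Nat.exists_eq_add_of_le hlen
    rw [hc]
    constructor
    · intro h
      exact ncard_take (pn v.length) c (fun s => cR (pad v) s ∈ κ.σ.A)
        (κ.rp (cls v.length) (pad v) (length_pad v) h)
    · intro h y hy
      refine κ.rpn (cls v.length) (pad v) (length_pad v) (not_le.1 h) (y.take (pn v.length)) ?_
      rw [List.length_take, hy, min_eq_left (Nat.le_add_right _ _)]
      rfl

/-! ### the decision procedure -/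

lemma Conf.N_lt (κ : Conf Y) (t : ℕ) : κ.N t < 2 ^ P t := by
  induction t with
  | zero => exact κ.zero
  | succ t ih =>
    have h := (κ.step_le t).2
    rw [P_succ, pow_add]
    have h1 : (κ.N t + 1) * 2 ^ (20 * 2 ^ (t + 1)) ≤ 2 ^ P t * 2 ^ (20 * 2 ^ (t + 1)) :=
      Nat.mul_le_mul_right _ ih
    omega

lemma vb_pad (u : List Bool) (k : ℕ) : vb (u ++ List.replicate k false) = vb u * 2 ^ k := by
  induction k with
  | zero => simp
  | succ k ih =>
    rw [List.replicate_succ', ← List.append_assoc, vb_append, ih, pow_succ]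
    simp only [Bool.toNat_false]
    ring

lemma answers_getD {α : Type} (O : Set (List Bool)) (q : α × List Bool → List Bool) (a : α)
    {j i : ℕ} (h : j < i) :
    (answers O q a i).getD j false = true ↔ q (a, answers O q a j) ∈ O := by
  classical
  induction i, h using Nat.le_induction with
  | base =>
    rw [answers, List.getD_append_right _ _ _ _ (by rw [answers_length]), answers_length,
      Nat.sub_self]
    simp
  | succ i hi ih =>
    rw [answers, List.getD_append _ _ _ _ (by rw [answers_length]; omega)]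
    exact ih

/-- the size of the input -/
def szx (κ b : ℕ) (x : List Bool) : ℕ := κ * (x.length ^ (b + 1) + 1)

/-- the number of digits -/
def dg (κ b : ℕ) (x : List Bool) : ℕ := P (cls (szx κ b x) + 1)

lemma dg_eq (κ b : ℕ) (x : List Bool) :
    20 * p2 (4 * (szx κ b x + 1)) (cls (szx κ b x) + 2) = dg κ b x := by
  have h := (cls_bounds (szx κ b x)).1
  have h1 : 2 ^ (cls (szx κ b x) + 2) = 4 * 2 ^ cls (szx κ b x) := by rw [pow_add]; ring
  rw [p2_eq' (by omega)]
  rfl

lemma dg_le (κ b : ℕ) (x : List Bool) : dg κ b x ≤ 80 * ((κ + 1) * (x.length ^ (b + 1) + 1)) := by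
  have h := (cls_bounds (szx κ b x)).1
  have h1 : 2 ^ (cls (szx κ b x) + 2) = 4 * 2 ^ cls (szx κ b x) := by rw [pow_add]; ring
  have h2 : szx κ b x + 1 ≤ (κ + 1) * (x.length ^ (b + 1) + 1) := by
    unfold szx
    rw [Nat.add_mul, one_mul]
    omega
  unfold dg P
  omega

/-- the next query -/
def qry (e κ b : ℕ) (z : List Bool × List Bool) : List Bool :=
  bif decide (z.2.length < dg κ b z.1) then true :: (z.2 ++ [true])
  else bif decide (z.2.length = dg κ b z.1) then false :: tabM z.2 (e, z.1) else []

lemma PT_dg {α : Type} [DEnc α] (κ b : ℕ) {x : α → List Bool} (hx : PT x) :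
    PT (fun a => dg κ b (x a)) := by
  have hs : PT (fun a => szx κ b (x a)) :=
    PT.nmul (PT.const κ) (PT.nsucc (PT_npow (PT.length hx) (b + 1)))
  exact (PT.nmul (PT.const 20) (PT_p2 (PT.nmul (PT.const 4) (PT.nsucc hs))
    (PT.nsucc (PT.nsucc (PT_cls hs))))).congr fun a => dg_eq κ b (x a)

lemma PT_qry {α : Type} [DEnc α] (e κ b : ℕ) {x v : α → List Bool} (hx : PT x) (hv : PT v) :
    PT (fun a => qry e κ b (x a, v a)) := by
  refine PT.cond (PT.nlt (PT.length hv) (PT_dg κ b hx)) (PT.cons (PT.const true)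
    (PT.append hv (PT.const [true]))) ?_
  refine PT.cond (PT.neq (PT.length hv) (PT_dg κ b hx)) ?_ (PT.const [])
  exact PT.cons (PT.const false) (PT.cons (PT.const false) (PT_encPair hv
    (PT_encPair (PT.const (List.replicate e true)) hx)))

lemma mem_join_true (A B : Set (List Bool)) (w : List Bool) : true :: w ∈ join A B ↔ w ∈ B := by
  constructor
  · rintro (⟨u, h, hu⟩ | ⟨u, h, hu⟩)
    · exact absurd h (by simp)
    · rw [List.cons.injEq] at h
      rw [h.2]
      exact hu
  · intro h
    exact Or.inr ⟨w, rfl, h⟩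

lemma mem_join_false (A B : Set (List Bool)) (w : List Bool) : false :: w ∈ join A B ↔ w ∈ A := by
  constructor
  · rintro (⟨u, h, hu⟩ | ⟨u, h, hu⟩)
    · rw [List.cons.injEq] at h
      rw [h.2]
      exact hu
    · exact absurd h (by simp)
  · intro h
    exact Or.inl ⟨w, rfl, h⟩

/-- **The world.** -/
theorem world {K : ℕ → Type} [∀ i, Field (K i)] (num : (i : ℕ) → K i → ℕ)
    (hnum : ∀ i, Function.Injective (num i)) :
    ∃ (Y : Sys K) (ζ : Conf Y) (X : ℝ), 0 ≤ X ∧ X < 1 ∧
      (∀ (t : ℕ) (u : List Bool), u.length = P t → (point u ≤ X ↔ vb u ≤ ζ.N t)) ∧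
      ∀ b, 1 ≤ b → ∀ L, InNTime b (join ζ.σ.A (extOracle num ζ.σ.F)) L →
        InPShort b (join ζ.σ.A (leftCut X)) L := by
  obtain ⟨g, hg⟩ := exists_surjective_nat (Mach × ℕ)
  obtain ⟨Y, κ, f, hlv, htab, hacc⟩ := exists_sysB num hnum g
  obtain ⟨ζ, hζ⟩ := exists_limit Y
  obtain ⟨X, hX0, hX1, hX⟩ := ζ.exists_real
  refine ⟨Y, ζ, X, hX0, hX1, hX, ?_⟩
  intro b₀ hb₀ L hL
  obtain ⟨b, rfl⟩ : ∃ b, b₀ = b + 1 := ⟨b₀ - 1, by omega⟩
  obtain ⟨μ, hμ⟩ := exists_machB hL
  obtain ⟨e, he⟩ := hg (μ, b)
  obtain ⟨k, hk⟩ : ∃ k, k = κ e := ⟨_, rfl⟩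
  have hx : PT (fun w : List Bool => (unpair w).1) := PT_unpair.p1
  have hv : PT (fun w : List Bool => (unpair w).2) := PT_unpair.p2
  obtain ⟨C, hC⟩ : ∃ C, C = 200 * (k + 1) + 2 * e + 20 := ⟨_, rfl⟩
  -- the constants
  have hcost : ∀ x : List Bool, 2 * dg k b x + 2 * e + x.length + 10 ≤
      C * (x.length ^ (b + 1) + 1) := by
    intro x
    have h1 := dg_le k b x
    have h2 : x.length ≤ x.length ^ (b + 1) := Nat.le_self_pow (by omega) _
    obtain ⟨N, hN⟩ : ∃ N, N = x.length ^ (b + 1) + 1 := ⟨_, rfl⟩
    rw [← hN] at h1 ⊢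
    have h3 : e ≤ e * N := Nat.le_mul_of_pos_right _ (by omega)
    have h4 : C * N = 200 * ((k + 1) * N) + 2 * (e * N) + 20 * N := by rw [hC]; ring
    rw [h4]
    omega
  refine ⟨qry e k b, fun z => z.2.getD (dg k b z.1) false, C, ?_, ?_, ?_⟩
  · refine PT.toTM2 (F := fun w => qry e k b ((unpair w).1, (unpair w).2)) (PT_qry e k b hx hv) ?_
    rintro ⟨x, v⟩
    rw [unpair_enc]
  · refine PT.decider (F := fun w => (unpair w).2.getD (dg k b (unpair w).1) false)
      (PT.getD hv (PT_dg k b hx) (PT.const false)) ?_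
    rintro ⟨x, v⟩
    rw [unpair_enc]
  · intro x
    have hc := hcost x
    obtain ⟨D, hD⟩ : ∃ D, D = dg k b x := ⟨_, rfl⟩
    rw [← hD] at hc
    obtain ⟨t, ht⟩ : ∃ t, t = cls (szx k b x) + 1 := ⟨_, rfl⟩
    have hDt : D = P t := by rw [hD, ht]; rfl
    have hlvt : Y.lv (f (e, x)) = t := by
      rw [hlv, ht]
      unfold sz szx
      dsimp only
      rw [he, hk]
    have hq1 : ∀ v : List Bool, v.length < D → qry e k b (x, v) = true :: (v ++ [true]) := by
      intro v hv
      unfold qry
      dsimp only
      rw [← hD, show decide (v.length < D) = true from decide_eq_true hv, cond_true]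
    have hq2 : ∀ v : List Bool, v.length = D → qry e k b (x, v) = false :: tabM v (e, x) := by
      intro v hv
      unfold qry
      dsimp only
      rw [← hD, show decide (v.length < D) = false from decide_eq_false (by omega), cond_false,
        show decide (v.length = D) = true from decide_eq_true hv, cond_true]
    have hq3 : ∀ v : List Bool, D < v.length → qry e k b (x, v) = [] := by
      intro v hv
      unfold qry
      dsimp only
      rw [← hD, show decide (v.length < D) = false from decide_eq_false (by omega), cond_false,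
        show decide (v.length = D) = false from decide_eq_false (by omega), cond_false]
    constructor
    · -- the decision
      dsimp only
      rw [← hD, answers_getD _ _ _ (by omega), hq2 _ (answers_length _ _ _ _), mem_join_false]
      have hs : vb (answers (join ζ.σ.A (leftCut X)) (qry e k b) x D) = ζ.N t := by
        apply search
        · rw [hDt]
          exact ζ.N_lt t
        · intro u hu
          rw [hq1 u hu, mem_join_true]
          have h1 : (u ++ [true] ++ List.replicate (D - u.length - 1) false).length = P t := by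
            simp only [List.length_append, List.length_replicate, List.length_singleton]
            omega
          have h2 := hX t _ h1
          rw [point_pad, vb_pad, vb_append] at h2
          exact h2
      have h3 := ζ.tab (f (e, x)) (answers (join ζ.σ.A (leftCut X)) (qry e k b) x D)
        (by rw [answers_length, hlvt, hDt]) (by rw [hs, hlvt])
      rw [htab] at h3
      rw [h3, hlvt, hs, ← hζ, hacc, hμ x]
      dsimp only
      rw [he]
      simp
      rfl
    · intro i hi
      rcases Nat.lt_trichotomy i D with h | h | h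
      · rw [hq1 _ (by rw [answers_length]; exact h)]
        simp only [List.length_cons, List.length_append, answers_length, List.length_nil]
        omega
      · rw [hq2 _ (by rw [answers_length]; exact h)]
        unfold tabM
        simp only [List.length_cons, length_encPair, answers_length, List.length_replicate]
        omega
      · rw [hq3 _ (by rw [answers_length]; exact h)]
        simp

/-- **The barrier.** -/
theorem left_cut_barrier {K : ℕ → Type} [∀ i, Field (K i)] (num : (i : ℕ) → K i → ℕ)
    (hnum : ∀ i, Function.Injective (num i)) :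
    ∃ (A : Set (List Bool)) (F : (n i : ℕ) → MvPolynomial (Fin n) (K i)) (X : ℝ),
      IsExtension A F ∧ InUP A (leftCut X) ∧ InRP A (leftCut X) ∧
      ∀ b, 1 ≤ b → ∀ L, InNTime b (join A (extOracle num F)) L →
        InPShort b (join A (leftCut X)) L := by
  obtain ⟨Y, ζ, X, -, -, hX, h⟩ := world num hnum
  exact ⟨ζ.σ.A, ζ.σ.F, X, ζ.σ.ext, inUP_cut ζ hX, inRP_cut ζ hX, h⟩

end Pool.Agent.LCB
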