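import Pool.Agent.LCB.Event

/-!
Legal configurations and the injury step.
-/

set_option autoImplicit false

namespace Pool.Agent.LCB

open MP_92db0f_lc_alg

variable {K : ℕ → Type} [∀ i, Field (K i)] {Y : Sys K}

/-- A legal configuration: the accepted requirements are accepted for good as long as the values at
the points of `Sf r` do not change. -/
structure LC (Y : Sys K) where
  κ : Conf Y
  Sf : Y.Req → Finset (Pt K)
  cert : ∀ r ∈ κ.s, (Sf r).card ≤ 2 ^ 2 ^ Y.lv r ∧ ∀ τ, Agree κ.σ τ (Sf r) → Y.acc τ r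

open Classical in
/-- the number of the accepted requirements of class `t` -/
noncomputable def LC.cnt (a : LC Y) (t : ℕ) : ℕ := ((Y.Rq t).filter fun r => r ∈ a.κ.s).card

/-- a step of class `t` -/
structure StepAt (t : ℕ) (a b : LC Y) : Prop where
  N : ∀ j < t, b.κ.N j = a.κ.N j
  s : ∀ r, Y.lv r < t → (r ∈ b.κ.s ↔ r ∈ a.κ.s)
  inc : a.cnt t < b.cnt t
  keep : ∀ r, Y.lv r ≤ t → r ∈ a.κ.s →
    r ∈ b.κ.s ∧ b.Sf r = a.Sf r ∧ Agree a.κ.σ b.κ.σ (a.Sf r)
  F : ∀ n < P t, b.κ.σ.F n = a.κ.σ.F n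
  A : ∀ w : List Bool, w.length < P t → (w ∈ b.κ.σ.A ↔ w ∈ a.κ.σ.A)

open Classical in
/-- A requirement that is accepted but not yet in the set of accepted requirements can act. -/
lemma LC.act (a : LC Y) (r₀ : Y.Req) (he : r₀ ∉ a.κ.s) (hacc : Y.acc a.κ.σ r₀) :
    ∃ b : LC Y, StepAt (Y.lv r₀) a b := by
  obtain ⟨t, ht⟩ : ∃ t, t = Y.lv r₀ := ⟨_, rfl⟩
  obtain ⟨M, hM⟩ : ∃ M, M = 2 ^ t := ⟨_, rfl⟩
  obtain ⟨S₀, hS₀c, hS₀⟩ := Y.use _ _ hacc
  rw [← ht] at hS₀c ⊢
  rw [← hM] at hS₀c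
  let S₁ : Finset (Pt K) := (Finset.range (t + 1)).biUnion fun j =>
    (Y.Rq j).biUnion fun r => if r ∈ a.κ.s then a.Sf r else ∅
  have hS₁ : ∀ r, Y.lv r ≤ t → r ∈ a.κ.s → a.Sf r ⊆ S₁ := by
    intro r hr ho p hp
    rw [Finset.mem_biUnion]
    refine ⟨Y.lv r, Finset.mem_range.2 (by omega), ?_⟩
    rw [Finset.mem_biUnion]
    exact ⟨r, (Y.mem_Rq _ _).2 rfl, by rw [if_pos ho]; exact hp⟩
  have hc1 : S₁.card ≤ (t + 1) * (2 ^ (2 * M + 2) * 2 ^ M) := by
    refine Finset.card_biUnion_le.trans ?_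
    have h1 : ∀ j ∈ Finset.range (t + 1),
        ((Y.Rq j).biUnion fun r => if r ∈ a.κ.s then a.Sf r else ∅).card ≤
          2 ^ (2 * M + 2) * 2 ^ M := by
      intro j hj
      rw [Finset.mem_range] at hj
      have hjM : 2 ^ j ≤ M := by
        rw [hM]
        exact Nat.pow_le_pow_right (by norm_num) (by omega)
      refine Finset.card_biUnion_le.trans ?_
      have h2 : ∀ r ∈ Y.Rq j, (if r ∈ a.κ.s then a.Sf r else ∅ : Finset (Pt K)).card ≤ 2 ^ M := by
        intro r hr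
        split_ifs with ho
        · refine (a.cert r ho).1.trans (Nat.pow_le_pow_right (by norm_num) ?_)
          rw [(Y.mem_Rq j r).1 hr]
          exact hjM
        · simp
      refine (Finset.sum_le_card_nsmul _ _ _ h2).trans ?_
      rw [smul_eq_mul]
      apply Nat.mul_le_mul_right
      exact (Y.card_Rq j).trans (Nat.pow_le_pow_right (by norm_num) (by omega))
    refine (Finset.sum_le_card_nsmul _ _ _ h1).trans ?_
    rw [smul_eq_mul, Finset.card_range]
  let S := S₀ ∪ S₁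
  have hS : S.card < 2 ^ (5 * M + 10) := by
    have h1 := Finset.card_union_le S₀ S₁
    have h2 : t + 1 ≤ 2 ^ M := by
      have h3 : t < 2 ^ t := Nat.lt_two_pow_self
      have h4 : M < 2 ^ M := Nat.lt_two_pow_self
      omega
    have h3 : (t + 1) * (2 ^ (2 * M + 2) * 2 ^ M) ≤ 2 ^ M * (2 ^ (2 * M + 2) * 2 ^ M) :=
      Nat.mul_le_mul_right _ h2
    have h4 : 2 ^ M * (2 ^ (2 * M + 2) * 2 ^ M) = 2 ^ (4 * M + 2) := by
      rw [← pow_add, ← pow_add]
      congr 1
      ring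
    have h5 : 2 ^ M ≤ 2 ^ (4 * M + 2) := Nat.pow_le_pow_right (by norm_num) (by omega)
    have h6 : 2 ^ (4 * M + 2) * 2 < 2 ^ (5 * M + 10) := by
      rw [← pow_succ]
      exact Nat.pow_lt_pow_right (by norm_num) (by omega)
    change (S₀ ∪ S₁).card < _
    omega
  obtain ⟨κ', h1, h2, h3, h4, h5⟩ := a.κ.event r₀ he S (by rw [← ht, ← hM]; exact hS)
  rw [← ht] at h1 h2 h4 h5
  have hmem : ∀ r, r ≠ r₀ → r ∈ κ'.s → Y.lv r ≤ t ∧ r ∈ a.κ.s := by
    intro r hne hr
    rcases (h2 r).1 hr with h | ⟨h, h' | h'⟩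
    · exact ⟨h.1.le, h.2⟩
    · exact ⟨h.le, h'⟩
    · exact absurd h' hne
  have hne' : ∀ r, r ∈ a.κ.s → r ≠ r₀ := by
    rintro r ho rfl
    exact he ho
  refine ⟨⟨κ', Function.update a.Sf r₀ S₀, ?_⟩, ⟨h1, ?_, ?_, ?_, h4, h5⟩⟩
  · intro r ho
    by_cases hr : r = r₀
    · subst hr
      rw [Function.update_self, ← ht, ← hM]
      exact ⟨hS₀c, fun τ hτ => hS₀ τ ((h3.mono Finset.subset_union_left).trans hτ)⟩
    · rw [Function.update_of_ne hr]
      obtain ⟨h6, h7⟩ := hmem r hr ho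
      have h8 := a.cert r h7
      exact ⟨h8.1, fun τ hτ => h8.2 τ ((h3.mono ((hS₁ r h6 h7).trans
        Finset.subset_union_right)).trans hτ)⟩
  · intro r hr
    dsimp only
    rw [h2]
    constructor
    · rintro (h | h)
      · exact h.2
      · omega
    · intro h
      exact Or.inl ⟨hr, h⟩
  · unfold LC.cnt
    dsimp only
    apply Finset.card_lt_card
    rw [Finset.ssubset_iff_of_subset]
    · refine ⟨r₀, Finset.mem_filter.2 ⟨(Y.mem_Rq _ _).2 ht.symm,
        (h2 r₀).2 (Or.inr ⟨ht.symm, Or.inr rfl⟩)⟩, ?_⟩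
      intro h6
      exact he (Finset.mem_filter.1 h6).2
    · intro r hr
      rw [Finset.mem_filter] at hr ⊢
      exact ⟨hr.1, (h2 r).2 (Or.inr ⟨(Y.mem_Rq t r).1 hr.1, Or.inl hr.2⟩)⟩
  · intro r hr ho
    refine ⟨?_, Function.update_of_ne (hne' r ho) _ _, h3.mono ((hS₁ r hr ho).trans
      Finset.subset_union_right)⟩
    dsimp only
    rw [h2]
    rcases Nat.lt_or_eq_of_le hr with h | h
    · exact Or.inl ⟨h, ho⟩
    · exact Or.inr ⟨h, Or.inl ho⟩

lemma vb_replicate_false (n : ℕ) : vb (List.replicate n false) = 0 := by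
  induction n with
  | zero => rfl
  | succ n ih =>
    rw [List.replicate_succ', vb_append, ih]
    rfl

open Classical in
/-- the initial configuration -/
lemma exists_init (Y : Sys K) : ∃ κ : Conf Y, κ.s = ∅ := by
  obtain ⟨B, hB, hadd⟩ := exists_add (K := K) ∅
  have hB0 : B = ∅ := by
    rw [Finset.card_empty, Nat.le_zero, Finset.card_eq_zero] at hB
    exact hB
  subst hB0
  let z : ℕ → List Bool := fun n => List.replicate n false
  have hz : ∀ n, (z n).length = n := fun n => List.length_replicate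
  obtain ⟨σ, hA, -, -⟩ := hadd (St.empty K)
    ({w | ∃ t, w = cU (z (P t)) (z (P t))} ∪
      {w | ∃ t, ∃ s : List Bool, s.length = P t ∧ w = cR (z (P t)) s})
    (fun w _ => ⟨Finset.notMem_empty _, Set.notMem_empty _⟩)
  have hmem : ∀ w, w ∈ σ.A ↔ (∃ t, w = cU (z (P t)) (z (P t))) ∨
      ∃ t, ∃ s : List Bool, s.length = P t ∧ w = cR (z (P t)) s := by
    intro w
    rw [hA]
    constructor
    · rintro (h | h | h)
      · exact absurd h (Set.notMem_empty _)
      · exact Or.inl h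
      · exact Or.inr h
    · rintro (h | h)
      · exact Or.inr (Or.inl h)
      · exact Or.inr (Or.inr h)
  have h0 : ∀ t (u : List Bool), u.length = P t → (vb u ≤ 0 ↔ u = z (P t)) := by
    intro t u hu
    constructor
    · intro h
      refine vb_inj (P t) u _ hu (hz _) ?_
      rw [vb_replicate_false]
      omega
    · rintro rfl
      rw [vb_replicate_false]
  have mU : ∀ t u s, u.length = P t → s.length = P t →
      (cU u s ∈ σ.A ↔ u = z (P t) ∧ s = z (P t)) := by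
    intro t u s hu hs
    rw [hmem]
    constructor
    · rintro (⟨t', h⟩ | ⟨t', s', -, h⟩)
      · obtain ⟨e1, e2⟩ := cU_inj (by omega) rfl h
        have e3 : P t = P t' := by rw [← hu, e1, hz]
        rw [e3]
        exact ⟨e1, e2⟩
      · exact absurd h (cU_ne_cR _ _ _ _)
    · rintro ⟨rfl, rfl⟩
      exact Or.inl ⟨t, rfl⟩
  have mR : ∀ t u s, u.length = P t → s.length = P t → (cR u s ∈ σ.A ↔ u = z (P t)) := by
    intro t u s hu hs
    rw [hmem]
    constructor
    · rintro (⟨t', h⟩ | ⟨t', s', h1, h⟩)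
      · exact absurd h.symm (cU_ne_cR _ _ _ _)
      · obtain ⟨e1, e2⟩ := cR_inj (by omega) (by rw [h1, hz]) h
        have e3 : P t = P t' := by rw [← hu, e1, hz]
        rw [e3]
        exact e1
    · rintro rfl
      exact Or.inr ⟨t, s, hs, rfl⟩
  refine ⟨⟨fun _ => 0, ∅, σ, by norm_num, fun t => Nat.zero_div _, fun t => by simp, ?_, ?_, ?_,
    ?_, ?_⟩, rfl⟩
  · intro r u hu _
    have h1 : Y.tab u r ∉ σ.A := by
      rw [hmem]
      rintro (⟨t', h⟩ | ⟨t', s', h1, h⟩)
      · exact Y.tab_ne_cU _ _ _ _ h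
      · exact Y.tab_ne_cR _ _ _ _ h
    exact ⟨fun h => absurd h h1, fun h => absurd h.2 (Set.notMem_empty _)⟩
  · intro t u hu hle
    have h1 := (h0 t u hu).1 hle
    refine ⟨z (P t), ⟨hz _, (mU t u _ hu (hz _)).2 ⟨h1, rfl⟩⟩, ?_⟩
    rintro s ⟨h2, h3⟩
    exact ((mU t u s hu h2).1 h3).2
  · intro t u hu hlt s hs hm
    have h1 := ((mU t u s hu hs).1 hm).1
    have h2 := (h0 t u hu).2 h1
    omega
  · intro t u hu hle
    have h1 := (h0 t u hu).1 hle
    have h2 : {s : List Bool | s.length = P t ∧ cR u s ∈ σ.A} = {s : List Bool | s.length = P t} := by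
      ext s
      constructor
      · exact fun h => h.1
      · intro h
        exact ⟨h, (mR t u s hu h).2 h1⟩
    rw [h2, ncard_strings]
    omega
  · intro t u hu hlt s hs hm
    have h1 := (mR t u s hu hs).1 hm
    have h2 := (h0 t u hu).2 h1
    omega

/-- the initial legal configuration -/
lemma exists_LC (Y : Sys K) : Nonempty (LC Y) := by
  obtain ⟨κ, hκ⟩ := exists_init Y
  exact ⟨⟨κ, fun _ => ∅, fun r hr => by rw [hκ] at hr; exact absurd hr (Set.notMem_empty _)⟩⟩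

end Pool.Agent.LCB
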