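import Pool.Agent.LCB.Legal

/-!
The limit oracle, by an extremal principle.
-/

set_option autoImplicit false

namespace Pool.Agent.LCB

open MP_92db0f_lc_alg

variable {K : ℕ → Type} [∀ i, Field (K i)] {Y : Sys K}

/-- `b` is obtained from `a` by steps -/
def Reach (a b : LC Y) : Prop := Relation.ReflTransGen (fun a b => ∃ t, StepAt t a b) a b

/-- no step of a class up to `t` is possible any more -/
def Stable (t : ℕ) (a : LC Y) : Prop := ∀ b, Reach a b → ∀ j ≤ t, ∀ d, ¬ StepAt j b d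

lemma Stable.reach {t : ℕ} {a b : LC Y} (h : Stable t a) (hab : Reach a b) : Stable t b :=
  fun d hd => h d (hab.trans hd)

lemma Stable.mono {t j : ℕ} {a : LC Y} (h : Stable t a) (hj : j ≤ t) : Stable j a :=
  fun d hd i hi => h d hd i (hi.trans hj)

/-- what does not change any more -/
lemma Stable.keep {t : ℕ} {a b : LC Y} (h : Stable t a) (hab : Reach a b) :
    (∀ j ≤ t, b.κ.N j = a.κ.N j) ∧
    (∀ r, Y.lv r ≤ t → ((r ∈ b.κ.s ↔ r ∈ a.κ.s) ∧
      (r ∈ a.κ.s → b.Sf r = a.Sf r ∧ Agree a.κ.σ b.κ.σ (a.Sf r)))) ∧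
    (∀ n < P t, b.κ.σ.F n = a.κ.σ.F n) ∧
    ∀ w : List Bool, w.length < P t → (w ∈ b.κ.σ.A ↔ w ∈ a.κ.σ.A) := by
  induction hab with
  | refl => exact ⟨fun _ _ => rfl, fun r _ => ⟨Iff.rfl, fun _ => ⟨rfl, Agree.refl _ _⟩⟩,
      fun _ _ => rfl, fun _ _ => Iff.rfl⟩
  | @tail b d hab hs ih =>
    obtain ⟨h0, h1, h2, h3⟩ := ih
    obtain ⟨j, hs⟩ := hs
    have hj : t < j := by
      by_contra hle
      exact h b hab j (by omega) d hs
    have hPj : P t ≤ P j := P_mono hj.le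
    refine ⟨fun i hi => (hs.N i (by omega)).trans (h0 i hi), fun r hr => ?_,
      fun n hn => (hs.F n (by omega)).trans (h2 n hn),
      fun w hw => (hs.A w (by omega)).trans (h3 w hw)⟩
    obtain ⟨h4, h5⟩ := h1 r hr
    refine ⟨(hs.s r (by omega)).trans h4, fun ho => ?_⟩
    obtain ⟨h6, h7⟩ := h5 ho
    obtain ⟨_, h8, h9⟩ := hs.keep r (by omega) (h4.2 ho)
    rw [h6] at h8 h9
    exact ⟨h8, h7.trans h9⟩

open Classical in
lemma LC.cnt_le (a : LC Y) (t : ℕ) : a.cnt t ≤ (Y.Rq t).card := by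
  unfold LC.cnt
  exact Finset.card_filter_le _ _

open Classical in
/-- without steps of smaller classes, the number of the accepted requirements does not decrease -/
lemma cnt_mono {t : ℕ} {a b : LC Y} (h : ∀ j < t, Stable j a) (hab : Reach a b) :
    a.cnt t ≤ b.cnt t := by
  induction hab with
  | refl => exact le_rfl
  | @tail b d hab hs ih =>
    obtain ⟨j, hs⟩ := hs
    refine ih.trans ?_
    have hj : t ≤ j := by
      by_contra hlt
      exact h j (by omega) b hab j le_rfl d hs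
    unfold LC.cnt
    apply Finset.card_le_card
    intro r hr
    rw [Finset.mem_filter] at hr ⊢
    refine ⟨hr.1, (hs.keep r ?_ hr.2).1⟩
    rw [(Y.mem_Rq t r).1 hr.1]
    exact hj

/-- maximal number of accepted requirements of the next class -/
lemma exists_stable (t : ℕ) (a : LC Y) (h : ∀ j < t, Stable j a) :
    ∃ b, Reach a b ∧ Stable t b := by
  classical
  let Q : ℕ → Prop := fun n => ∃ b, Reach a b ∧ b.cnt t = n
  have hb : ∀ n, Q n → n ≤ (Y.Rq t).card := by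
    rintro n ⟨b, _, rfl⟩
    exact b.cnt_le t
  obtain ⟨b, hab, hbt⟩ : Q (Nat.findGreatest Q (Y.Rq t).card) :=
    Nat.findGreatest_spec (hb (a.cnt t) ⟨a, Relation.ReflTransGen.refl, rfl⟩)
      ⟨a, Relation.ReflTransGen.refl, rfl⟩
  refine ⟨b, hab, ?_⟩
  intro d hbd j hj e he
  rcases Nat.lt_or_ge j t with hlt | hge
  · exact h j hlt d (hab.trans hbd) j le_rfl e he
  · have hjt : j = t := le_antisymm hj hge
    subst hjt
    have h1 : Q (e.cnt j) := ⟨e, (hab.trans hbd).tail ⟨j, he⟩, rfl⟩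
    have h2 := Nat.le_findGreatest (hb _ h1) h1
    have h3 : b.cnt j ≤ d.cnt j := cnt_mono (fun i hi => (h i hi).reach hab) hbd
    have h4 := he.inc
    omega

/-- the sequence of configurations -/
lemma exists_seq (Y : Sys K) : ∃ f : ℕ → LC Y, (∀ t, Stable t (f t)) ∧
    ∀ s t, s ≤ t → Reach (f s) (f t) := by
  obtain ⟨i⟩ := exists_LC Y
  obtain ⟨a₀, -, h₀⟩ := exists_stable 0 i (fun j hj => absurd hj (by omega))
  have hstep : ∀ (t : ℕ) (a : {a : LC Y // Stable t a}),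
      ∃ b : {b : LC Y // Stable (t + 1) b}, Reach a.1 b.1 := by
    rintro t ⟨a, ha⟩
    obtain ⟨b, hb, hb'⟩ := exists_stable (t + 1) a (fun j hj => ha.mono (by omega))
    exact ⟨⟨b, hb'⟩, hb⟩
  choose g hg using hstep
  let f : (t : ℕ) → {a : LC Y // Stable t a} := fun t =>
    Nat.rec (motive := fun t => {a : LC Y // Stable t a}) ⟨a₀, h₀⟩ g t
  refine ⟨fun t => (f t).1, fun t => (f t).2, ?_⟩
  intro s t hst
  induction t, hst using Nat.le_induction with
  | base => exact Relation.ReflTransGen.refl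
  | succ t _ ih => exact ih.trans (hg t (f t))

/-- **The limit.** -/
theorem exists_limit (Y : Sys K) : ∃ κ : Conf Y, ∀ r, Y.acc κ.σ r ↔ r ∈ κ.s := by
  classical
  obtain ⟨f, hf, hr⟩ := exists_seq Y
  -- stability
  have hN : ∀ j M, j ≤ M → (f M).κ.N j = (f j).κ.N j := fun j M hM =>
    ((hf j).keep (hr _ _ hM)).1 j le_rfl
  have hs : ∀ r M, Y.lv r ≤ M → (r ∈ (f M).κ.s ↔ r ∈ (f (Y.lv r)).κ.s) := fun r M hM =>
    (((hf (Y.lv r)).keep (hr _ _ hM)).2.1 r le_rfl).1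
  have hF : ∀ n M, n ≤ M → (f M).κ.σ.F n = (f n).κ.σ.F n := fun n M hM =>
    ((hf n).keep (hr _ _ hM)).2.2.1 n (lt_P n)
  have hA : ∀ (w : List Bool) M, w.length ≤ M → (w ∈ (f M).κ.σ.A ↔ w ∈ (f w.length).κ.σ.A) :=
    fun w M hM => ((hf w.length).keep (hr _ _ hM)).2.2.2 w (lt_P _)
  obtain ⟨σ, hσA, hσF⟩ : ∃ σ : St K, (∀ w, w ∈ σ.A ↔ w ∈ (f w.length).κ.σ.A) ∧
      ∀ n, σ.F n = (f n).κ.σ.F n :=
    ⟨{ A := {w | w ∈ (f w.length).κ.σ.A}
       F := fun n => (f n).κ.σ.F n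
       ext :=
        { degree := fun n i j => (f n).κ.σ.ext.degree n i j
          value := fun n i x => by
            rw [(f n).κ.σ.ext.value n i x]
            simp only [Set.mem_ofPred_eq, List.length_ofFn] } }, fun _ => Iff.rfl, fun _ => rfl⟩
  have hσM : ∀ (w : List Bool) M, w.length ≤ M → (w ∈ σ.A ↔ w ∈ (f M).κ.σ.A) := fun w M hM =>
    (hσA w).trans (hA w M hM).symm
  have hval : ∀ (p : Pt K) M, p.1 ≤ M → σ.val p = (f M).κ.σ.val p := by
    intro p M hM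
    unfold St.val
    rw [hσF, hF p.1 M hM]
  obtain ⟨s, hsm⟩ : ∃ s : Set Y.Req, ∀ r, r ∈ s ↔ r ∈ (f (Y.lv r)).κ.s :=
    ⟨{r | r ∈ (f (Y.lv r)).κ.s}, fun _ => Iff.rfl⟩
  have hsM : ∀ r M, Y.lv r ≤ M → (r ∈ s ↔ r ∈ (f M).κ.s) := fun r M hM =>
    (hsm r).trans (hs r M hM).symm
  have lenU : ∀ (u s : List Bool), (cU u s).length = 2 + u.length + s.length := by
    intro u s
    simp only [cU, List.length_cons, List.length_append]
    omega
  have lenR : ∀ (u s : List Bool), (cR u s).length = 2 + u.length + s.length := by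
    intro u s
    simp only [cR, List.length_cons, List.length_append]
    omega
  refine ⟨⟨fun t => (f t).κ.N t, s, σ, (f 0).κ.zero, ?_, ?_, ?_, ?_, ?_, ?_, ?_⟩, ?_⟩
  · intro t
    rw [(f (t + 1)).κ.step t, hN t (t + 1) (by omega)]
  · intro t
    refine ((f t).κ.dig t).trans (le_of_eq ?_)
    congr 2
    apply Finset.filter_congr
    intro r hr'
    rw [hsM r t (by rw [(Y.mem_Rq t r).1 hr'])]
  · intro r u hu hle
    obtain ⟨M, hM⟩ : ∃ M, M = Y.lv r + (Y.tab u r).length := ⟨_, rfl⟩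
    rw [← hN (Y.lv r) M (by omega)] at hle ⊢
    rw [hσM _ M (by omega), hsM r M (by omega)]
    exact (f M).κ.tab r u hu hle
  · intro t u hu hle
    obtain ⟨M, hM⟩ : ∃ M, M = t + (2 + P t + P t) := ⟨_, rfl⟩
    rw [← hN t M (by omega)] at hle
    obtain ⟨s₁, ⟨h1, h2⟩, h3⟩ := (f M).κ.up t u hu hle
    refine ⟨s₁, ⟨h1, (hσM _ M (by rw [lenU]; omega)).2 h2⟩, ?_⟩
    rintro s₂ ⟨h4, h5⟩
    exact h3 s₂ ⟨h4, (hσM _ M (by rw [lenU]; omega)).1 h5⟩
  · intro t u hu hlt s₁ hs₁ hm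
    obtain ⟨M, hM⟩ : ∃ M, M = t + (2 + P t + P t) := ⟨_, rfl⟩
    rw [← hN t M (by omega)] at hlt
    exact (f M).κ.upn t u hu hlt s₁ hs₁ ((hσM _ M (by rw [lenU]; omega)).1 hm)
  · intro t u hu hle
    obtain ⟨M, hM⟩ : ∃ M, M = t + (2 + P t + P t) := ⟨_, rfl⟩
    rw [← hN t M (by omega)] at hle
    refine ((f M).κ.rp t u hu hle).trans (le_of_eq ?_)
    congr 2
    ext s₁
    constructor
    · rintro ⟨h1, h2⟩
      exact ⟨h1, (hσM _ M (by rw [lenR]; omega)).2 h2⟩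
    · rintro ⟨h1, h2⟩
      exact ⟨h1, (hσM _ M (by rw [lenR]; omega)).1 h2⟩
  · intro t u hu hlt s₁ hs₁ hm
    obtain ⟨M, hM⟩ : ∃ M, M = t + (2 + P t + P t) := ⟨_, rfl⟩
    rw [← hN t M (by omega)] at hlt
    exact (f M).κ.rpn t u hu hlt s₁ hs₁ ((hσM _ M (by rw [lenR]; omega)).1 hm)
  · intro r
    constructor
    · intro hacc
      by_contra ho
      obtain ⟨S, -, hS⟩ := Y.use σ r hacc
      obtain ⟨M, hM⟩ : ∃ M, M = Y.lv r + S.sup fun p => p.1 := ⟨_, rfl⟩
      have hag : Agree σ (f M).κ.σ S := by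
        intro p hp
        apply hval
        have := Finset.le_sup (f := fun p : Pt K => p.1) hp
        omega
      have h1 := hS _ hag
      have h2 : r ∉ (f M).κ.s := fun h => ho ((hsM r M (by omega)).2 h)
      obtain ⟨b, hb⟩ := (f M).act r h2 h1
      exact hf M (f M) Relation.ReflTransGen.refl (Y.lv r) (by omega) b hb
    · intro ho
      have ho' := (hsm r).1 ho
      have h1 := (f (Y.lv r)).cert r ho'
      apply h1.2
      intro p hp
      have h2 := (((hf (Y.lv r)).keep (hr (Y.lv r) (Y.lv r + p.1) (by omega))).2.1 r le_rfl).2 ho'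
      rw [hval p (Y.lv r + p.1) (by omega)]
      exact h2.2 p hp

end Pool.Agent.LCB
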