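import Pool.Agent.LCB.Real
import Pool.Agent.MP_92db0f_lc_alg.Machines
import Pool.Agent.MP_92db0f_lc_thr.Growth

/-!
The nondeterministic machines with time `2 ^ O(n ^ b)` and access to the oracle and its extension,
as a system of requirements.
-/

set_option autoImplicit false

namespace Pool.Agent.LCB

open Turing Computability Lib.helper60 MP_92db0f_lc_alg
open MP_92db0f_lc hiding answers InNEXP
open MP_92db0f_lc_thr (cls cls_bounds PT_cls)

/-- the machine accepts `x`, with certificates of length `2 ^ (k * (|x| ^ b + 1))` -/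
def AccB (b : ℕ) (μ : Mach) (O : Set (List Bool)) (x : List Bool) : Prop :=
  ∃ y : List Bool, y.length ≤ 2 ^ (μ.2.2.2 * (x.length ^ b + 1)) ∧ μ.Acc1 O x y

/-- every language in `NTIME(2 ^ O(n ^ b))` is accepted by a machine -/
lemma exists_machB {b : ℕ} {O L : Set (List Bool)} (h : InNTime b O L) :
    ∃ μ : Mach, ∀ x, x ∈ L ↔ AccB b μ O x := by
  obtain ⟨k, R, ⟨q, d, P, ⟨hq⟩, ⟨hd⟩, hR⟩, hL⟩ := h
  obtain ⟨φ, T, hs⟩ := exists_table hq
  obtain ⟨φ', T', hs'⟩ := exists_table hd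
  refine ⟨((φ, T), (φ', T'), P, k), fun x => ?_⟩
  rw [hL x]
  refine exists_congr fun y => and_congr_right fun _ => ?_
  rw [hR (x, y)]
  unfold Mach.Acc1
  have h1 : ∀ v, q ((x, y), v) = Mach.q ((φ, T), (φ', T'), P, k) (encPair (x, y), v) := by
    intro v
    exact (hs.strFun ((x, y), v)).symm
  have h2 : ∀ v, d ((x, y), v) = Mach.d ((φ, T), (φ', T'), P, k) (encPair (x, y), v) := by
    intro v
    have h3 := hs'.strFun ((x, y), v)
    unfold Mach.d
    dsimp only at h3 ⊢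
    rw [h3]
    rfl
  rw [h2, answers_congr O q _ (x, y) (encPair (x, y)) h1]

/-- the level bounds the logarithm of the number of queries -/
lemma exists_levelB (μ : Mach) (b e : ℕ) (hb : 1 ≤ b) : ∃ κ, e + 1 ≤ κ ∧ ∀ n : ℕ,
    μ.2.2.1.eval (2 * n + 2 + 2 ^ (μ.2.2.2 * (n ^ b + 1))) ≤ 2 ^ (κ * (n ^ b + 1)) := by
  obtain ⟨⟨φ, T⟩, ⟨φ', T'⟩, P, k⟩ := μ
  dsimp only
  obtain ⟨a, ha⟩ : ∃ a, a = P.eval 1 := ⟨_, rfl⟩
  obtain ⟨g, hg⟩ : ∃ g, g = P.natDegree := ⟨_, rfl⟩
  refine ⟨e + 1 + a + (2 + k) * g, by omega, fun n => ?_⟩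
  obtain ⟨N, hN⟩ : ∃ N, N = n ^ b + 1 := ⟨_, rfl⟩
  have hn : n ≤ n ^ b := Nat.le_self_pow (by omega) n
  rw [← hN]
  have h1 : 2 * n + 2 + 2 ^ (k * N) ≤ 2 ^ (2 * n + 2 + k * N) := by
    have h2 : 2 * n + 2 + 1 ≤ 2 ^ (2 * n + 2) := Nat.lt_two_pow_self
    have h3 : 1 ≤ 2 ^ (k * N) := Nat.one_le_two_pow
    rw [pow_add 2 (2 * n + 2)]
    nlinarith
  have h2 : P.eval (2 * n + 2 + 2 ^ (k * N)) ≤ a * (2 ^ (2 * n + 2 + k * N)) ^ g := by
    refine (evalMono P h1).trans ?_
    have h3 := alg_eval_mul_le P 1 (2 ^ (2 * n + 2 + k * N)) Nat.one_le_two_pow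
    rw [one_mul] at h3
    rw [ha, hg]
    exact h3
  refine h2.trans ?_
  have h3 : a ≤ 2 ^ a := Nat.lt_two_pow_self.le
  rw [← pow_mul]
  refine (Nat.mul_le_mul_right _ h3).trans ?_
  rw [← pow_add]
  apply Nat.pow_le_pow_right (by norm_num)
  have h4 : 2 * n + 2 + k * N ≤ (2 + k) * N := by
    rw [Nat.add_mul]
    omega
  have h5 : (2 * n + 2 + k * N) * g ≤ (2 + k) * N * g := Nat.mul_le_mul_right _ h4
  have h6 : a ≤ a * N := Nat.le_mul_of_pos_right _ (by omega)
  have h7 : (e + 1 + a + (2 + k) * g) * N = (e + 1) * N + a * N + (2 + k) * N * g := by ring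
  rw [h7]
  omega

/-- the table entry of the requirement `(e, x)` at the address `u` -/
def tabM (u : List Bool) (r : ℕ × List Bool) : List Bool :=
  false :: encPair (u, encPair (List.replicate r.1 true, r.2))

lemma tabM_inj {u u' : List Bool} {r r' : ℕ × List Bool} (h : tabM u r = tabM u' r') :
    u = u' ∧ r = r' := by
  unfold tabM at h
  have h0 : encPair (u, encPair (List.replicate r.1 true, r.2)) =
      encPair (u', encPair (List.replicate r'.1 true, r'.2)) := by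
    simpa using h
  have h1 := encPair_inj h0
  rw [Prod.mk.injEq] at h1
  have h2 := encPair_inj h1.2
  rw [Prod.mk.injEq] at h2
  have h4 : r.1 = r'.1 := by
    have := congrArg List.length h2.1
    simpa using this
  exact ⟨h1.1, Prod.ext h4 h2.2⟩

/-- the size of the requirement `(e, x)` -/
def sz (κ : ℕ → ℕ) (β : ℕ → ℕ) (r : ℕ × List Bool) : ℕ :=
  κ r.1 * (r.2.length ^ (β r.1 + 1) + 1)

/-- **The system of requirements.** -/
theorem exists_sysB {K : ℕ → Type} [∀ i, Field (K i)] (num : (i : ℕ) → K i → ℕ)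
    (hnum : ∀ i, Function.Injective (num i)) (g : ℕ → Mach × ℕ) :
    ∃ (Y : Sys K) (κ : ℕ → ℕ) (f : ℕ × List Bool → Y.Req),
      (∀ r, Y.lv (f r) = cls (sz κ (fun e => (g e).2) r) + 1) ∧
      (∀ u r, Y.tab u (f r) = tabM u r) ∧
      (∀ σ r, Y.acc σ (f r) ↔ AccB ((g r.1).2 + 1) (g r.1).1 (orc num σ) r.2) := by
  classical
  have hκ := fun e => exists_levelB (g e).1 ((g e).2 + 1) e (by omega)
  choose κ hκ1 hκ2 using hκ
  obtain ⟨s, hs⟩ : ∃ s : ℕ × List Bool → ℕ, s = sz κ (fun e => (g e).2) := ⟨_, rfl⟩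
  have hsv : ∀ e x, s (e, x) = κ e * (x.length ^ ((g e).2 + 1) + 1) := by
    intro e x
    rw [hs]
    rfl
  have hlv : ∀ e x, e ≤ s (e, x) ∧ x.length ≤ s (e, x) := by
    intro e x
    have h1 := hκ1 e
    have h2 : x.length ≤ x.length ^ ((g e).2 + 1) := Nat.le_self_pow (by omega) _
    have h3 : κ e ≤ κ e * (x.length ^ ((g e).2 + 1) + 1) := Nat.le_mul_of_pos_right _ (by omega)
    have h4 : x.length ^ ((g e).2 + 1) + 1 ≤ κ e * (x.length ^ ((g e).2 + 1) + 1) :=
      Nat.le_mul_of_pos_left _ (by omega)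
    rw [hsv]
    omega
  choose Z hZ hZ' using exists_short
  refine ⟨{ Req := ℕ × List Bool
            lv := fun r => cls (s r) + 1
            Rq := fun t => ((Finset.range (2 ^ t)) ×ˢ Z (2 ^ t)).filter fun r => cls (s r) + 1 = t
            mem_Rq := ?_
            card_Rq := ?_
            tab := tabM
            tab_inj := fun u r u' r' h => tabM_inj h
            tab_len := ?_
            tab_head := fun u r => ⟨_, rfl⟩
            acc := fun σ r => AccB ((g r.1).2 + 1) (g r.1).1 (orc num σ) r.2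
            use := ?_ }, κ, id, fun r => congrArg (fun h : ℕ × List Bool → ℕ => cls (h r) + 1) hs,
            fun u r => rfl, fun σ r => Iff.rfl⟩
  · rintro t ⟨e, x⟩
    rw [Finset.mem_filter, Finset.mem_product, Finset.mem_range]
    constructor
    · exact fun h => h.2
    · intro h
      obtain ⟨h1, h2⟩ := hlv e x
      have h3 := (cls_bounds (s (e, x))).2
      rw [h] at h3
      exact ⟨⟨by dsimp only; omega, hZ' (2 ^ t) x (by omega)⟩, h⟩
  · intro t
    refine (Finset.card_filter_le _ _).trans ?_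
    rw [Finset.card_product, Finset.card_range]
    have h1 : 2 ^ t ≤ 2 ^ 2 ^ t := Nat.lt_two_pow_self.le
    calc 2 ^ t * (Z (2 ^ t)).card ≤ 2 ^ 2 ^ t * 2 ^ (2 ^ t + 1) := Nat.mul_le_mul h1 (hZ _)
      _ = 2 ^ (2 * 2 ^ t + 1) := by rw [← pow_add]; congr 1; ring
      _ ≤ 2 ^ (2 * 2 ^ t + 2) := Nat.pow_le_pow_right (by norm_num) (by omega)
  · rintro u ⟨e, x⟩
    unfold tabM
    rw [List.length_cons, length_encPair]
    dsimp only
    omega
  · rintro σ ⟨e, x⟩ ⟨y, hy, hacc⟩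
    obtain ⟨S, hS, h⟩ := answers_pts num hnum (g e).1.q (encPair (x, y)) σ
      ((g e).1.2.2.1.eval (encPair (x, y)).length)
    refine ⟨S, hS.trans ?_, fun τ hτ => ⟨y, hy, ?_⟩⟩
    · refine le_trans (le_trans (evalMono _ ?_) (hκ2 e x.length)) ?_
      · rw [length_encPair]
        dsimp only at hy
        omega
      · apply Nat.pow_le_pow_right (by norm_num)
        have h3 := (cls_bounds (s (e, x))).2
        rw [← hsv e x]
        omega
    · unfold Mach.Acc1 at hacc ⊢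
      rw [← h τ hτ _ le_rfl]
      exact hacc

end Pool.Agent.LCB
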