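import Pool.Agent.LCB.Limit

/-!
The real number whose binary digits are coded by a configuration.
-/

set_option autoImplicit false

namespace Pool.Agent.LCB

open MP_92db0f_lc_alg

lemma point_append (u : List Bool) (b : Bool) :
    point (u ++ [b]) = point u + (if b then 1 else 0) / 2 ^ (u.length + 1) := by
  induction u with
  | nil => simp [point]
  | cons c u ih =>
    rw [List.cons_append, point, point, ih, List.length_cons, pow_succ 2 (u.length + 1)]
    ring

lemma point_eq (u : List Bool) : point u = (vb u : ℝ) / 2 ^ u.length := by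
  induction u using List.reverseRecOn with
  | nil => simp [point]
  | append_singleton u b ih =>
    rw [point_append, ih, vb_append, List.length_append, List.length_singleton, pow_succ]
    have h : (0 : ℝ) < 2 ^ u.length := by positivity
    cases b
    · simp only [Bool.toNat_false, Nat.cast_add, Nat.cast_mul]
      field_simp
      simp
    · simp only [Bool.toNat_true, Nat.cast_add, Nat.cast_mul]
      field_simp
      push_cast
      simp

lemma point_pad (u : List Bool) (k : ℕ) : point (u ++ List.replicate k false) = point u := by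
  induction k with
  | zero => simp
  | succ k ih =>
    rw [List.replicate_succ', ← List.append_assoc, point_append, ih]
    simp

variable {K : ℕ → Type} [∀ i, Field (K i)] {Y : Sys K}

/-- the next digits -/
lemma Conf.step_le (κ : Conf Y) (t : ℕ) :
    κ.N t * 2 ^ (20 * 2 ^ (t + 1)) ≤ κ.N (t + 1) ∧
      κ.N (t + 1) + 1 < (κ.N t + 1) * 2 ^ (20 * 2 ^ (t + 1)) := by
  have h1 := κ.step t
  have h2 := Nat.div_add_mod (κ.N (t + 1)) (2 ^ (20 * 2 ^ (t + 1)))
  have h3 := κ.dig_lt (t + 1)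
  rw [h1] at h2
  rw [Nat.add_mul, one_mul, Nat.mul_comm (κ.N t)]
  omega

/-- **The real number.** -/
theorem Conf.exists_real (κ : Conf Y) : ∃ x : ℝ, 0 ≤ x ∧ x < 1 ∧
    ∀ (t : ℕ) (u : List Bool), u.length = P t → (point u ≤ x ↔ vb u ≤ κ.N t) := by
  have hP : ∀ t, (2 : ℝ) ^ P (t + 1) = 2 ^ P t * 2 ^ (20 * 2 ^ (t + 1)) := by
    intro t
    rw [P_succ, pow_add]
  have hlow : Monotone fun t => (κ.N t : ℝ) / 2 ^ P t := by
    apply monotone_nat_of_le_succ
    intro t
    have h1 := (κ.step_le t).1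
    have h2 : (κ.N t : ℝ) * 2 ^ (20 * 2 ^ (t + 1)) ≤ κ.N (t + 1) := by exact_mod_cast h1
    rw [div_le_div_iff₀ (by positivity) (by positivity), hP]
    have h3 : (0 : ℝ) < 2 ^ P t := by positivity
    nlinarith
  have hupp : Antitone fun t => ((κ.N t : ℝ) + 1) / 2 ^ P t := by
    apply antitone_nat_of_succ_le
    intro t
    have h1 := (κ.step_le t).2
    have h2 : (κ.N (t + 1) : ℝ) + 1 < (κ.N t + 1) * 2 ^ (20 * 2 ^ (t + 1)) := by exact_mod_cast h1
    rw [div_le_div_iff₀ (by positivity) (by positivity), hP]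
    have h3 : (0 : ℝ) < 2 ^ P t := by positivity
    nlinarith
  have hlu : ∀ s t, (κ.N s : ℝ) / 2 ^ P s ≤ ((κ.N t : ℝ) + 1) / 2 ^ P t := by
    intro s t
    have h1 := hlow (le_max_left s t)
    have h2 := hupp (le_max_right s t)
    dsimp only at h1 h2
    refine h1.trans (le_trans ?_ h2)
    apply div_le_div_of_nonneg_right _ (by positivity)
    linarith
  have hbdd : BddAbove (Set.range fun t => (κ.N t : ℝ) / 2 ^ P t) := by
    refine ⟨((κ.N 0 : ℝ) + 1) / 2 ^ P 0, ?_⟩
    rintro _ ⟨t, rfl⟩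
    exact hlu t 0
  refine ⟨⨆ t, (κ.N t : ℝ) / 2 ^ P t, ?_, ?_, ?_⟩
  · exact le_trans (by positivity) (le_ciSup hbdd 0)
  · refine lt_of_le_of_lt (ciSup_le fun s => hlu s 1) ?_
    have h1 := (κ.step_le 0).2
    have h2 := κ.zero
    have h3 : P 1 = 20 + 20 * 2 ^ 1 := by rw [P_succ]; rfl
    have h4 : (κ.N 0 + 1) * 2 ^ (20 * 2 ^ (0 + 1)) ≤ 2 ^ P 1 := by
      rw [h3, pow_add]
      exact Nat.mul_le_mul_right _ h2
    have h5 : κ.N 1 + 1 < 2 ^ P 1 := lt_of_lt_of_le h1 h4
    rw [div_lt_one (by positivity)]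
    exact_mod_cast h5
  intro t u hu
  rw [point_eq, hu]
  constructor
  · intro h
    by_contra hlt
    have h1 : (κ.N t : ℝ) + 1 ≤ vb u := by exact_mod_cast (not_le.1 hlt)
    have h2 : (⨆ s, (κ.N s : ℝ) / 2 ^ P s) ≤ ((κ.N (t + 1) : ℝ) + 1) / 2 ^ P (t + 1) :=
      ciSup_le fun s => hlu s (t + 1)
    have h3 := (κ.step_le t).2
    have h4 : (κ.N (t + 1) : ℝ) + 1 < (κ.N t + 1) * 2 ^ (20 * 2 ^ (t + 1)) := by exact_mod_cast h3
    have h5 : ((κ.N (t + 1) : ℝ) + 1) / 2 ^ P (t + 1) < ((κ.N t : ℝ) + 1) / 2 ^ P t := by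
      rw [div_lt_div_iff₀ (by positivity) (by positivity), hP]
      have h6 : (0 : ℝ) < 2 ^ P t := by positivity
      nlinarith
    have h7 : ((κ.N t : ℝ) + 1) / 2 ^ P t ≤ (vb u : ℝ) / 2 ^ P t :=
      div_le_div_of_nonneg_right h1 (by positivity)
    linarith
  · intro h
    refine le_trans ?_ (le_ciSup hbdd t)
    apply div_le_div_of_nonneg_right _ (by positivity)
    exact_mod_cast h

end Pool.Agent.LCB
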