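import Pool.Agent.LCB.RelHier
import Pool.Agent.LCB.RelDefs
import Pool.Agent.MP_92db0f_lc_thr.Nodes

/-!
Exhaustive search: oracles in `NP` are decided in exponential time.
-/

set_option autoImplicit false
set_option linter.unusedSectionVars false

namespace Pool.Agent.LCB

open Lib.helper60 Function Turing Computability
open MP_92db0f_lc hiding answers InNEXP mkC length_mkC PT_mkC answers_take length_answers
open MP_92db0f_lc_alg (answers PolyTime InNEXP join)
open MP_92db0f_lc_mul (mem_join_false mem_join_true mem_join_nil)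
open MP_92db0f_lc_gold (OPT Meas pbMeas natPB gen length_gen length_answers answers_take)
open MP_92db0f_lc_thr (PT_of_TM2 PT_of_TM2' PT_encz PT_encPair')

section

variable {α : Type} [DEnc α] {O : Set (List Bool)}

/-- predicates decided in polynomial time with an oracle -/
lemma OPT_of_polyTime {enc : α → List Bool} (he : PT enc) {R : α → Prop}
    (h : PolyTime enc O R) : ∃ f : α → Bool, OPT O f ∧ ∀ a, R a ↔ f a = true := by
  obtain ⟨q, d, P, hq, hd, hR⟩ := h
  have h1 : PT (fun z : α × List Bool => encPair (enc z.1, z.2)) :=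
    PT_encPair (he.comp PT.fst) PT.snd
  exact ⟨fun a => d (a, answers O q a (P.eval (enc a).length)),
    ⟨q, d, fun a => P.eval (enc a).length, PT_of_TM2 h1 hq, PT_of_TM2' h1 hd,
      PT_peval P (PT.length he), fun _ => rfl⟩, hR⟩

lemma OPT_cond {c : α → Bool} {f g : α → Bool} (hc : PT c) (hf : OPT O f) (hg : OPT O g) :
    OPT O (fun a => bif c a then f a else g a) :=
  ((OPT.of_PT hc).pair (hf.pair hg)).map (h := fun p : Bool × (Bool × Bool) =>
    bif p.1 then p.2.1 else p.2.2) (PT.cond PT.fst PT.snd.p1 PT.snd.p2)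

open Classical in
lemma OPT_mem' {w : α → List Bool} (hw : PT w) : OPT O (fun a => decide (w a ∈ O)) := by
  refine ⟨fun z => w z.1, fun z => z.2.headD false, fun _ => 1, hw.comp PT.fst,
    PT.headD PT.snd (PT.const false), PT.const 1, fun a => ?_⟩
  simp [answers]

end

/-! ### exhaustive search -/

/-- exhaustive search for a certificate among the first `z.2` strings -/
def srch (r : List Bool × List Bool → Bool) (p : Polynomial ℕ) (z : List Bool × ℕ) : Bool :=
  (List.range z.2).any fun j => decide ((str j).length ≤ p.eval z.1.length) && r (z.1, str j)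

lemma OPT_srch {O : Set (List Bool)} {r : List Bool × List Bool → Bool} (hr : OPT O r)
    (p : Polynomial ℕ) : OPT O (srch r p) := by
  unfold srch
  refine MP_92db0f_lc_gold.OPT.any (p := fun z : (List Bool × ℕ) × ℕ =>
    decide ((str z.2).length ≤ p.eval z.1.1.length) && r (z.1.1, str z.2)) ?_ PT.snd
  exact (OPT.of_PT (PT.nle (PT.length (PT_str PT.snd)) (PT_peval p (PT.length PT.fst.p1)))).band
    (hr.comp_PT (PT.pair PT.fst.p1 (PT_str PT.snd)))

/-- the set `S` is in `NP` relative to an oracle, by the verifier `r` and the bound `p` -/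
def IsCert (S : Set (List Bool)) (r : List Bool × List Bool → Bool) (p : Polynomial ℕ) : Prop :=
  ∀ Q : List Bool, Q ∈ S ↔ ∃ y : List Bool, y.length ≤ p.eval Q.length ∧ r (Q, y) = true

lemma exists_cert {O S : Set (List Bool)} (h : InNP O S) :
    ∃ (r : List Bool × List Bool → Bool) (p : Polynomial ℕ), OPT O r ∧ IsCert S r p := by
  obtain ⟨R, p, hR, hS⟩ := h
  obtain ⟨r, hr, hRr⟩ := OPT_of_polyTime PT_encPair' hR
  exact ⟨r, p, hr, fun Q => by rw [hS]; simp only [hRr]⟩

lemma srch_iff {S : Set (List Bool)} {r : List Bool × List Bool → Bool} {p : Polynomial ℕ}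
    (hS : IsCert S r p) {Q : List Bool} {N : ℕ} (h : 2 ^ (p.eval Q.length + 1) ≤ N + 1) :
    srch r p (Q, N) = true ↔ Q ∈ S := by
  unfold srch
  rw [List.any_eq_true, hS Q]
  constructor
  · rintro ⟨j, -, hj⟩
    rw [Bool.and_eq_true, decide_eq_true_eq] at hj
    exact ⟨str j, hj⟩
  · rintro ⟨y, h1, h2⟩
    refine ⟨vl y, ?_, ?_⟩
    · rw [List.mem_range]
      have h3 := vl_lt y
      have h4 : 2 ^ (y.length + 1) ≤ 2 ^ (p.eval Q.length + 1) :=
        Nat.pow_le_pow_right (by norm_num) (by omega)
      dsimp only
      omega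
    · rw [Bool.and_eq_true, decide_eq_true_eq, str_vl]
      exact ⟨h1, h2⟩

open Classical in
/-- the answer of the oracle `O` in the place of the queries that begin with `00` -/
noncomputable def ansO (O : Set (List Bool)) (w : List Bool) : Bool :=
  decide (2 ≤ w.length) && decide (w.tail.tail ∈ O)

/-- the answer to a query, by exhaustive search -/
noncomputable def ansB (O : Set (List Bool)) (rS rT : List Bool × List Bool → Bool)
    (pS pT : Polynomial ℕ) (z : List Bool × ℕ) : Bool :=
  bif z.1.headD false then srch rT pT (z.1.tail, z.2)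
  else bif z.1.tail.headD false then srch rS pS (z.1.tail.tail, z.2)
  else ansO O z.1

section

variable {O S T : Set (List Bool)} {rS rT : List Bool × List Bool → Bool} {pS pT : Polynomial ℕ}

lemma OPT_ansO {α : Type} [DEnc α] {w : α → List Bool} (hw : PT w) :
    OPT O (fun a => ansO O (w a)) := by
  unfold ansO
  exact (OPT.of_PT (PT.nle (PT.const 2) (PT.length hw))).band (OPT_mem' (PT.tail (PT.tail hw)))

lemma OPT_ansB (hS : OPT O rS) (hT : OPT O rT) : OPT O (ansB O rS rT pS pT) := by
  unfold ansB
  refine OPT_cond (PT.headD PT.fst (PT.const false))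
    ((OPT_srch hT pT).comp_PT (PT.pair (PT.tail PT.fst) PT.snd))
    (OPT_cond (PT.headD (PT.tail PT.fst) (PT.const false))
      ((OPT_srch hS pS).comp_PT (PT.pair (PT.tail (PT.tail PT.fst)) PT.snd)) (OPT_ansO PT.fst))

open Classical in
lemma ansO_eq {w : List Bool} (h1 : w.headD false = false) (h2 : w.tail.headD false = false) :
    ansO O w = decide (w ∈ join (join O S) T) := by
  unfold ansO
  rw [Bool.eq_iff_iff, Bool.and_eq_true, decide_eq_true_iff, decide_eq_true_iff,
    decide_eq_true_iff]
  rcases w with _ | ⟨b, w⟩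
  · have h3 := mem_join_nil (join O S) T
    simp [h3]
  · have hb : b = false := h1
    subst hb
    rw [mem_join_false]
    rcases w with _ | ⟨b, w⟩
    · have h3 := mem_join_nil O S
      simp [h3]
    · have hb : b = false := h2
      subst hb
      rw [mem_join_false]
      simp

open Classical in
lemma ansB_eq (hS : IsCert S rS pS) (hT : IsCert T rT pT) {w : List Bool} {N : ℕ}
    (h1 : ∀ Q, w = true :: Q → 2 ^ (pT.eval Q.length + 1) ≤ N + 1)
    (h2 : ∀ Q, w = false :: true :: Q → 2 ^ (pS.eval Q.length + 1) ≤ N + 1) :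
    ansB O rS rT pS pT (w, N) = decide (w ∈ join (join O S) T) := by
  unfold ansB
  dsimp only
  rcases w with _ | ⟨b, w⟩
  · exact ansO_eq (w := []) rfl rfl
  · cases b with
    | true =>
      rw [List.headD_cons, cond_true, List.tail_cons, Bool.eq_iff_iff, decide_eq_true_iff,
        mem_join_true]
      exact srch_iff hT (h1 w rfl)
    | false =>
      rw [List.headD_cons, cond_false, List.tail_cons]
      rcases w with _ | ⟨b, w⟩
      · exact ansO_eq (w := [false]) rfl rfl
      · cases b with
        | true =>
          rw [List.headD_cons, cond_true, List.tail_cons, Bool.eq_iff_iff, decide_eq_true_iff,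
            mem_join_false, mem_join_true]
          exact srch_iff hS (h2 w rfl)
        | false =>
          rw [List.headD_cons, cond_false]
          exact ansO_eq (w := false :: false :: w) rfl rfl

end

/-! ### bounds -/

lemma poly_le_pow (P : Polynomial ℕ) : ∃ e C : ℕ, 1 ≤ C ∧ 1 ≤ e ∧
    ∀ n, P.eval n ≤ (n + C) ^ e := by
  refine ⟨P.natDegree + 1, P.eval 1 + 1, by omega, by omega, fun n => ?_⟩
  obtain ⟨v, hv⟩ : ∃ v, v = n + (P.eval 1 + 1) := ⟨_, rfl⟩
  rw [← hv]
  have h1 := MP_92db0f_lc.eval_mul_le P 1 v (by omega)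
  rw [one_mul] at h1
  have h2 : P.eval n ≤ P.eval v := evalMono P (by omega)
  calc P.eval n ≤ P.eval 1 * v ^ P.natDegree := h2.trans h1
    _ ≤ v * v ^ P.natDegree := Nat.mul_le_mul_right _ (by omega)
    _ = v ^ (P.natDegree + 1) := by rw [pow_succ, Nat.mul_comm]

/-- the length of the queries -/
lemma query_bound {q : (List Bool × List Bool) × List Bool → List Bool} (hq : PT q) :
    ∃ B : Polynomial ℕ, ∀ x a v : List Bool, ∀ n, x.length + a.length + v.length ≤ n →
      (q ((x, a), v)).length ≤ B.eval n := by
  obtain ⟨B, hB⟩ := pbMeas (α := (List Bool × List Bool) × List Bool) hq.size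
  refine ⟨B.comp (Polynomial.X + 4), fun x a v n h => ?_⟩
  have h1 := hB ((x, a), v) (n + 4) (by
    have h2 : Meas.m ((x, a), v) = x.length + a.length + 2 + v.length + 2 := rfl
    rw [h2]
    omega)
  have h2 : (B.comp (Polynomial.X + 4)).eval n = B.eval (n + 4) := by
    simp [Polynomial.eval_comp]
  rw [h2]
  exact (length_le_tsize _).trans h1

/-- **Exhaustive search.** -/
theorem ear_of_few {O S T L : Set (List Bool)} {c : ℕ} (hS : InNP O S) (hT : InNP O T)
    (hL : InPFew c (join O S) T L) : ∃ e, InEAR O e L := by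
  classical
  obtain ⟨rS, pS, hrS, hS⟩ := exists_cert hS
  obtain ⟨rT, pT, hrT, hT⟩ := exists_cert hT
  obtain ⟨q, d, α, P, C, hq, hd, hα, hx⟩ := hL
  have hq := PT_of_TM2 PT_encz hq
  have hd := PT_of_TM2' PT_encz hd
  obtain ⟨B, hB⟩ := query_bound hq
  obtain ⟨Pi₀, hPi⟩ : ∃ Pi₀ : Polynomial ℕ, ∀ n, Pi₀.eval n =
      pS.eval (B.eval (n + (n ^ c + C) + P.eval n)) +
      pT.eval (B.eval (n + (n ^ c + C) + P.eval n)) + 1 + (n ^ c + C) := by
    refine ⟨pS.comp (B.comp (Polynomial.X + (Polynomial.X ^ c + Polynomial.C C) + P)) +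
      pT.comp (B.comp (Polynomial.X + (Polynomial.X ^ c + Polynomial.C C) + P)) + 1 +
      (Polynomial.X ^ c + Polynomial.C C), fun n => ?_⟩
    simp [Polynomial.eval_comp]
  obtain ⟨e, C', hC', -, hle⟩ := poly_le_pow Pi₀
  refine ⟨e, fun w => d ((w.1, w.2.1), gen (fun y : (List Bool × (List Bool × ℕ)) × List Bool =>
    ansB O rS rT pS pT (q ((y.1.1, y.1.2.1), y.2), y.1.2.2)) w (P.eval w.1.length)),
    α, C', ?_, ?_, ?_⟩
  · have h1 : OPT O (fun y : (List Bool × (List Bool × ℕ)) × List Bool =>
        ansB O rS rT pS pT (q ((y.1.1, y.1.2.1), y.2), y.1.2.2)) :=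
      (OPT_ansB hrS hrT).comp_PT (PT.pair (hq.comp (PT.pair (PT.pair PT.fst.p1 PT.fst.p2.p1)
        PT.snd)) PT.fst.p2.p2)
    have h2 := (OPT.gen h1).comp_PT (h := fun w : List Bool × (List Bool × ℕ) =>
      (w, P.eval w.1.length)) (PT.pair PT.id (PT_peval P (PT.length PT.fst)))
    exact ((OPT.of_PT PT.id).pair h2).map (h := fun p : (List Bool × (List Bool × ℕ)) ×
      List Bool => d ((p.1.1, p.1.2.1), p.2)) (hd.comp (PT.pair (PT.pair PT.fst.p1 PT.fst.p2.p1)
        PT.snd))
  · intro n
    have h1 := hle n
    have h2 := hα n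
    rw [hPi] at h1
    omega
  · intro x N hN
    rw [(hx x).2]
    dsimp only
    have key : ∀ i ≤ P.eval x.length, gen (fun y : (List Bool × (List Bool × ℕ)) × List Bool =>
        ansB O rS rT pS pT (q ((y.1.1, y.1.2.1), y.2), y.1.2.2)) (x, (α x.length, N)) i =
        answers (join (join O S) T) q (x, α x.length) i := by
      intro i
      induction i with
      | zero => intro _; rfl
      | succ i ih =>
        intro hi
        rw [gen, ih (by omega), answers]
        congr 2
        dsimp only
        have hlen := hB x (α x.length) (answers (join (join O S) T) q (x, α x.length) i)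
          (x.length + (x.length ^ c + C) + P.eval x.length) (by
            rw [length_answers]
            have := hα x.length
            omega)
        have h1 := hle x.length
        rw [hPi] at h1
        have hbig : ∀ m, m ≤ (x.length + C') ^ e → 2 ^ m ≤ N + 1 := by
          intro m hm
          have h3 : 2 ^ m ≤ 2 ^ ((x.length + C') ^ e) := Nat.pow_le_pow_right (by norm_num) hm
          omega
        apply ansB_eq hS hT
        · intro Q hQ
          apply hbig
          rw [hQ, List.length_cons] at hlen
          have h2 : pT.eval Q.length ≤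
              pT.eval (B.eval (x.length + (x.length ^ c + C) + P.eval x.length)) :=
            evalMono pT (by omega)
          omega
        · intro Q hQ
          apply hbig
          rw [hQ, List.length_cons, List.length_cons] at hlen
          have h2 : pS.eval Q.length ≤
              pS.eval (B.eval (x.length + (x.length ^ c + C) + P.eval x.length)) :=
            evalMono pS (by omega)
          omega
    rw [key _ le_rfl]

end Pool.Agent.LCB
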