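import Pool.Agent.LCB.RelBrute

/-!
An `NP` set whose complement has short proofs with few bits of advice carries little information:
the census of the refuted advice strings.
-/

set_option autoImplicit false

namespace Pool.Agent.LCB

open Turing Computability Lib.helper60
open MP_92db0f_lc hiding answers InNEXP mkC length_mkC PT_mkC answers_take length_answers
open MP_92db0f_lc_alg (answers PolyTime InNEXP join)
open MP_92db0f_lc_gold (OPT Meas pbMeas natPB gen length_gen length_answers answers_take)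
open MP_92db0f_lc_thr (nthC mkC nthC_mkC length_mkC PT_nthC PT_of_TM2 PT_of_TM2' PT_encz)

/-! ### refuted advice strings -/

section

variable (R V : (List Bool × List Bool) × List Bool → Bool) (pR : Polynomial ℕ)

/-- the certificate `z.2` refutes the advice string in `z.1` -/
def rft (m : ℕ) (z : List Bool × List Bool) : Bool :=
  decide (z.1 = encPair (List.replicate (unpair z.2).1.length true, (unpair z.1).2)) &&
  ((decide ((unpair (unpair z.2).2).1.length ≤ pR.eval (unpair z.2).1.length) &&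
    R (((unpair z.2).1, []), (unpair (unpair z.2).2).1)) &&
  (decide ((unpair (unpair z.2).2).2.length - 1 ≤ p2 (unpair (unpair z.2).2).2.length m) &&
    V (((unpair z.2).1, (unpair z.1).2), (unpair (unpair z.2).2).2)))

/-- the set of the refuted advice strings -/
def Ref (m : ℕ) : Set (List Bool) := {z | ∃ y : List Bool, rft R V pR m (z, y) = true}

lemma le_p2 (l m : ℕ) : l - 1 ≤ p2 l m ↔ l ≤ 2 ^ m := by
  rw [p2_eq]
  have : 1 ≤ 2 ^ m := Nat.one_le_two_pow
  omega

lemma rft_spec {m : ℕ} {z y : List Bool} (h : rft R V pR m (z, y) = true) :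
    ∃ Q α : List Bool, z = encPair (List.replicate Q.length true, α) ∧
      (∃ w : List Bool, w.length ≤ pR.eval Q.length ∧ R ((Q, []), w) = true) ∧
      ∃ w : List Bool, w.length ≤ 2 ^ m ∧ V ((Q, α), w) = true := by
  unfold rft at h
  simp only [Bool.and_eq_true, decide_eq_true_eq] at h
  obtain ⟨h1, ⟨h2, h3⟩, h4, h5⟩ := h
  exact ⟨(unpair y).1, (unpair z).2, h1, ⟨_, h2, h3⟩, ⟨_, (le_p2 _ _).1 h4, h5⟩⟩

lemma rft_intro {m : ℕ} {Q α w₁ w₂ : List Bool} (h1 : w₁.length ≤ pR.eval Q.length)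
    (h2 : R ((Q, []), w₁) = true) (h3 : w₂.length ≤ 2 ^ m) (h4 : V ((Q, α), w₂) = true) :
    rft R V pR m (encPair (List.replicate Q.length true, α), encPair (Q, encPair (w₁, w₂))) =
      true := by
  unfold rft
  simp only [unpair_enc, Bool.and_eq_true, decide_eq_true_eq]
  exact ⟨trivial, ⟨h1, h2⟩, (le_p2 _ _).2 h3, h4⟩

/-- short certificates -/
lemma Ref_short {m M : ℕ} {z : List Bool} (hz : z ∈ Ref R V pR m) (hM : z.length ≤ M) :
    ∃ y : List Bool, y.length ≤ 2 * M + 2 + (2 * pR.eval M + 2 + 2 ^ m) ∧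
      rft R V pR m (z, y) = true := by
  obtain ⟨y, hy⟩ := hz
  obtain ⟨Q, α, h1, ⟨w₁, h2, h3⟩, w₂, h4, h5⟩ := rft_spec R V pR hy
  refine ⟨encPair (Q, encPair (w₁, w₂)), ?_, ?_⟩
  · rw [h1, length_encPair, List.length_replicate] at hM
    have h6 := evalMono pR (show Q.length ≤ M by omega)
    dsimp only at h6
    rw [length_encPair, length_encPair]
    omega
  · rw [h1]
    exact rft_intro R V pR h2 h3 h4 h5

/-- the refuted advice strings of bounded length -/
def DE (M m : ℕ) : Set (List Bool) :=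
  {z | z ∈ Ref R V pR m ∧ z.length ≤ M ∧ (unpair z).2.length ≤ m}

lemma DE_finite (M m : ℕ) : (DE R V pR M m).Finite :=
  (List.finite_length_le Bool M).subset fun _ hz => hz.2.1

/-- the check of a list of refuted advice strings -/
def chkE (M m t : ℕ) (y : List Bool) : Bool :=
  decide (t ≤ y.length) && ((List.range t).all fun j =>
    (rft R V pR m (unpair (nthC y j)) && (decide ((unpair (nthC y j)).1.length ≤ M) &&
      decide ((unpair (unpair (nthC y j)).1).2.length ≤ m))) &&
    (List.range j).all fun i => !decide ((unpair (nthC y i)).1 = (unpair (nthC y j)).1))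

lemma chkE_iff {M m t : ℕ} {y : List Bool} : chkE R V pR M m t y = true ↔ t ≤ y.length ∧
    ∀ j < t, (rft R V pR m (unpair (nthC y j)) = true ∧ (unpair (nthC y j)).1.length ≤ M ∧
      (unpair (unpair (nthC y j)).1).2.length ≤ m) ∧
      ∀ i < j, (unpair (nthC y i)).1 ≠ (unpair (nthC y j)).1 := by
  unfold chkE
  simp only [Bool.and_eq_true, decide_eq_true_eq, List.all_eq_true, List.mem_range,
    Bool.not_eq_true', decide_eq_false_iff_not, ne_eq]

lemma chkE_sound {M m t : ℕ} {y : List Bool} (h : chkE R V pR M m t y = true) :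
    ∀ j < t, (unpair (nthC y j)).1 ∈ DE R V pR M m := by
  rw [chkE_iff] at h
  intro j hj
  obtain ⟨⟨h1, h2, h3⟩, -⟩ := h.2 j hj
  exact ⟨⟨_, h1⟩, h2, h3⟩

lemma chkE_complete {M m : ℕ} {y : List Bool}
    (h : chkE R V pR M m (DE R V pR M m).ncard y = true) :
    ∀ z ∈ DE R V pR M m, ∃ j < (DE R V pR M m).ncard, (unpair (nthC y j)).1 = z := by
  classical
  have hs := chkE_sound R V pR h
  rw [chkE_iff] at h
  obtain ⟨f, hf⟩ : ∃ f : ℕ → List Bool, f = fun j => (unpair (nthC y j)).1 := ⟨_, rfl⟩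
  have hinj : Set.InjOn f (Finset.range (DE R V pR M m).ncard : Set ℕ) := by
    intro i hi j hj hij
    rw [Finset.mem_coe, Finset.mem_range] at hi hj
    rw [hf] at hij
    rcases lt_trichotomy i j with h2 | h2 | h2
    · exact absurd hij ((h.2 j hj).2 i h2)
    · exact h2
    · exact absurd hij.symm ((h.2 i hi).2 j h2)
  have hsub : ((Finset.range (DE R V pR M m).ncard).image f : Set (List Bool)) ⊆
      DE R V pR M m := by
    intro z hz
    rw [Finset.coe_image] at hz
    obtain ⟨j, hj, rfl⟩ := hz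
    rw [Finset.mem_coe, Finset.mem_range] at hj
    rw [hf]
    exact hs j hj
  have hcard : ((Finset.range (DE R V pR M m).ncard).image f).card = (DE R V pR M m).ncard := by
    rw [Finset.card_image_of_injOn hinj, Finset.card_range]
  have heq := Set.eq_of_subset_of_ncard_le hsub (by rw [Set.ncard_coe_finset, hcard])
    (DE_finite R V pR M m)
  intro z hz
  rw [← heq, Finset.coe_image] at hz
  obtain ⟨j, hj, rfl⟩ := hz
  rw [Finset.mem_coe, Finset.mem_range] at hj
  exact ⟨j, hj, by rw [hf]⟩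

lemma exists_chkE (M m : ℕ) : ∃ y : List Bool, y.length ≤ (DE R V pR M m).ncard *
    (2 * (2 * M + 2 + (2 * M + 2 + (2 * pR.eval M + 2 + 2 ^ m))) + 2) ∧
    chkE R V pR M m (DE R V pR M m).ncard y = true := by
  classical
  have hfin := DE_finite R V pR M m
  obtain ⟨l, hl⟩ : ∃ l, l = hfin.toFinset.toList := ⟨_, rfl⟩
  obtain ⟨D, hD⟩ : ∃ D, D = (DE R V pR M m).ncard := ⟨_, rfl⟩
  have hlen : l.length = D := by
    rw [hl, Finset.length_toList, hD, Set.ncard_eq_toFinset_card _ hfin]
  have hmem' : ∀ z ∈ l, z ∈ DE R V pR M m := by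
    intro z hz
    rw [hl, Finset.mem_toList, Set.Finite.mem_toFinset] at hz
    exact hz
  have hmem : ∀ j < D, l.getD j [] ∈ DE R V pR M m := by
    intro j hj
    rw [List.getD_eq_getElem _ _ (by omega)]
    exact hmem' _ (List.getElem_mem _)
  have hnodup : l.Nodup := by rw [hl]; exact Finset.nodup_toList _
  have hex : ∀ j, ∃ w : List Bool, w.length ≤ 2 * M + 2 + (2 * pR.eval M + 2 + 2 ^ m) ∧
      (j < D → rft R V pR m (l.getD j [], w) = true) := by
    intro j
    by_cases hj : j < D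
    · obtain ⟨w, h1, h2⟩ := Ref_short R V pR (hmem j hj).1 (hmem j hj).2.1
      exact ⟨w, h1, fun _ => h2⟩
    · exact ⟨[], by simp, fun h => absurd h hj⟩
  choose w hw1 hw2 using hex
  rw [← hD]
  have hnth : ∀ j < D, nthC (mkC (fun j => encPair (l.getD j [], w j)) D) j =
      encPair (l.getD j [], w j) := fun j hj => nthC_mkC D _ j hj
  have hlen2 := length_mkC D (fun j => encPair (l.getD j [], w j))
  refine ⟨mkC (fun j => encPair (l.getD j [], w j)) D, ?_, ?_⟩
  · rw [hlen2]
    have h1 := Finset.sum_le_card_nsmul (Finset.range D)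
      (fun j => 2 * (encPair (l.getD j [], w j)).length + 2)
      (2 * (2 * M + 2 + (2 * M + 2 + (2 * pR.eval M + 2 + 2 ^ m))) + 2) (fun j hj => by
        have h2 := hw1 j
        have h3 := (hmem j (Finset.mem_range.1 hj)).2.1
        rw [length_encPair]
        omega)
    rw [Finset.card_range, smul_eq_mul] at h1
    exact h1
  · rw [chkE_iff]
    refine ⟨?_, ?_⟩
    · rw [hlen2]
      have h1 := Finset.card_nsmul_le_sum (Finset.range D)
        (fun j => 2 * (encPair (l.getD j [], w j)).length + 2) 1 (fun j _ => by omega)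
      rw [Finset.card_range, smul_eq_mul, mul_one] at h1
      exact h1
    · intro j hj
      rw [hnth j hj, unpair_enc]
      refine ⟨⟨hw2 j hj, (hmem j hj).2⟩, ?_⟩
      intro i hi
      rw [hnth i (by omega), unpair_enc]
      dsimp only
      rw [List.getD_eq_getElem _ _ (by omega), List.getD_eq_getElem _ _ (by omega)]
      intro h8
      have := (List.Nodup.getElem_inj_iff hnodup).mp h8
      omega

/-- the test of one answer -/
def tst (m : ℕ) (Q y e : List Bool) (t : ℕ) (b : Bool) : Bool :=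
  bif b then decide (e.length ≤ pR.eval Q.length) && R ((Q, []), e)
  else (decide ((unpair e).2.length - 1 ≤ p2 (unpair e).2.length m) &&
      V ((Q, (unpair e).1), (unpair e).2)) &&
    (decide ((unpair e).1.length ≤ m) && (List.range t).all fun j =>
      !decide ((unpair (nthC y j)).1 = encPair (List.replicate Q.length true, (unpair e).1)))

end

/-! ### polynomial time with an oracle -/

section

variable {O : Set (List Bool)} {R V : (List Bool × List Bool) × List Bool → Bool}
  (pR : Polynomial ℕ)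

lemma OPT_rft (hR : OPT O R) (hV : OPT O V) {α : Type} [DEnc α] [Meas α] {m : α → ℕ}
    {z : α → List Bool × List Bool} (hm : PT m) (hz : PT z) :
    OPT O (fun a => rft R V pR (m a) (z a)) := by
  unfold rft
  have u1 : PT (fun a => unpair (z a).1) := PT_unpair.comp hz.p1
  have u2 : PT (fun a => unpair (z a).2) := PT_unpair.comp hz.p2
  have u3 : PT (fun a => unpair (unpair (z a).2).2) := PT_unpair.comp u2.p2
  refine (OPT.of_PT (PT_leq hz.p1 (PT_encPair (PT.replicate (PT.length u2.p1) (PT.const true))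
    u1.p2))).band (((OPT.of_PT (PT.nle (PT.length u3.p1) (PT_peval pR (PT.length u2.p1)))).band
      ?_).band ((OPT.of_PT (PT.nle (PT.npred (PT.length u3.p2)) (PT_p2 (PT.length u3.p2) hm))).band
      ?_))
  · exact hR.comp_PT (PT.pair (PT.pair u2.p1 (PT.const [])) u3.p1)
  · exact hV.comp_PT (PT.pair (PT.pair u2.p1 u1.p2) u3.p2)

lemma OPT_chkE (hR : OPT O R) (hV : OPT O V) {α : Type} [DEnc α] [Meas α] {M m t : α → ℕ}
    {y : α → List Bool} (hM : PT M) (hm : PT m) (ht : PT t) (hy : PT y) :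
    OPT O (fun a => chkE R V pR (M a) (m a) (t a) (y a)) := by
  unfold chkE
  refine (OPT.of_PT (PT.nle ht (PT.length hy))).band ?_
  refine MP_92db0f_lc_gold.OPT.all (p := fun w : α × ℕ =>
    (rft R V pR (m w.1) (unpair (nthC (y w.1) w.2)) &&
      (decide ((unpair (nthC (y w.1) w.2)).1.length ≤ M w.1) &&
      decide ((unpair (unpair (nthC (y w.1) w.2)).1).2.length ≤ m w.1))) &&
    (List.range w.2).all fun i => !decide ((unpair (nthC (y w.1) i)).1 =
      (unpair (nthC (y w.1) w.2)).1)) ?_ ht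
  have hn : PT (fun w : α × ℕ => unpair (nthC (y w.1) w.2)) :=
    PT_unpair.comp (PT_nthC (hy.comp PT.fst) PT.snd)
  refine ((OPT_rft pR hR hV (hm.comp PT.fst) hn).band (OPT.of_PT (PT.band
    (PT.nle (PT.length hn.p1) (hM.comp PT.fst))
    (PT.nle (PT.length (PT_unpair.comp hn.p1).p2) (hm.comp PT.fst))))).band (OPT.of_PT ?_)
  refine PT.all (p := fun w : (α × ℕ) × ℕ => !decide ((unpair (nthC (y w.1.1) w.2)).1 =
    (unpair (nthC (y w.1.1) w.1.2)).1)) (PT.range PT.snd) ?_
  exact PT.bnot (PT_leq (PT_unpair.comp (PT_nthC (hy.comp PT.fst.p1) PT.snd)).p1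
    (hn.comp PT.fst).p1)

lemma OPT_tst (hR : OPT O R) (hV : OPT O V) {α : Type} [DEnc α] [Meas α] {Q y e : α → List Bool}
    {t m : α → ℕ} {b : α → Bool} (hQ : PT Q) (hy : PT y) (he : PT e) (ht : PT t) (hb : PT b)
    (hm : PT m) : OPT O (fun a => tst R V pR (m a) (Q a) (y a) (e a) (t a) (b a)) := by
  unfold tst
  have ue : PT (fun a => unpair (e a)) := PT_unpair.comp he
  refine OPT_cond hb ((OPT.of_PT (PT.nle (PT.length he) (PT_peval pR (PT.length hQ)))).band
    (hR.comp_PT (PT.pair (PT.pair hQ (PT.const [])) he))) ?_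
  refine ((OPT.of_PT (PT.nle (PT.npred (PT.length ue.p2)) (PT_p2 (PT.length ue.p2) hm))).band
    (hV.comp_PT (PT.pair (PT.pair hQ ue.p1) ue.p2))).band (OPT.of_PT (PT.band
      (PT.nle (PT.length ue.p1) hm) ?_))
  refine PT.all (p := fun w : α × ℕ => !decide ((unpair (nthC (y w.1) w.2)).1 =
    encPair (List.replicate (Q w.1).length true, (unpair (e w.1)).1))) (PT.range ht) ?_
  exact PT.bnot (PT_leq (PT_unpair.comp (PT_nthC (hy.comp PT.fst) PT.snd)).p1 (PT_encPair
    (PT.replicate (PT.length (hQ.comp PT.fst)) (PT.const true)) (ue.comp PT.fst).p1))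

end

/-! ### correctness -/

section

variable {R V : (List Bool × List Bool) × List Bool → Bool} {pR : Polynomial ℕ}
  {S : Set (List Bool)} {α : ℕ → List Bool}
  (hS : ∀ Q : List Bool, Q ∈ S ↔
    ∃ w : List Bool, w.length ≤ pR.eval Q.length ∧ R ((Q, []), w) = true)
  (hS' : ∀ Q : List Bool, Q ∈ Sᶜ ↔ ∃ w : List Bool, V ((Q, α Q.length), w) = true)

include hS hS' in
/-- correct advice strings are not refuted -/
lemma not_refuted (m ℓ : ℕ) : encPair (List.replicate ℓ true, α ℓ) ∉ Ref R V pR m := by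
  rintro ⟨y, hy⟩
  obtain ⟨Q, α', h1, h2, w, -, h3⟩ := rft_spec R V pR hy
  have h4 := congrArg unpair h1
  rw [unpair_enc, unpair_enc, Prod.mk.injEq] at h4
  have h5 : ℓ = Q.length := by
    have := congrArg List.length h4.1
    simpa using this
  rw [← h4.2, h5] at h3
  exact (hS' Q).2 ⟨w, h3⟩ ((hS Q).2 h2)

include hS in
open Classical in
lemma tst_sound {Q y e : List Bool} {M m t : ℕ} {b : Bool}
    (h : tst R V pR m Q y e t b = true)
    (hy : ∀ z ∈ DE R V pR M m, ∃ j < t, (unpair (nthC y j)).1 = z)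
    (hQ : 2 * Q.length + 2 + m ≤ M) : b = decide (Q ∈ S) := by
  unfold tst at h
  cases b with
  | true =>
    rw [cond_true, Bool.and_eq_true, decide_eq_true_eq] at h
    symm
    rw [decide_eq_true_eq]
    exact (hS Q).2 ⟨e, h⟩
  | false =>
    rw [cond_false] at h
    simp only [Bool.and_eq_true, decide_eq_true_eq, List.all_eq_true, List.mem_range,
      Bool.not_eq_true', decide_eq_false_iff_not] at h
    obtain ⟨⟨h1, h2⟩, h3, h4⟩ := h
    symm
    rw [decide_eq_false_iff_not]
    intro hQS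
    obtain ⟨w, hw1, hw2⟩ := (hS Q).1 hQS
    have h5 := rft_intro R V pR hw1 hw2 ((le_p2 _ _).1 h1) h2
    obtain ⟨j, hj, h6⟩ := hy _ ⟨⟨_, h5⟩, by
      rw [length_encPair, List.length_replicate]
      omega, by
      rw [unpair_enc]
      exact h3⟩
    exact h4 j hj h6

include hS hS' in
open Classical in
lemma tst_complete {Q y : List Bool} {M m t : ℕ}
    (hy : ∀ j < t, (unpair (nthC y j)).1 ∈ DE R V pR M m)
    (hα : (α Q.length).length ≤ m) (hw : ∀ w, V ((Q, α Q.length), w) = true → w.length ≤ 2 ^ m)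
    (hQ : Q.length ≤ M) :
    ∃ e : List Bool, e.length ≤ pR.eval M + (2 * m + 2 + 2 ^ m) ∧
      tst R V pR m Q y e t (decide (Q ∈ S)) = true := by
  have hR := evalMono pR hQ
  dsimp only at hR
  by_cases h : Q ∈ S
  · obtain ⟨w, hw1, hw2⟩ := (hS Q).1 h
    have h0 : 0 < 2 ^ m := by positivity
    refine ⟨w, by omega, ?_⟩
    unfold tst
    rw [show decide (Q ∈ S) = true from decide_eq_true h, cond_true, Bool.and_eq_true,
      decide_eq_true_eq]
    exact ⟨hw1, hw2⟩
  · obtain ⟨w, hw2⟩ := (hS' Q).1 h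
    have hw1 := hw w hw2
    refine ⟨encPair (α Q.length, w), ?_, ?_⟩
    · rw [length_encPair]
      omega
    · unfold tst
      rw [show decide (Q ∈ S) = false from decide_eq_false h, cond_false]
      simp only [unpair_enc, Bool.and_eq_true, decide_eq_true_eq, List.all_eq_true,
        List.mem_range, Bool.not_eq_true', decide_eq_false_iff_not]
      refine ⟨⟨(le_p2 _ _).2 hw1, hw2⟩, hα, ?_⟩
      intro j hj h1
      have h2 := (hy j hj).1
      rw [h1] at h2
      exact not_refuted hS hS' _ _ h2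

end

/-! ### the number of the refuted advice strings -/

lemma ncard_DE {R V : (List Bool × List Bool) × List Bool → Bool} {pR : Polynomial ℕ}
    (M m : ℕ) : (DE R V pR M m).ncard ≤ (M + 1) * 2 ^ (m + 1) := by
  classical
  have h1 : DE R V pR M m ⊆
      (((Finset.range (M + 1)) ×ˢ ((Finset.range (2 ^ (m + 1))).image str)).image
        fun p : ℕ × List Bool => encPair (List.replicate p.1 true, p.2) : Set (List Bool)) := by
    rintro z ⟨⟨y, hy⟩, hz1, hz2⟩
    obtain ⟨Q, α, h1, -, -⟩ := rft_spec R V pR hy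
    rw [h1, unpair_enc] at hz2
    rw [h1, length_encPair, List.length_replicate] at hz1
    dsimp only at hz2
    rw [Finset.coe_image]
    refine ⟨(Q.length, α), ?_, h1.symm⟩
    rw [Finset.mem_coe, Finset.mem_product, Finset.mem_range, Finset.mem_image]
    refine ⟨by dsimp only; omega, vl α, ?_, str_vl α⟩
    rw [Finset.mem_range]
    have h2 := vl_lt α
    have h3 : 2 ^ (α.length + 1) ≤ 2 ^ (m + 1) := Nat.pow_le_pow_right (by norm_num) (by omega)
    omega
  refine (Set.ncard_le_ncard h1 (Finset.finite_toSet _)).trans ?_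
  rw [Set.ncard_coe_finset]
  refine Finset.card_image_le.trans ?_
  rw [Finset.card_product, Finset.card_range]
  exact Nat.mul_le_mul_left _ (Finset.card_image_le.trans (by rw [Finset.card_range]))

/-! ### bounds -/

lemma subpoly_bound {a : ℕ → ℕ} (ha : Subpoly a) (k₀ : ℕ) :
    ∃ C, ∀ n ℓ, ℓ ≤ n ^ k₀ + k₀ → a ℓ ≤ C * (n + 1) := by
  obtain ⟨C₁, hC₁⟩ := ha (k₀ + 1)
  obtain ⟨C, hC⟩ : ∃ C, C = C₁ * (k₀ + 2) + 1 := ⟨_, rfl⟩
  refine ⟨C, ?_⟩
  intro n ℓ hℓ
  have h1 := hC₁ ℓ
  have h2 : n ^ k₀ ≤ (n + 1) ^ (k₀ + 1) :=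
    (Nat.pow_le_pow_left (Nat.le_succ n) _).trans (Nat.pow_le_pow_right (by omega) (by omega))
  have h3 : 1 ≤ (n + 1) ^ (k₀ + 1) := Nat.one_le_pow _ _ (by omega)
  have h4 : ℓ + 1 ≤ (k₀ + 2) * (n + 1) ^ (k₀ + 1) := by
    have h5 : (k₀ + 1) * 1 ≤ (k₀ + 1) * (n + 1) ^ (k₀ + 1) := Nat.mul_le_mul_left _ h3
    have h6 : (k₀ + 2) * (n + 1) ^ (k₀ + 1) =
      (n + 1) ^ (k₀ + 1) + (k₀ + 1) * (n + 1) ^ (k₀ + 1) := by ring
    omega
  have h5 : a ℓ ^ (k₀ + 1) ≤ (C * (n + 1)) ^ (k₀ + 1) := by
    calc a ℓ ^ (k₀ + 1) ≤ C₁ * (ℓ + 1) := h1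
      _ ≤ C₁ * ((k₀ + 2) * (n + 1) ^ (k₀ + 1)) := Nat.mul_le_mul_left _ h4
      _ = C₁ * (k₀ + 2) * (n + 1) ^ (k₀ + 1) := by ring
      _ ≤ C ^ (k₀ + 1) * (n + 1) ^ (k₀ + 1) := by
          apply Nat.mul_le_mul_right
          have h6 : C ≤ C ^ (k₀ + 1) := Nat.le_self_pow (by omega) _
          omega
      _ = (C * (n + 1)) ^ (k₀ + 1) := (mul_pow _ _ _).symm
  exact (Nat.pow_le_pow_iff_left (by omega)).1 h5

end Pool.Agent.LCB
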