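import Pool.Agent.MP_92db0f_lc_gold.Hier
import Pool.Agent.MP_92db0f_lc_gold.Round
import Pool.Agent.MP_92db0f_lc.Main

/-!
A language in nondeterministic exponential time relative to an oracle that cannot be decided with a
fixed exponent, even with advice.
-/

set_option autoImplicit false
set_option linter.unusedSectionVars false

namespace Pool.Agent.LCB

open Lib.helper60 Function Turing Computability
open MP_92db0f_lc hiding answers InNEXP mkC length_mkC PT_mkC answers_take length_answers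
open MP_92db0f_lc_alg (answers PolyTime InNEXP)
open MP_92db0f_lc_gold (OPT Meas VK dcert VK_spec OPT_VK)

/-- The language `L` is decided relative to `O` in time `2 ^ O(n ^ D)` with `O(n ^ D)` bits of
advice. -/
def InEAR (O : Set (List Bool)) (D : ℕ) (L : Set (List Bool)) : Prop :=
  ∃ (W : List Bool × (List Bool × ℕ) → Bool) (b : ℕ → List Bool) (C : ℕ), OPT O W ∧
    (∀ n, (b n).length ≤ (n + C) ^ D) ∧
    ∀ (x : List Bool) (N : ℕ), 2 ^ ((x.length + C) ^ D) ≤ N →
      (x ∈ L ↔ W (x, (b x.length, N)) = true)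

/-- the universal machine on an input with advice -/
noncomputable def mchB (O : Set (List Bool)) (D : ℕ) (z : List Bool) (P n : ℕ)
    (X b : List Bool) : Bool :=
  VK O (encPair (z, X), dcert b (p2 P (n ^ (D + 1))) (p2 P (n ^ (D + 2))) (p2 P (n ^ (D + 3))))

/-- the `k`-th string differs from the answers of the machine, for all advice strings -/
noncomputable def goodR (O : Set (List Bool)) (D : ℕ) (w : List Bool × (ℕ × ℕ)) : Bool :=
  (List.range w.2.1).all fun j => (!decide ((str j).length ≤ w.1.length ^ (D + 1))) ||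
    (List.range (w.1.length ^ (D + 1) + 2)).any fun i =>
      !decide (mchB O D (unpair w.1).1 w.2.1 w.1.length
        (testIn (unpair w.1).1 (unpair w.1).2.length w.2.1 i) (str j) = (str w.2.2).getD i false)

/-- the diagonal function, from the list of the values of `goodR` -/
def GDf (w : (List Bool × ℕ) × List Bool) : Bool :=
  (str (((List.range w.1.2).filter fun k => w.2.getD k false).headD 0)).getD
    (vlc w.1.2 (unpair w.1.1).2 - p2 w.1.2 (unpair w.1.1).2.length) false

/-- the diagonal function -/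
noncomputable def GDR (O : Set (List Bool)) (D : ℕ) (w : List Bool × ℕ) : Bool :=
  GDf (w, (List.range w.2).map fun k => goodR O D (w.1, (w.2, k)))

/-- the verifier of the diagonal language -/
noncomputable def VDR (O : Set (List Bool)) (D : ℕ) (p : List Bool × List Bool) : Bool :=
  decide (p2 (p.2.length + 1) (EE (D + 1) p.1.length) ≤ p.2.length) &&
    GDR O D (p.1, p.2.length)

/-- the diagonal language -/
def LDR (O : Set (List Bool)) (D : ℕ) : Set (List Bool) :=
  {x | ∃ y : List Bool, y.length ≤ 2 ^ (x.length ^ (3 ^ (D + 1 + 2) + 2 * (D + 1) + 7) +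
    (3 ^ (D + 1 + 2) + 2 * (D + 1) + 7)) ∧ VDR O D (x, y) = true}

section

variable {α : Type} [DEnc α] {O : Set (List Bool)}

lemma OPT_mchB (D : ℕ) {z : α → List Bool} {P n : α → ℕ} {X b : α → List Bool} (hz : PT z)
    (hP : PT P) (hn : PT n) (hX : PT X) (hb : PT b) :
    OPT O (fun a => mchB O D (z a) (P a) (n a) (X a) (b a)) := by
  unfold mchB dcert
  exact (OPT_VK O).comp_PT (PT.pair (PT_encPair hz hX) (PT_encPair (PT_encPair hb
    (PT.replicate (PT_p2 hP (PT_npow hn _)) (PT.const true))) (PT_encPair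
      (PT.replicate (PT_p2 hP (PT_npow hn _)) (PT.const true))
      (PT.replicate (PT_p2 hP (PT_npow hn _)) (PT.const true)))))

lemma OPT_goodR (D : ℕ) : OPT O (goodR O D) := by
  unfold goodR
  refine MP_92db0f_lc_gold.OPT.all (p := fun y : (List Bool × (ℕ × ℕ)) × ℕ =>
    (!decide ((str y.2).length ≤ y.1.1.length ^ (D + 1))) ||
    (List.range (y.1.1.length ^ (D + 1) + 2)).any fun i =>
      !decide (mchB O D (unpair y.1.1).1 y.1.2.1 y.1.1.length
        (testIn (unpair y.1.1).1 (unpair y.1.1).2.length y.1.2.1 i) (str y.2) =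
          (str y.1.2.2).getD i false)) ?_ PT.snd.p1
  have hx : PT (fun y : (List Bool × (ℕ × ℕ)) × ℕ => y.1.1) := PT.fst.p1
  have hn : PT (fun y : (List Bool × (ℕ × ℕ)) × ℕ => y.1.1.length) := PT.length hx
  refine (OPT.of_PT (PT.bnot (PT.nle (PT.length (PT_str PT.snd)) (PT_npow hn _)))).bor ?_
  refine MP_92db0f_lc_gold.OPT.any (p := fun u : ((List Bool × (ℕ × ℕ)) × ℕ) × ℕ =>
      !decide (mchB O D (unpair u.1.1.1).1 u.1.1.2.1 u.1.1.1.length
        (testIn (unpair u.1.1.1).1 (unpair u.1.1.1).2.length u.1.1.2.1 u.2) (str u.1.2) =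
          (str u.1.1.2.2).getD u.2 false)) ?_ (PT.nadd (PT_npow hn _) (PT.const 2))
  have hx' : PT (fun u : ((List Bool × (ℕ × ℕ)) × ℕ) × ℕ => u.1.1.1) := PT.fst.p1.p1
  have hu' : PT (fun u : ((List Bool × (ℕ × ℕ)) × ℕ) × ℕ => unpair u.1.1.1) := PT_unpair.comp hx'
  have hP' : PT (fun u : ((List Bool × (ℕ × ℕ)) × ℕ) × ℕ => u.1.1.2.1) := PT.fst.p1.p2.p1
  have hk' : PT (fun u : ((List Bool × (ℕ × ℕ)) × ℕ) × ℕ => u.1.1.2.2) := PT.fst.p1.p2.p2
  have h1 := OPT_mchB (O := O) D hu'.p1 hP' (PT.length hx')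
    (PT_testIn hu'.p1 (PT.length hu'.p2) hP' PT.snd) (PT_str PT.fst.p2)
  have h2 : PT (fun u : ((List Bool × (ℕ × ℕ)) × ℕ) × ℕ => (str u.1.1.2.2).getD u.2 false) :=
    PT.getD (PT_str hk') PT.snd (PT.const false)
  exact (h1.pair (OPT.of_PT h2)).map (h := fun p : Bool × Bool => !decide (p.1 = p.2))
    (PT.bnot (PT.beq PT.fst PT.snd))

lemma PT_GDf : PT GDf := by
  unfold GDf
  have hu : PT (fun w : (List Bool × ℕ) × List Bool => unpair w.1.1) := PT_unpair.comp PT.fst.p1
  have hP : PT (fun w : (List Bool × ℕ) × List Bool => w.1.2) := PT.fst.p2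
  refine PT.getD (PT_str (PT.headD ?_ (PT.const 0)))
    (PT.nsub (PT_vlc hP hu.p2) (PT_p2 hP (PT.length hu.p2))) (PT.const false)
  exact PT.filter (p := fun y : ((List Bool × ℕ) × List Bool) × ℕ => y.1.2.getD y.2 false)
    (PT.range hP) (PT.getD PT.fst.p2 PT.snd (PT.const false))

lemma OPT_GDR (D : ℕ) : OPT O (GDR O D) := by
  unfold GDR
  have h1 : OPT O (fun y : (List Bool × ℕ) × ℕ => goodR O D (y.1.1, (y.1.2, y.2))) :=
    (OPT_goodR D).comp_PT (PT.pair PT.fst.p1 (PT.pair PT.fst.p2 PT.snd))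
  have h2 := MP_92db0f_lc_gold.OPT.bits (p := fun y : (List Bool × ℕ) × ℕ =>
    goodR O D (y.1.1, (y.1.2, y.2))) h1 (n := fun w : List Bool × ℕ => w.2) PT.snd
  exact ((OPT.of_PT PT.id).pair h2).map (h := GDf) PT_GDf

lemma OPT_VDR (D : ℕ) : OPT O (VDR O D) := by
  unfold VDR EE
  have hn : PT (fun p : List Bool × List Bool => p.1.length) := PT.length PT.fst
  have hl : PT (fun p : List Bool × List Bool => p.2.length) := PT.length PT.snd
  exact (OPT.of_PT (PT.nle (PT_p2 (PT.nsucc hl) (PT.nadd (PT_npow (PT.nadd hn (PT.const 2)) _)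
    (PT.const 3))) hl)).band ((OPT_GDR D).comp_PT (PT.pair PT.fst hl))

end

theorem LDR_mem (O : Set (List Bool)) (D : ℕ) : InNEXP O (LDR O D) :=
  ⟨3 ^ (D + 1 + 2) + 2 * (D + 1) + 7, fun p => VDR O D p = true,
    MP_92db0f_lc_gold.OPT.polyTime (OPT_VDR D), fun _ => Iff.rfl⟩

/-! ### the values without caps -/

/-- the machine without caps -/
noncomputable def mchI (O : Set (List Bool)) (D : ℕ) (z : List Bool) (n : ℕ)
    (X b : List Bool) : Bool :=
  VK O (encPair (z, X), dcert b (2 ^ n ^ (D + 1) - 1) (2 ^ n ^ (D + 2) - 1)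
    (2 ^ n ^ (D + 3) - 1))

/-- the goal of the diagonalization -/
def GoodIR (O : Set (List Bool)) (D : ℕ) (z : List Bool) (l n k : ℕ) : Prop :=
  ∀ b : List Bool, b.length ≤ n ^ (D + 1) → ∃ i < n ^ (D + 1) + 2,
    mchI O D z n (testI z l i) b ≠ (str k).getD i false

lemma exists_goodR (O : Set (List Bool)) (D : ℕ) (z : List Bool) (l n : ℕ) :
    ∃ k, k + 1 < 2 ^ (n ^ (D + 1) + 3) ∧ GoodIR O D z l n k := by
  by_contra hcon
  push Not at hcon
  let m := n ^ (D + 1)
  let g : Fin (2 ^ (m + 1)) → (Fin (m + 2) → Bool) := fun j i =>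
    mchI O D z n (testI z l i) (str j)
  have hg : Surjective g := by
    intro T
    have h1 := vl_lt (List.ofFn T)
    rw [List.length_ofFn] at h1
    have h2 := hcon (vl (List.ofFn T)) h1
    unfold GoodIR at h2
    push Not at h2
    obtain ⟨b, hb, h3⟩ := h2
    have h4 := vl_lt b
    have h5 : vl b < 2 ^ (m + 1) := by
      have : 2 ^ (b.length + 1) ≤ 2 ^ (m + 1) := Nat.pow_le_pow_right (by norm_num) (by omega)
      omega
    refine ⟨⟨vl b, h5⟩, ?_⟩
    funext i
    have h6 := h3 i i.isLt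
    rw [str_vl, List.getD_eq_getElem _ _ (by rw [List.length_ofFn]; exact i.isLt)] at h6
    simp only [g, str_vl]
    rw [h6, List.getElem_ofFn]
  have h1 := Fintype.card_le_of_surjective g hg
  simp only [Fintype.card_fun, Fintype.card_fin, Fintype.card_bool] at h1
  have h2 : 2 ^ (m + 1) < 2 ^ (m + 2) := Nat.pow_lt_pow_right (by norm_num) (by omega)
  omega

section

variable {O : Set (List Bool)} {D : ℕ} {z : List Bool} {l n P : ℕ} (hl : l ≤ n)
  (hP : 2 ^ EE (D + 1) n ≤ P + 1)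

lemma pow1R_le (D n : ℕ) : n ^ (D + 1) + 3 ≤ EE (D + 1) n := by
  unfold EE
  have h1 : n ^ (D + 1) ≤ (n + 2) ^ (D + 1) := Nat.pow_le_pow_left (by omega) _
  have h2 : (n + 2) ^ (D + 1) ≤ (n + 2) ^ (D + 1 + 2) := Nat.pow_le_pow_right (by omega) (by omega)
  omega

lemma pow2R_le (D n : ℕ) : n ^ (D + 2) ≤ EE (D + 1) n := by
  unfold EE
  have h1 : n ^ (D + 2) ≤ (n + 2) ^ (D + 2) := Nat.pow_le_pow_left (by omega) _
  have h2 : (n + 2) ^ (D + 2) ≤ (n + 2) ^ (D + 1 + 2) := Nat.pow_le_pow_right (by omega) (by omega)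
  omega

lemma pow3R_le (D n : ℕ) : n ^ (D + 3) ≤ EE (D + 1) n := by
  unfold EE
  have h1 : n ^ (D + 3) ≤ (n + 2) ^ (D + 1 + 2) := Nat.pow_le_pow_left (by omega) _
  omega

include hP in
lemma capR_le {m : ℕ} (hm : m ≤ EE (D + 1) n) : 2 ^ m ≤ P + 1 :=
  (Nat.pow_le_pow_right (by norm_num) hm).trans hP

include hP in
lemma mchB_eq (X b : List Bool) : mchB O D z P n X b = mchI O D z n X b := by
  unfold mchB mchI
  have h1 := pow1R_le D n
  rw [p2_eq' (capR_le hP (by omega : n ^ (D + 1) ≤ EE (D + 1) n)),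
    p2_eq' (capR_le hP (pow2R_le D n)), p2_eq' (capR_le hP (pow3R_le D n))]

end

lemma goodR_iff {O : Set (List Bool)} {D : ℕ} {x : List Bool} {P : ℕ}
    (hl : (unpair x).2.length ≤ x.length) (hP : 2 ^ EE (D + 1) x.length ≤ P + 1) (k : ℕ) :
    goodR O D (x, (P, k)) = true ↔
      GoodIR O D (unpair x).1 (unpair x).2.length x.length k := by
  have htest : ∀ i, testIn (unpair x).1 (unpair x).2.length P i =
      testI (unpair x).1 (unpair x).2.length i := by
    intro i
    unfold testIn testI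
    have h1 := self_le (D + 1) x.length
    rw [p2_eq' (capR_le hP (by omega : (unpair x).2.length ≤ EE (D + 1) x.length))]
  unfold goodR GoodIR
  simp only [List.all_eq_true, List.mem_range, Bool.or_eq_true, Bool.not_eq_true',
    decide_eq_false_iff_not, List.any_eq_true]
  constructor
  · intro h b hb
    have h1 := vl_lt b
    have h2 : 2 ^ (b.length + 1) ≤ P + 1 := capR_le hP (by have := pow1R_le D x.length; omega)
    rcases h (vl b) (by omega) with h3 | ⟨i, hi, h3⟩
    · rw [str_vl] at h3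
      exact absurd hb h3
    · rw [mchB_eq hP, htest, str_vl] at h3
      exact ⟨i, hi, h3⟩
  · intro h j _
    by_cases hb : (str j).length ≤ x.length ^ (D + 1)
    · right
      obtain ⟨i, hi, h3⟩ := h (str j) hb
      refine ⟨i, hi, ?_⟩
      rw [mchB_eq hP, htest]
      exact h3
    · exact Or.inl hb

/-- the value of the diagonal function without caps -/
noncomputable def GIR (O : Set (List Bool)) (D : ℕ) (z u : List Bool) : Bool :=
  (str (sInf {k | GoodIR O D z u.length (encPair (z, u)).length k})).getD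
    (vl u - (2 ^ u.length - 1)) false

lemma GDR_eq {O : Set (List Bool)} {D : ℕ} {z u : List Bool} {P : ℕ}
    (hP : 2 ^ EE (D + 1) (encPair (z, u)).length ≤ P + 1) :
    GDR O D (encPair (z, u), P) = GIR O D z u := by
  classical
  have hl : u.length ≤ (encPair (z, u)).length := by rw [length_encPair]; omega
  obtain ⟨k₀, hk1, hk2⟩ := exists_goodR O D z u.length (encPair (z, u)).length
  have hne : {k | GoodIR O D z u.length (encPair (z, u)).length k}.Nonempty := ⟨k₀, hk2⟩
  have hmem := Nat.sInf_mem hne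
  have hlt : sInf {k | GoodIR O D z u.length (encPair (z, u)).length k} < P := by
    have h1 := Nat.sInf_le (s := {k | GoodIR O D z u.length (encPair (z, u)).length k}) hk2
    have h2 := capR_le hP (pow1R_le D (encPair (z, u)).length)
    omega
  have hgood : ∀ k, goodR O D (encPair (z, u), (P, k)) = true ↔
      GoodIR O D z u.length (encPair (z, u)).length k := by
    intro k
    have h1 := goodR_iff (O := O) (D := D) (x := encPair (z, u)) (P := P)
      (by rw [unpair_enc]; exact hl) hP k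
    rw [unpair_enc] at h1
    exact h1
  unfold GDR GDf GIR
  simp only [unpair_enc]
  have hf : ((List.range P).filter fun k => ((List.range P).map fun k =>
      goodR O D (encPair (z, u), (P, k))).getD k false) =
      (List.range P).filter fun k => goodR O D (encPair (z, u), (P, k)) := by
    apply List.filter_congr
    intro k hk
    rw [List.mem_range] at hk
    rw [List.getD_eq_getElem _ _ (by rw [List.length_map, List.length_range]; exact hk),
      List.getElem_map, List.getElem_range]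
  rw [hf, head_filter_range P _ _ hlt]
  · congr 1
    have h1 := self_le (D + 1) (encPair (z, u)).length
    rw [p2_eq' (capR_le hP (by omega)), vlc_eq]
    have h2 := vl_lt u
    have h3 : 2 ^ (u.length + 1) ≤ P + 1 := capR_le hP (by omega)
    rw [min_eq_right (by omega)]
  · rw [hgood]
    exact hmem
  · intro j hj
    rw [Bool.eq_false_iff]
    intro h
    rw [hgood] at h
    exact absurd (Nat.sInf_le (s := {k | GoodIR O D z u.length (encPair (z, u)).length k}) h)
      (not_le.mpr hj)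

theorem mem_LDR_iff (O : Set (List Bool)) (D : ℕ) (z u : List Bool) :
    encPair (z, u) ∈ LDR O D ↔ GIR O D z u = true := by
  have hcheck : ∀ y : List Bool, p2 (y.length + 1) (EE (D + 1) (encPair (z, u)).length) ≤
      y.length ↔ 2 ^ EE (D + 1) (encPair (z, u)).length ≤ y.length + 1 := by
    intro y
    rw [p2_eq]
    have : 0 < 2 ^ EE (D + 1) (encPair (z, u)).length := by positivity
    omega
  constructor
  · rintro ⟨y, _, hy⟩
    simp only [VDR, Bool.and_eq_true, decide_eq_true_eq, hcheck] at hy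
    rw [← GDR_eq hy.1]
    exact hy.2
  · intro h
    refine ⟨List.replicate (2 ^ EE (D + 1) (encPair (z, u)).length) true, ?_, ?_⟩
    · rw [List.length_replicate]
      exact Nat.pow_le_pow_right (by norm_num) (EE_le _ _)
    · simp only [VDR, Bool.and_eq_true, decide_eq_true_eq]
      refine ⟨(hcheck _).mpr (by rw [List.length_replicate]; exact Nat.le_succ _), ?_⟩
      rw [GDR_eq (by rw [List.length_replicate]; exact Nat.le_succ _), h]

/-- **The hierarchy theorem.** -/
theorem LDR_not (O : Set (List Bool)) (D : ℕ) : ¬ InEAR O D (LDR O D) := by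
  rintro ⟨W, b, C, hW, hb, hL⟩
  have hV : OPT O (fun w : List Bool × List Bool =>
      W (w.1, ((unpair w.2).1, (unpair w.2).2.length))) := by
    have h1 : PT (fun w : List Bool × List Bool => unpair w.2) := PT_unpair.comp PT.snd
    exact hW.comp_PT (PT.pair PT.fst (PT.pair h1.p1 (PT.length h1.p2)))
  obtain ⟨U, T, hU, hspec⟩ := VK_spec hV
  obtain ⟨B, hB⟩ := eventually_poly_le ((3 * Polynomial.X + 2) ^ (D + 1) + 2)
  obtain ⟨a, ha⟩ : ∃ a, a = T.eval 1 := ⟨_, rfl⟩
  obtain ⟨g, hg⟩ : ∃ g, g = T.natDegree := ⟨_, rfl⟩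
  obtain ⟨s, hs⟩ : ∃ s, s = B + C + 2 ^ D + 1 + (a + 1 + 9 * g) := ⟨_, rfl⟩
  have h2D : 1 ≤ 2 ^ D := Nat.one_le_pow _ _ (by norm_num)
  obtain ⟨z, hz⟩ : ∃ z, z = U s := ⟨_, rfl⟩
  obtain ⟨ℓ, hℓ0⟩ : ∃ ℓ, ℓ = z.length := ⟨_, rfl⟩
  have hℓ : s ≤ ℓ := by rw [hℓ0, hz]; exact hU s
  obtain ⟨n, hn0⟩ : ∃ n, n = 2 * ℓ + 2 + ℓ := ⟨_, rfl⟩
  have hn : s ≤ n := by omega
  have hn1 : 1 ≤ n := by omega
  have c1 : n ^ (D + 1) + 2 ≤ 2 ^ ℓ := by
    have h := hB ℓ (by omega)
    simp only [Polynomial.eval_add, Polynomial.eval_pow, Polynomial.eval_mul,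
      Polynomial.eval_ofNat, Polynomial.eval_X] at h
    have : n = 3 * ℓ + 2 := by omega
    rw [this]
    exact h
  have hposD : 1 ≤ n ^ D := Nat.one_le_pow _ _ hn1
  have hposD1 : 1 ≤ n ^ (D + 1) := Nat.one_le_pow _ _ hn1
  have hposD2 : 1 ≤ n ^ (D + 2) := Nat.one_le_pow _ _ hn1
  have c2 : (n + C) ^ D + 1 ≤ n ^ (D + 1) := by
    have h1 : (n + C) ^ D ≤ (2 * n) ^ D := Nat.pow_le_pow_left (by omega) _
    rw [mul_pow] at h1
    have h2 : n ^ D * (2 ^ D + 1) ≤ n ^ D * n := Nat.mul_le_mul_left _ (by omega)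
    rw [← pow_succ, Nat.mul_add, Nat.mul_one, Nat.mul_comm (n ^ D) (2 ^ D)] at h2
    omega
  have c2' : 2 ^ ((n + C) ^ D) ≤ 2 ^ n ^ (D + 1) - 1 := by
    have h1 : 2 ^ ((n + C) ^ D + 1) ≤ 2 ^ n ^ (D + 1) := Nat.pow_le_pow_right (by norm_num) c2
    rw [pow_succ] at h1
    have h2 : 1 ≤ 2 ^ ((n + C) ^ D) := Nat.one_le_pow _ _ (by norm_num)
    omega
  -- the machine on the test inputs
  have hmach : ∀ X v : List Bool, X.length = n → v.length ≤ n ^ (D + 1) →
      mchI O D z n X v = W (X, (v, 2 ^ n ^ (D + 1) - 1)) := by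
    intro X v hX hv
    obtain ⟨P, hP⟩ : ∃ P, P = 2 ^ n ^ (D + 1) - 1 := ⟨_, rfl⟩
    obtain ⟨S, hS⟩ : ∃ S, S = 2 ^ n ^ (D + 2) - 1 := ⟨_, rfl⟩
    obtain ⟨T', hT'⟩ : ∃ T', T' = 2 ^ n ^ (D + 3) - 1 := ⟨_, rfl⟩
    obtain ⟨y, hy⟩ : ∃ y, y = encPair (v, List.replicate P true) := ⟨_, rfl⟩
    have h1 := hspec s X y S T'
    rw [← hz] at h1
    have hVy : W ((X, y).1, ((unpair (X, y).2).1, (unpair (X, y).2).2.length)) =
        W (X, (v, P)) := by
      rw [hy]
      simp only [unpair_enc, List.length_replicate]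
    rw [hVy] at h1
    have hdc : dcert v P S T' = encPair (y, encPair (List.replicate S true,
        List.replicate T' true)) := by
      unfold dcert
      rw [hy]
    unfold mchI
    rw [← hP, ← hS, ← hT', hdc]
    obtain ⟨N, hN⟩ : ∃ N, N = (encPair (X, y)).length := ⟨_, rfl⟩
    have hN1 : N ≤ 2 ^ (4 * n ^ (D + 1)) := by
      rw [hN, hy, length_encPair, length_encPair, List.length_replicate, hX]
      have h3 : n ^ (D + 1) < 2 ^ n ^ (D + 1) := Nat.lt_two_pow_self
      have h4 : n ≤ n ^ (D + 1) := Nat.le_self_pow (by omega) n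
      have h5 : 2 ^ (4 * n ^ (D + 1)) = 2 ^ n ^ (D + 1) * 2 ^ (3 * n ^ (D + 1)) := by
        rw [← pow_add]
        congr 1
        ring
      have h6 : 2 ^ 3 ≤ 2 ^ (3 * n ^ (D + 1)) := Nat.pow_le_pow_right (by norm_num) (by omega)
      have h7 : 2 ^ n ^ (D + 1) * 8 ≤ 2 ^ n ^ (D + 1) * 2 ^ (3 * n ^ (D + 1)) :=
        Nat.mul_le_mul_left _ h6
      omega
    have hpk1 : n ^ (D + 1) * n = n ^ (D + 2) := (pow_succ _ _).symm
    have hpk2 : n ^ (D + 2) * n = n ^ (D + 3) := (pow_succ _ _).symm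
    have hle1 : T.eval N ≤ S := by
      have h3 := MP_92db0f_lc_gold.eval_two_pow T N _ hN1
      rw [← ha, ← hg] at h3
      have h4 : a + 4 * n ^ (D + 1) * g + 1 ≤ n ^ (D + 2) := by
        have h5 : n ^ (D + 1) * (a + 1 + 9 * g) ≤ n ^ (D + 1) * n :=
          Nat.mul_le_mul_left _ (by omega)
        rw [hpk1] at h5
        have h6 : n ^ (D + 1) * (a + 1 + 9 * g) = a * n ^ (D + 1) + n ^ (D + 1) +
          4 * n ^ (D + 1) * g + 5 * (n ^ (D + 1) * g) := by ring
        have h7 : a ≤ a * n ^ (D + 1) := Nat.le_mul_of_pos_right _ (by omega)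
        omega
      have h5 : 2 ^ (a + 4 * n ^ (D + 1) * g + 1) ≤ 2 ^ n ^ (D + 2) :=
        Nat.pow_le_pow_right (by norm_num) h4
      have h6 : 1 ≤ 2 ^ (a + 4 * n ^ (D + 1) * g) := Nat.one_le_pow _ _ (by norm_num)
      rw [pow_succ] at h5
      omega
    have hle2 : T.eval (N + S) ≤ T' := by
      have hn2 : N + S ≤ 2 ^ (6 * n ^ (D + 2)) := by
        have h3 : 2 ^ (4 * n ^ (D + 1)) ≤ 2 ^ (4 * n ^ (D + 2)) :=
          Nat.pow_le_pow_right (by norm_num) (by
            have := Nat.pow_le_pow_right hn1 (by omega : D + 1 ≤ D + 2)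
            omega)
        have h4 : 2 ^ n ^ (D + 2) ≤ 2 ^ (4 * n ^ (D + 2)) :=
          Nat.pow_le_pow_right (by norm_num) (by omega)
        have h5 : 2 * 2 ^ (4 * n ^ (D + 2)) = 2 ^ (4 * n ^ (D + 2) + 1) := by
          rw [pow_succ]
          ring
        have h6 : 2 ^ (4 * n ^ (D + 2) + 1) ≤ 2 ^ (6 * n ^ (D + 2)) :=
          Nat.pow_le_pow_right (by norm_num) (by omega)
        omega
      have h3 := MP_92db0f_lc_gold.eval_two_pow T (N + S) _ hn2
      rw [← ha, ← hg] at h3
      have h4 : a + 6 * n ^ (D + 2) * g + 1 ≤ n ^ (D + 3) := by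
        have h5 : n ^ (D + 2) * (a + 1 + 9 * g) ≤ n ^ (D + 2) * n :=
          Nat.mul_le_mul_left _ (by omega)
        rw [hpk2] at h5
        have h6 : n ^ (D + 2) * (a + 1 + 9 * g) = a * n ^ (D + 2) + n ^ (D + 2) +
          6 * n ^ (D + 2) * g + 3 * (n ^ (D + 2) * g) := by ring
        have h7 : a ≤ a * n ^ (D + 2) := Nat.le_mul_of_pos_right _ (by omega)
        omega
      have h5 : 2 ^ (a + 6 * n ^ (D + 2) * g + 1) ≤ 2 ^ n ^ (D + 3) :=
        Nat.pow_le_pow_right (by norm_num) h4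
      have h6 : 1 ≤ 2 ^ (a + 6 * n ^ (D + 2) * g) := Nat.one_le_pow _ _ (by norm_num)
      rw [pow_succ] at h5
      omega
    rw [← hN] at h1
    cases h3 : W (X, (v, P))
    · rw [h3] at h1
      rw [Bool.eq_false_iff]
      intro h5
      exact absurd (h1.1 h5) (by simp)
    · rw [h3] at h1
      exact h1.2 rfl hle1 hle2
  -- the contradiction
  have hne : {k | GoodIR O D z ℓ n k}.Nonempty := by
    obtain ⟨k, _, hk⟩ := exists_goodR O D z ℓ n
    exact ⟨k, hk⟩
  have hgood : GoodIR O D z ℓ n (sInf {k | GoodIR O D z ℓ n k}) := Nat.sInf_mem hne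
  have hbn : (b n).length ≤ n ^ (D + 1) := (hb n).trans (by omega)
  obtain ⟨i, hi, h⟩ := hgood (b n) hbn
  have hu : (str (2 ^ ℓ - 1 + i)).length = ℓ := length_str_eq (by omega)
  have hX : (testI z ℓ i).length = n := by
    unfold testI
    rw [length_encPair, hu]
    omega
  rw [hmach _ _ hX hbn] at h
  have h1 := hL (testI z ℓ i) (2 ^ n ^ (D + 1) - 1) (by rw [hX]; exact c2')
  rw [hX] at h1
  have h2 : testI z ℓ i ∈ LDR O D ↔
      (str (sInf {k | GoodIR O D z ℓ n k})).getD i false = true := by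
    unfold testI
    rw [mem_LDR_iff]
    unfold GIR
    have h3 : (encPair (z, str (2 ^ ℓ - 1 + i))).length = n := hX
    rw [h3, hu, vl_str, Nat.add_sub_cancel_left]
  apply h
  rw [Bool.eq_iff_iff, ← h1, h2]

end Pool.Agent.LCB
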