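import Pool.Agent.LCB.RelVer

/-!
For every oracle: `NEXP` is not contained in polynomial time with an oracle in `NP` whose complement
has short proofs with few bits of advice.
-/

set_option autoImplicit false
set_option linter.unusedSectionVars false

namespace Pool.Agent.LCB

open Turing Computability Lib.helper60 Function
open MP_92db0f_lc hiding answers InNEXP mkC length_mkC PT_mkC answers_take length_answers KL
  KL_complete KL_mem
open MP_92db0f_lc_alg (answers PolyTime InNEXP join)
open MP_92db0f_lc_gold (OPT Meas pbMeas natPB gen length_gen length_answers answers_take KL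
  KL_complete KL_mem)
open MP_92db0f_lc_thr (nthC mkC nthC_mkC length_mkC PT_nthC PT_of_TM2 PT_of_TM2' PT_encz padTo
  length_padTo unpair_padTo PT_padTo PT_encPair')

lemma add_le_two_pow {x y a b : ℕ} (hx : x ≤ 2 ^ a) (hy : y ≤ 2 ^ b) : x + y ≤ 2 ^ (a + b + 1) := by
  have h1 : 2 ^ a ≤ 2 ^ (a + b) := Nat.pow_le_pow_right (by norm_num) (by omega)
  have h2 : 2 ^ b ≤ 2 ^ (a + b) := Nat.pow_le_pow_right (by norm_num) (by omega)
  rw [pow_succ]
  omega

lemma mul_le_two_pow {x y a b : ℕ} (hx : x ≤ 2 ^ a) (hy : y ≤ 2 ^ b) : x * y ≤ 2 ^ (a + b) := by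
  rw [pow_add]
  exact Nat.mul_le_mul hx hy

/-- the number of the queries to the second oracle -/
lemma length_tau_eq (A : Set (List Bool)) (q : (List Bool × List Bool) × List Bool → List Bool)
    (xa : List Bool × List Bool) (N : ℕ) : (tau A q xa N).length =
      {i : ℕ | i < N ∧ ∃ Q : List Bool, q (xa, answers A q xa i) = true :: Q}.ncard := by
  classical
  unfold tau
  rw [List.length_map]
  have h1 : ((List.range N).filter fun j => (q (xa, answers A q xa j)).headD false).length =
      ((Finset.range N).filter fun j => (q (xa, answers A q xa j)).headD false = true).card := by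
    induction N with
    | zero => rfl
    | succ N ih =>
      rw [List.range_succ, List.filter_append, List.length_append, ih, Finset.range_add_one,
        Finset.filter_insert]
      cases h : (q (xa, answers A q xa N)).headD false
      · rw [List.filter_cons_of_neg (by rw [h]; decide)]
        simp
      · rw [List.filter_cons_of_pos (by rw [h])]
        simp
  rw [h1, ← Set.ncard_coe_finset]
  congr 1
  ext i
  simp only [Finset.coe_filter, Finset.mem_range, Set.mem_setOf_eq]
  refine and_congr_right fun _ => ?_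
  rcases q (xa, answers A q xa i) with _ | ⟨b, w⟩
  · simp
  · cases b <;> simp

/-- the next answer is appended -/
lemma GoodS.append {A : Set (List Bool)} {q : (List Bool × List Bool) × List Bool → List Bool}
    {d : (List Bool × List Bool) × List Bool → Bool} {xa : List Bool × List Bool} {N : ℕ}
    {σ : List Bool} (h : GoodS A q xa N σ) {b : Bool} (hb : b = true ↔ NextOK A q d xa N σ) :
    GoodS A q xa N (σ ++ [b]) := by
  intro i hi1 hi2
  rw [List.length_append, List.length_singleton] at hi1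
  by_cases h1 : i < σ.length
  · rw [List.getD_append _ _ _ _ h1]
    exact h i h1 hi2
  · have h2 : i = σ.length := by omega
    subst h2
    rw [List.getD_append_right _ _ _ _ le_rfl, Nat.sub_self, List.getD_cons_zero,
      Bool.eq_iff_iff, hb]
    unfold NextOK
    constructor
    · rintro (⟨-, h3⟩ | ⟨h3, -⟩)
      · exact h3
      · omega
    · intro h3
      exact Or.inl ⟨hi2, h3⟩

/-- the instance of the complete language -/
def instR (u : List Bool) (K Λ : ℕ) (x a s σ : List Bool) : List Bool :=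
  encPair (u, encPair (padTo Λ (encPair (x, encPair (a, encPair (s, σ)))),
    List.replicate (K * (Λ + 1)) true))

lemma length_instR {u : List Bool} {K Λ : ℕ} {x a s σ : List Bool}
    (h : 2 * (2 * x.length + 2 + (2 * a.length + 2 + (2 * s.length + 2 + σ.length))) + 2 ≤ Λ) :
    (instR u K Λ x a s σ).length = 2 * u.length + 2 + (2 * Λ + 2 + K * (Λ + 1)) := by
  unfold instR
  rw [length_encPair, length_encPair, length_padTo (by
    rw [length_encPair, length_encPair, length_encPair]
    exact h), List.length_replicate]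

/-- **The main step.** -/
theorem ear_of_adv {O S T L : Set (List Bool)} {t a : ℕ → ℕ} {c e : ℕ}
    (hK : InEAR O e (KL O)) (hS : InNP O S) (hT : InNP O T)
    (hS' : InNAdv O (fun n => 2 ^ t n) a Sᶜ) (ht : Subpoly t) (ha : Subpoly a)
    (hL : InPFew c (join O S) T L) : InEAR O ((c + 2) * e + (c + 3)) L := by
  classical
  obtain ⟨rS, pR, hrS, hSc⟩ := exists_cert hS
  obtain ⟨rT, pT, hrT, hTc⟩ := exists_cert hT
  obtain ⟨RV, α, hRV, hα, hSV₀⟩ := hS'
  obtain ⟨V₀, hV₀, hRV₀⟩ := OPT_of_polyTime PT_encz hRV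
  obtain ⟨q, d, αL, P, CL, hq, hd, hαL, hx⟩ := hL
  have hq := PT_of_TM2 PT_encz hq
  have hd := PT_of_TM2' PT_encz hd
  obtain ⟨WK, bK, CK, hWK, hbK, hKL⟩ := hK
  obtain ⟨R, hR⟩ : ∃ R : (List Bool × List Bool) × List Bool → Bool,
    R = fun z => rS (z.1.1, z.2) := ⟨_, rfl⟩
  have hRO : OPT O R := by
    rw [hR]
    exact hrS.comp_PT (PT.pair PT.fst.p1 PT.snd)
  have hSR : ∀ Q : List Bool, Q ∈ S ↔
      ∃ w : List Bool, w.length ≤ pR.eval Q.length ∧ R ((Q, []), w) = true := by
    intro Q
    rw [hSc Q, hR]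
  -- the length of the certificates as a part of the advice
  obtain ⟨V, hVdef⟩ : ∃ V : (List Bool × List Bool) × List Bool → Bool, V = fun z =>
      V₀ ((z.1.1, (unpair z.1.2).1), z.2) &&
        decide (z.2.length - 1 ≤ p2 z.2.length (vlc (z.2.length + 1) (unpair z.1.2).2)) := ⟨_, rfl⟩
  have hVO : OPT O V := by
    rw [hVdef]
    have u : PT (fun z : (List Bool × List Bool) × List Bool => unpair z.1.2) :=
      PT_unpair.comp PT.fst.p2
    refine (hV₀.comp_PT (PT.pair (PT.pair PT.fst.p1 u.p1) PT.snd)).band (OPT.of_PT ?_)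
    exact PT.nle (PT.npred (PT.length PT.snd)) (PT_p2 (PT.length PT.snd)
      (PT_vlc (PT.nsucc (PT.length PT.snd)) u.p2))
  obtain ⟨β, hβ⟩ : ∃ β : ℕ → List Bool, ∀ ℓ, β ℓ = encPair (α ℓ, str (t ℓ)) := ⟨_, fun _ => rfl⟩
  have hV1 : ∀ Q w : List Bool, V ((Q, β Q.length), w) = true ↔
      V₀ ((Q, α Q.length), w) = true ∧ w.length ≤ 2 ^ t Q.length := by
    intro Q w
    rw [hVdef]
    dsimp only
    rw [hβ, unpair_enc, Bool.and_eq_true, decide_eq_true_eq, le_p2, vlc_eq, vl_str]
    refine and_congr_right fun _ => ?_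
    rcases le_total (w.length + 1) (t Q.length) with h | h
    · rw [min_eq_left h]
      have h1 : w.length < 2 ^ w.length := Nat.lt_two_pow_self
      have h2 : 2 ^ w.length ≤ 2 ^ (w.length + 1) := Nat.pow_le_pow_right (by norm_num) (by omega)
      have h3 : 2 ^ (w.length + 1) ≤ 2 ^ t Q.length := Nat.pow_le_pow_right (by norm_num) h
      omega
    · rw [min_eq_right h]
  have hSV : ∀ Q : List Bool, Q ∈ Sᶜ ↔ ∃ w : List Bool, V ((Q, β Q.length), w) = true := by
    intro Q
    rw [hSV₀ Q]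
    refine exists_congr fun w => ?_
    rw [hV1, ← hRV₀]
    exact and_comm
  -- the length of the queries
  obtain ⟨B, hB⟩ := query_bound hq
  obtain ⟨k₀, hk₀⟩ := poly_le_pow_add (B.comp (Polynomial.X + (Polynomial.X ^ c +
    Polynomial.C CL) + P))
  have hlen₀ : ∀ x : List Bool, ∀ i ≤ P.eval x.length, (q ((x, αL x.length),
      answers (join (join O S) T) q (x, αL x.length) i)).length ≤ x.length ^ k₀ + k₀ := by
    intro x i hi
    have h1 := hB x (αL x.length) (answers (join (join O S) T) q (x, αL x.length) i)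
      (x.length + (x.length ^ c + CL) + P.eval x.length) (by
        rw [length_answers]
        have := hαL x.length
        omega)
    have h2 := hk₀ x.length
    simp only [Polynomial.eval_comp, Polynomial.eval_add, Polynomial.eval_X, Polynomial.eval_pow,
      Polynomial.eval_C] at h2
    omega
  -- the length of the advice strings
  obtain ⟨Ca, hCa⟩ := subpoly_bound ha k₀
  obtain ⟨Ct, hCt⟩ := subpoly_bound ht k₀
  obtain ⟨C, hC⟩ : ∃ C, C = 2 * Ca + Ct + 2 := ⟨_, rfl⟩
  have hC1 : ∀ n ℓ, ℓ ≤ n ^ k₀ + k₀ → (β ℓ).length ≤ C * (n + 1) ∧ t ℓ ≤ C * (n + 1) := by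
    intro n ℓ hℓ
    have h1 := hCa n ℓ hℓ
    have h2 := hCt n ℓ hℓ
    have h3 := hα ℓ
    have h4 := MP_92db0f_lc.length_str_le_self (t ℓ)
    have h5 : C * (n + 1) = 2 * (Ca * (n + 1)) + Ct * (n + 1) + 2 * (n + 1) := by rw [hC]; ring
    rw [hβ, length_encPair, h5]
    omega
  -- the bound for the refuted advice strings
  obtain ⟨k, hk⟩ := poly_le_pow_add (2 * (Polynomial.X ^ k₀ + Polynomial.C k₀) + 2 +
    Polynomial.C C * (Polynomial.X + 1))
  have hk' : ∀ n, 2 * (n ^ k₀ + k₀) + 2 + C * (n + 1) ≤ n ^ k + k := by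
    intro n
    have := hk n
    simpa using this
  obtain ⟨κ₁, hκ₁⟩ := exists_poly_le (Polynomial.X ^ k + Polynomial.C k + 1)
  have hκ₁' : ∀ n, n ^ k + k + 1 ≤ 2 ^ (κ₁ + n) := by
    intro n
    have := hκ₁ n
    simpa using this
  obtain ⟨κ₂, hκ₂⟩ := exists_poly_le
    (2 * (2 * (Polynomial.X ^ k + Polynomial.C k) + 2 +
      (2 * (Polynomial.X ^ k + Polynomial.C k) + 2 +
      (2 * pR.comp (Polynomial.X ^ k + Polynomial.C k) + 2))) + 2)
  have hκ₂' : ∀ n, 2 * (2 * (n ^ k + k) + 2 + (2 * (n ^ k + k) + 2 +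
      (2 * pR.eval (n ^ k + k) + 2))) + 2 ≤ 2 ^ (κ₂ + n) := by
    intro n
    have := hκ₂ n
    simpa [Polynomial.eval_comp] using this
  obtain ⟨κ₃, hκ₃⟩ := exists_poly_le (2 * (pT.comp (Polynomial.X ^ k + Polynomial.C k) +
    (pR.comp (Polynomial.X ^ k + Polynomial.C k) +
    (2 * (Polynomial.C C * (Polynomial.X + 1)) + 2))) + 2)
  have hκ₃' : ∀ n, 2 * (pT.eval (n ^ k + k) + (pR.eval (n ^ k + k) + (2 * (C * (n + 1)) + 2))) +
      2 ≤ 2 ^ (κ₃ + n) := by
    intro n
    have := hκ₃ n
    simpa [Polynomial.eval_comp] using this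
  obtain ⟨κ₄, hκ₄⟩ := exists_poly_le (2 * P + 4)
  have hκ₄' : ∀ n, 2 * P.eval n + 4 ≤ 2 ^ (κ₄ + n) := by
    intro n
    have := hκ₄ n
    simpa using this
  -- the census
  obtain ⟨s, hs⟩ : ∃ s : ℕ → List Bool, ∀ n, s n =
    str (DE R V pR (n ^ k + k) (C * (n + 1))).ncard := ⟨_, fun _ => rfl⟩
  have hD : ∀ n, (DE R V pR (n ^ k + k) (C * (n + 1))).ncard ≤
      2 ^ (κ₁ + n + (C * (n + 1) + 1)) := fun n => (ncard_DE _ _).trans
        (mul_le_two_pow (hκ₁' n) le_rfl)
  have hsl : ∀ n, (s n).length ≤ κ₁ + n + (C * (n + 1) + 1) + 1 := by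
    intro n
    rw [hs]
    exact length_str_le (hD n)
  -- the length of the instances
  obtain ⟨Z, hZ⟩ : ∃ Z, Z = 60 * (κ₁ + κ₂ + κ₃ + κ₄ + C + CL + 1) := ⟨_, rfl⟩
  obtain ⟨Λ, hΛ⟩ : ∃ Λ : ℕ → ℕ, ∀ n, Λ n = Z * (n + 1) ^ (c + 1) := ⟨_, fun _ => rfl⟩
  have hbig : ∀ n, 60 * (n + 1) ^ (c + 1) + 60 * n ^ c +
      60 * ((κ₁ + κ₂ + κ₃ + κ₄ + C + CL) * (n + 1)) ≤ 2 * Λ n ∧
      n + 1 ≤ (n + 1) ^ (c + 1) := by
    intro n
    have h1 : n ^ c ≤ (n + 1) ^ (c + 1) :=
      (Nat.pow_le_pow_left (Nat.le_succ n) _).trans (Nat.pow_le_pow_right (by omega) (by omega))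
    have h2 : n + 1 ≤ (n + 1) ^ (c + 1) := Nat.le_self_pow (by omega) _
    have h3 := Nat.mul_le_mul_left (κ₁ + κ₂ + κ₃ + κ₄ + C + CL) h2
    have h4 : 2 * Λ n = 120 * ((κ₁ + κ₂ + κ₃ + κ₄ + C + CL) * (n + 1) ^ (c + 1)) +
      120 * (n + 1) ^ (c + 1) := by rw [hΛ, hZ]; ring
    refine ⟨?_, h2⟩
    omega
  have hfit : ∀ n, 30 * (n ^ c) + 30 * (n + 1) + 30 * (κ₁ + κ₂ + κ₃ + κ₄ + C + CL) +
      30 * (C * n) ≤ Λ n := by
    intro n
    obtain ⟨h1, h2⟩ := hbig n
    have h3 : (κ₁ + κ₂ + κ₃ + κ₄ + C + CL) * (n + 1) =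
      C * n + (κ₁ + κ₂ + κ₃ + κ₄ + CL) * n + (κ₁ + κ₂ + κ₃ + κ₄ + C + CL) := by ring
    omega
  -- the verifier
  have hGB := OPT_GB (pR := pR) (pT := pT) hRO hVO hrT hq hd P C k
  obtain ⟨u, K, hKc⟩ := KL_complete hGB 0
  have hnext : ∀ (x σ : List Bool), σ.length ≤ x.length ^ c + CL + 1 →
      GoodS (join (join O S) T) q (x, αL x.length) (P.eval x.length) σ →
      (instR u K (Λ x.length) x (αL x.length) (s x.length) σ ∈ KL O ↔
        NextOK (join (join O S) T) q d (x, αL x.length) (P.eval x.length) σ) := by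
    intro x σ hσl hσ
    have hlenX : 2 * (2 * x.length + 2 + (2 * (αL x.length).length + 2 +
        (2 * (s x.length).length + 2 + σ.length))) + 2 ≤ Λ x.length := by
      have h1 := hfit x.length
      have h2 := hαL x.length
      have h3 := hsl x.length
      have h4 : C * (x.length + 1) = C * x.length + C := by ring
      omega
    obtain ⟨w, hw⟩ : ∃ w, w = padTo (Λ x.length) (encPair (x, encPair (αL x.length,
      encPair (s x.length, σ)))) := ⟨_, rfl⟩
    have hwl : w.length = Λ x.length := by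
      rw [hw, length_padTo]
      rw [length_encPair, length_encPair, length_encPair]
      exact hlenX
    have h1 := hKc w
    rw [hwl, Nat.add_zero] at h1
    have h2 : instR u K (Λ x.length) x (αL x.length) (s x.length) σ =
        encPair (u, encPair (w, List.replicate (K * (Λ x.length + 1)) true)) := by
      unfold instR
      rw [hw]
    rw [h2, h1]
    have hGBw : ∀ y : List Bool, GB O R V rT pR pT q d P C k (w, y) =
        GBp O R V rT pR pT q d P C k x (αL x.length) (s x.length) σ (unpair y).1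
          (unpair (unpair y).2).1 (unpair (unpair y).2).2 := by
      intro y
      unfold GB
      dsimp only
      rw [hw, unpair_padTo]
      simp only [unpair_enc]
    have hvs : vl (s x.length) = (DE R V pR (x.length ^ k + k) (C * (x.length + 1))).ncard := by
      rw [hs, vl_str]
    have hlen : ∀ i < P.eval x.length, 2 * (q ((x, αL x.length),
        answers (join (join O S) T) q (x, αL x.length) i)).length + 2 + C * (x.length + 1) ≤
          x.length ^ k + k := by
      intro i hi
      have h3 := hlen₀ x i hi.le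
      have h4 := hk' x.length
      omega
    constructor
    · rintro ⟨y, -, hy⟩
      rw [hGBw] at hy
      exact GBp_sound hSR hTc hσ hvs hlen hy
    · intro h
      obtain ⟨y₁, v, y₂, b1, b2, b3, b4⟩ := GBp_complete hSR hSV hTc hσ hvs hlen (by
        intro i hi Q hQ
        have h3 := hlen₀ x i hi.le
        rw [hQ, List.length_cons, List.length_cons] at h3
        obtain ⟨h4, h5⟩ := hC1 x.length Q.length (by omega)
        refine ⟨h4, fun w hw => ?_⟩
        exact ((hV1 _ _).1 hw).2.trans (Nat.pow_le_pow_right (by norm_num) h5)) h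
      refine ⟨encPair (y₁, encPair (v, y₂)), ?_, ?_⟩
      · rw [length_encPair, length_encPair]
        obtain ⟨m, hm⟩ : ∃ m, m = C * (x.length + 1) := ⟨_, rfl⟩
        obtain ⟨M, hM⟩ : ∃ M, M = x.length ^ k + k := ⟨_, rfl⟩
        have g1 := hκ₁' x.length
        have g2 := hκ₂' x.length
        have g3 := hκ₃' x.length
        have g4 := hκ₄' x.length
        have g5 := hD x.length
        rw [← hM] at g1 g2 g3 g5
        rw [← hm] at g3 g5
        rw [← hM, ← hm] at b1 b3
        have e1 : 2 * (2 * M + 2 + (2 * M + 2 + (2 * pR.eval M + 2 + 2 ^ m))) + 2 ≤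
            2 ^ (κ₂ + x.length + (m + 1) + 1) := by
          have h1 := add_le_two_pow g2 (le_refl (2 ^ (m + 1)))
          rw [pow_succ 2 m] at h1
          omega
        have e2 : 2 * y₁.length ≤
            2 ^ (1 + (κ₁ + x.length + (m + 1) + (κ₂ + x.length + (m + 1) + 1))) :=
          (Nat.mul_le_mul_left 2 b1).trans (mul_le_two_pow (by norm_num) (mul_le_two_pow g5 e1))
        have e3 : 2 * (pT.eval M + (pR.eval M + (2 * m + 2 + 2 ^ m))) + 2 ≤
            2 ^ (κ₃ + x.length + (m + 1) + 1) := by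
          have h1 := add_le_two_pow g3 (le_refl (2 ^ (m + 1)))
          rw [pow_succ 2 m] at h1
          omega
        have e4 : y₂.length ≤ 2 ^ (κ₄ + x.length + (κ₃ + x.length + (m + 1) + 1)) :=
          b3.trans (mul_le_two_pow (by omega) e3)
        have e5 := add_le_two_pow (add_le_two_pow e2 g4) e4
        have e6 : 2 * y₁.length + 2 + (2 * v.length + 2 + y₂.length) ≤
            2 * y₁.length + (2 * P.eval x.length + 4) + y₂.length := by
          rw [b2]
          omega
        refine (e6.trans e5).trans (Nat.pow_le_pow_right (by norm_num) ?_)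
        have h6 := hfit x.length
        have h7 : m = C * x.length + C := by rw [hm]; ring
        omega
      · rw [hGBw]
        simp only [unpair_enc]
        exact b4
  -- the length of the instances of the complete language
  obtain ⟨ρ, hρ⟩ : ∃ ρ : ℕ → ℕ, ∀ n, ρ n = 2 * u.length + 2 + (2 * Λ n + 2 + K * (Λ n + 1)) :=
    ⟨_, fun _ => rfl⟩
  obtain ⟨Z₁, hZ₁⟩ : ∃ Z₁, Z₁ = 2 * u.length + 4 + 2 * Z + K * (Z + 1) + CK := ⟨_, rfl⟩
  have hρ1 : ∀ n, ρ n + CK ≤ (n + (Z₁ + 1)) ^ (c + 2) := by
    intro n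
    have h1 : 1 ≤ (n + 1) ^ (c + 1) := Nat.one_le_pow _ _ (by omega)
    have h2 : ρ n + CK ≤ Z₁ * (n + 1) ^ (c + 1) := by
      have h3 : Z₁ * (n + 1) ^ (c + 1) = 2 * u.length * (n + 1) ^ (c + 1) + 4 * (n + 1) ^ (c + 1) +
          2 * (Z * (n + 1) ^ (c + 1)) + K * (Z * (n + 1) ^ (c + 1) + (n + 1) ^ (c + 1)) +
          CK * (n + 1) ^ (c + 1) := by
        rw [hZ₁]
        ring
      have h4 : 2 * u.length ≤ 2 * u.length * (n + 1) ^ (c + 1) :=
        Nat.le_mul_of_pos_right _ (by omega)
      have h5 : CK ≤ CK * (n + 1) ^ (c + 1) := Nat.le_mul_of_pos_right _ (by omega)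
      have h6 : K * (Λ n + 1) ≤ K * (Z * (n + 1) ^ (c + 1) + (n + 1) ^ (c + 1)) :=
        Nat.mul_le_mul_left _ (by rw [hΛ]; omega)
      have h7 := hΛ n
      rw [h3, hρ]
      omega
    have h3 : Z₁ * (n + 1) ^ (c + 1) ≤ (n + (Z₁ + 1)) * (n + (Z₁ + 1)) ^ (c + 1) :=
      Nat.mul_le_mul (by omega) (Nat.pow_le_pow_left (by omega) _)
    have h4 : (n + (Z₁ + 1)) * (n + (Z₁ + 1)) ^ (c + 1) = (n + (Z₁ + 1)) ^ (c + 2) := by
      rw [pow_succ _ (c + 1), Nat.mul_comm]
    omega
  obtain ⟨C', hC'⟩ : ∃ C', C' = 2 * Z + Z₁ + 5 := ⟨_, rfl⟩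
  have hρ2 : ∀ n, (ρ n + CK) ^ e ≤ (n + C') ^ ((c + 2) * e) := by
    intro n
    calc (ρ n + CK) ^ e ≤ ((n + (Z₁ + 1)) ^ (c + 2)) ^ e := Nat.pow_le_pow_left (hρ1 n) _
      _ = (n + (Z₁ + 1)) ^ ((c + 2) * e) := (pow_mul _ _ _).symm
      _ ≤ _ := Nat.pow_le_pow_left (by omega) _
  have hρ3 : ∀ n, (ρ n + CK) ^ e ≤ (n + C') ^ ((c + 2) * e + (c + 3)) := fun n =>
    (hρ2 n).trans (Nat.pow_le_pow_right (by omega) (by omega))
  -- the computation
  obtain ⟨Bs, hBs⟩ : ∃ Bs : (List Bool × (List Bool × ℕ)) × List Bool → Bool, Bs = fun y =>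
    WK (instR u K (Λ y.1.1.length) y.1.1 (unpair y.1.2.1).1 (unpair (unpair y.1.2.1).2).1 y.2,
      ((unpair (unpair y.1.2.1).2).2, y.1.2.2)) := ⟨_, rfl⟩
  have hBsO : OPT O Bs := by
    rw [hBs]
    have u1 : PT (fun y : (List Bool × (List Bool × ℕ)) × List Bool => unpair y.1.2.1) :=
      PT_unpair.comp PT.fst.p2.p1
    have u2 : PT (fun y : (List Bool × (List Bool × ℕ)) × List Bool =>
        unpair (unpair y.1.2.1).2) := PT_unpair.comp u1.p2
    have hx' : PT (fun y : (List Bool × (List Bool × ℕ)) × List Bool => y.1.1) := PT.fst.p1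
    have hΛ' : PT (fun y : (List Bool × (List Bool × ℕ)) × List Bool => Λ y.1.1.length) :=
      (PT.nmul (PT.const Z) (PT_npow (PT.nsucc (PT.length hx')) (c + 1))).congr
        fun y => (hΛ _).symm
    refine hWK.comp_PT (PT.pair ?_ (PT.pair u2.p2 PT.fst.p2.p2))
    unfold instR
    exact PT_encPair (PT.const u) (PT_encPair (PT_padTo hΛ' (PT_encPair hx' (PT_encPair u1.p1
      (PT_encPair u2.p1 PT.snd)))) (PT.replicate (PT.nmul (PT.const K) (PT.nsucc hΛ'))
        (PT.const true)))
  refine ⟨fun w => (gen Bs w (w.1.length ^ c + CL + 1)).reverse.headD false,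
    fun n => encPair (αL n, encPair (s n, bK (ρ n))), C', ?_, ?_, ?_⟩
  · have h2 := (OPT.gen hBsO).comp_PT (h := fun w : List Bool × (List Bool × ℕ) =>
      (w, w.1.length ^ c + CL + 1)) (PT.pair PT.id (PT.nsucc (PT.nadd (PT_npow
        (PT.length PT.fst) c) (PT.const CL))))
    exact h2.map (h := fun l : List Bool => l.reverse.headD false)
      (PT.headD (PT.reverse PT.id) (PT.const false))
  · intro n
    rw [length_encPair, length_encPair]
    have h1 := hαL n
    have h2 := hsl n
    have h3 := hbK (ρ n)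
    have h4 := hρ2 n
    have h5 := hfit n
    have h6 : C * (n + 1) = C * n + C := by ring
    obtain ⟨y, hy⟩ : ∃ y, y = n + C' := ⟨_, rfl⟩
    have h7 : Λ n ≤ y ^ (c + 2) := by
      rw [hΛ]
      have h8 : Z * (n + 1) ^ (c + 1) ≤ y * y ^ (c + 1) :=
        Nat.mul_le_mul (by omega) (Nat.pow_le_pow_left (by omega) _)
      have h9 : y * y ^ (c + 1) = y ^ (c + 2) := by rw [pow_succ _ (c + 1), Nat.mul_comm]
      omega
    rw [← hy] at h4 ⊢
    have h8 : y ^ (c + 2) ≤ y ^ ((c + 2) * e + (c + 2)) :=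
      Nat.pow_le_pow_right (by omega) (by omega)
    have h9 : y ^ ((c + 2) * e) ≤ y ^ ((c + 2) * e + (c + 2)) :=
      Nat.pow_le_pow_right (by omega) (by omega)
    have h10 : 2 * y ^ ((c + 2) * e + (c + 2)) ≤ y ^ ((c + 2) * e + (c + 3)) := by
      have h11 : y ^ ((c + 2) * e + (c + 3)) = y * y ^ ((c + 2) * e + (c + 2)) := by
        rw [← Nat.add_assoc, pow_succ, Nat.mul_comm]
        rfl
      rw [h11]
      exact Nat.mul_le_mul_right _ (by omega)
    omega
  · intro x N hN
    dsimp only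
    obtain ⟨w, hw⟩ : ∃ w : List Bool × (List Bool × ℕ), w = (x, (encPair (αL x.length,
      encPair (s x.length, bK (ρ x.length))), N)) := ⟨_, rfl⟩
    rw [← hw]
    have hbit : ∀ σ : List Bool, σ.length ≤ x.length ^ c + CL + 1 →
        GoodS (join (join O S) T) q (x, αL x.length) (P.eval x.length) σ →
        (Bs (w, σ) = true ↔
          NextOK (join (join O S) T) q d (x, αL x.length) (P.eval x.length) σ) := by
      intro σ h1 h2
      rw [← hnext x σ h1 h2, hBs, hw]
      simp only [unpair_enc]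
      have h3 : (instR u K (Λ x.length) x (αL x.length) (s x.length) σ).length = ρ x.length := by
        rw [hρ]
        apply length_instR
        have h4 := hfit x.length
        have h5 := hαL x.length
        have h6 := hsl x.length
        have h7 : C * (x.length + 1) = C * x.length + C := by ring
        omega
      have h4 := hKL (instR u K (Λ x.length) x (αL x.length) (s x.length) σ) N (by
        rw [h3]
        exact (Nat.pow_le_pow_right (by norm_num) (hρ3 x.length)).trans hN)
      rw [h3] at h4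
      exact h4.symm
    have hgood : ∀ i ≤ x.length ^ c + CL + 1, GoodS (join (join O S) T) q (x, αL x.length)
        (P.eval x.length) (gen Bs w i) := by
      intro i
      induction i with
      | zero =>
        intro _ h h1 _
        exact absurd h1 (by simp [gen])
      | succ i ih =>
        intro hi
        have h1 := ih (by omega)
        rw [gen]
        exact h1.append (hbit _ (by rw [length_gen]; omega) h1)
    have hF := hgood (x.length ^ c + CL) (by omega)
    have hlast := hbit _ (by rw [length_gen]; omega) hF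
    have htau := (hx x).1
    rw [← length_tau_eq] at htau
    rw [gen, List.reverse_append]
    change _ ↔ Bs (w, gen Bs w (x.length ^ c + CL)) = true
    rw [hlast, (hx x).2]
    unfold NextOK
    rw [length_gen]
    constructor
    · intro h
      exact Or.inr ⟨htau, h⟩
    · rintro (⟨h, -⟩ | ⟨-, h⟩)
      · omega
      · exact h

/-- **The lower bound.** -/
theorem lower_bound (O : Set (List Bool)) (c : ℕ) : ∃ L, InNEXP O L ∧
    ∀ (S T : Set (List Bool)) (t a : ℕ → ℕ), InNP O S → InNP O T →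
      InNAdv O (fun n => 2 ^ t n) a Sᶜ → Subpoly t → Subpoly a → ¬ InPFew c (join O S) T L := by
  by_contra hcon
  push Not at hcon
  have hNE : InNEXP O (KL O) := by
    refine ⟨1, fun p => MP_92db0f_lc_gold.VK O p = true,
      MP_92db0f_lc_gold.OPT.polyTime (MP_92db0f_lc_gold.OPT_VK O), fun z => ?_⟩
    rw [pow_one]
    unfold KL
    rw [Set.mem_setOf_eq, one_mul]
  obtain ⟨S, T, t, a, hS, hT, -, -, -, hL⟩ := hcon (KL O) hNE
  obtain ⟨e, he⟩ := ear_of_few hS hT hL
  obtain ⟨S, T, t, a, hS, hT, hS', ht, ha, hL⟩ :=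
    hcon (LDR O ((c + 2) * e + (c + 3))) (LDR_mem O _)
  exact LDR_not O _ (ear_of_adv he hS hT hS' ht ha hL)

end Pool.Agent.LCB
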