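import Pool.Agent.LCB.RelCens

/-!
The verifier for the answers of an oracle in `NP` whose complement has short proofs with few bits of
advice, in a computation that has a second oracle.
-/

set_option autoImplicit false
set_option linter.unusedSectionVars false

namespace Pool.Agent.LCB

open Turing Computability Lib.helper60 Function
open MP_92db0f_lc hiding answers InNEXP mkC length_mkC PT_mkC answers_take length_answers
open MP_92db0f_lc_alg (answers PolyTime InNEXP join)
open MP_92db0f_lc_mul (mem_join_false mem_join_true mem_join_nil)
open MP_92db0f_lc_gold (OPT Meas pbMeas natPB gen length_gen length_answers answers_take)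
open MP_92db0f_lc_thr (nthC mkC nthC_mkC length_mkC PT_nthC PT_of_TM2 PT_of_TM2' PT_encz)

/-- the number of the queries to the second oracle among the first `i` queries -/
def nT (q : (List Bool × List Bool) × List Bool → List Bool) (xa : List Bool × List Bool)
    (v : List Bool) (i : ℕ) : ℕ :=
  ((List.range i).filter fun j => (q (xa, v.take j)).headD false).length

section

variable (O : Set (List Bool)) (R V : (List Bool × List Bool) × List Bool → Bool)
  (rT : List Bool × List Bool → Bool) (pR pT : Polynomial ℕ)
  (q : (List Bool × List Bool) × List Bool → List Bool)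
  (d : (List Bool × List Bool) × List Bool → Bool)

/-- the test of the answer number `i` -/
noncomputable def stp (m : ℕ) (xa : List Bool × List Bool) (σ v y e : List Bool) (t i : ℕ) : Bool :=
  (!decide (nT q xa v i ≤ σ.length)) ||
  (bif (q (xa, v.take i)).headD false then
    (bif decide (nT q xa v i < σ.length) then
      decide (v.getD i false = σ.getD (nT q xa v i) false)
    else decide (e.length ≤ pT.eval (q (xa, v.take i)).tail.length) &&
      rT ((q (xa, v.take i)).tail, e))
  else bif (q (xa, v.take i)).tail.headD false then
    tst R V pR m (q (xa, v.take i)).tail.tail y e t (v.getD i false)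
  else decide (v.getD i false = ansO O (q (xa, v.take i))))

/-- the verifier -/
noncomputable def GBp (P : Polynomial ℕ) (C k : ℕ) (x a s σ y₁ v y₂ : List Bool) : Bool :=
  decide (v.length = P.eval x.length) &&
  (chkE R V pR (x.length ^ k + k) (C * (x.length + 1)) (vlc (y₁.length + 1) s) y₁ &&
  (((List.range v.length).all fun i => stp O R V rT pR pT q (C * (x.length + 1)) (x, a) σ v y₁
    (nthC y₂ i) (vlc (y₁.length + 1) s) i) &&
  (decide (σ.length < nT q (x, a) v v.length) || d ((x, a), v))))

/-- the verifier on codes -/
noncomputable def GB (P : Polynomial ℕ) (C k : ℕ) (z : List Bool × List Bool) : Bool :=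
  GBp O R V rT pR pT q d P C k (unpair (unpair z.1).1).1 (unpair (unpair (unpair z.1).1).2).1
    (unpair (unpair (unpair (unpair z.1).1).2).2).1 (unpair (unpair (unpair (unpair z.1).1).2).2).2
    (unpair z.2).1 (unpair (unpair z.2).2).1 (unpair (unpair z.2).2).2

end

/-! ### polynomial time -/

section

variable {O : Set (List Bool)} {R V : (List Bool × List Bool) × List Bool → Bool}
  {rT : List Bool × List Bool → Bool} {pR pT : Polynomial ℕ}
  {q : (List Bool × List Bool) × List Bool → List Bool}
  {d : (List Bool × List Bool) × List Bool → Bool}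

lemma PT_nT (hq : PT q) {α : Type} [DEnc α] {xa : α → List Bool × List Bool} {v : α → List Bool}
    {i : α → ℕ} (hxa : PT xa) (hv : PT v) (hi : PT i) : PT (fun z => nT q (xa z) (v z) (i z)) := by
  unfold nT
  exact PT.length (PT.filter (p := fun w : α × ℕ =>
    (q (xa w.1, (v w.1).take w.2)).headD false) (PT.range hi)
    (PT.headD (hq.comp (PT.pair (hxa.comp PT.fst) (PT_take PT.snd (hv.comp PT.fst))))
      (PT.const false)))

lemma OPT_stp (hR : OPT O R) (hV : OPT O V) (hT : OPT O rT) (hq : PT q) {α : Type} [DEnc α]
    [Meas α] {m : α → ℕ} {xa : α → List Bool × List Bool} {σ v y e : α → List Bool} {t i : α → ℕ}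
    (hm : PT m) (hxa : PT xa) (hσ : PT σ) (hv : PT v) (hy : PT y) (he : PT e) (ht : PT t)
    (hi : PT i) : OPT O (fun z => stp O R V rT pR pT q (m z) (xa z) (σ z) (v z) (y z) (e z) (t z)
      (i z)) := by
  unfold stp
  have hn := PT_nT hq hxa hv hi
  have hQ : PT (fun z => q (xa z, (v z).take (i z))) := hq.comp (PT.pair hxa (PT_take hi hv))
  have hb : PT (fun z => (v z).getD (i z) false) := PT.getD hv hi (PT.const false)
  refine (OPT.of_PT (PT.bnot (PT.nle hn (PT.length hσ)))).bor ?_
  refine OPT_cond (PT.headD hQ (PT.const false)) ?_ (OPT_cond (PT.headD (PT.tail hQ)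
    (PT.const false)) (OPT_tst pR hR hV (PT.tail (PT.tail hQ)) hy he ht hb hm) ?_)
  · refine OPT_cond (PT.nlt hn (PT.length hσ)) (OPT.of_PT (PT.beq hb (PT.getD hσ hn
      (PT.const false)))) ?_
    exact (OPT.of_PT (PT.nle (PT.length he) (PT_peval pT (PT.length (PT.tail hQ))))).band
      (hT.comp_PT (PT.pair (PT.tail hQ) he))
  · exact ((OPT.of_PT hb).pair (OPT_ansO hQ)).map (h := fun p : Bool × Bool => decide (p.1 = p.2))
      (PT.beq PT.fst PT.snd)

lemma OPT_GB (hR : OPT O R) (hV : OPT O V) (hT : OPT O rT) (hq : PT q) (hd : PT d)
    (P : Polynomial ℕ) (C k : ℕ) : OPT O (GB O R V rT pR pT q d P C k) := by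
  unfold GB GBp
  have u1 : PT (fun z : List Bool × List Bool => unpair (unpair z.1).1) :=
    PT_unpair.comp (PT_unpair.comp PT.fst).p1
  have hx := u1.p1
  have u2 : PT (fun z : List Bool × List Bool => unpair (unpair (unpair z.1).1).2) :=
    PT_unpair.comp u1.p2
  have ha := u2.p1
  have u3 : PT (fun z : List Bool × List Bool => unpair (unpair (unpair (unpair z.1).1).2).2) :=
    PT_unpair.comp u2.p2
  have hs := u3.p1
  have hσ := u3.p2
  have w1 : PT (fun z : List Bool × List Bool => unpair z.2) := PT_unpair.comp PT.snd
  have w2 : PT (fun z : List Bool × List Bool => unpair (unpair z.2).2) := PT_unpair.comp w1.p2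
  have hy1 := w1.p1
  have hv := w2.p1
  have hy2 := w2.p2
  have hxa : PT (fun z : List Bool × List Bool => ((unpair (unpair z.1).1).1,
      (unpair (unpair (unpair z.1).1).2).1)) := PT.pair hx ha
  have hm : PT (fun z : List Bool × List Bool => C * ((unpair (unpair z.1).1).1.length + 1)) :=
    PT.nmul (PT.const C) (PT.nsucc (PT.length hx))
  have ht : PT (fun z : List Bool × List Bool => vlc ((unpair z.2).1.length + 1)
      (unpair (unpair (unpair (unpair z.1).1).2).2).1) := PT_vlc (PT.nsucc (PT.length hy1)) hs
  refine (OPT.of_PT (PT.neq (PT.length hv) (PT_peval P (PT.length hx)))).band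
    ((OPT_chkE pR hR hV (PT.nadd (PT_npow (PT.length hx) k) (PT.const k)) hm ht hy1).band
      (OPT.band ?_ (OPT.of_PT (PT.bor (PT.nlt (PT.length hσ) (PT_nT hq hxa hv (PT.length hv)))
        (hd.comp (PT.pair hxa hv))))))
  refine MP_92db0f_lc_gold.OPT.all (p := fun w : (List Bool × List Bool) × ℕ =>
    stp O R V rT pR pT q (C * ((unpair (unpair w.1.1).1).1.length + 1))
      ((unpair (unpair w.1.1).1).1, (unpair (unpair (unpair w.1.1).1).2).1)
      (unpair (unpair (unpair (unpair w.1.1).1).2).2).2 (unpair (unpair w.1.2).2).1
      (unpair w.1.2).1 (nthC (unpair (unpair w.1.2).2).2 w.2)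
      (vlc ((unpair w.1.2).1.length + 1) (unpair (unpair (unpair (unpair w.1.1).1).2).2).1)
      w.2) ?_ (PT.length hv)
  exact OPT_stp hR hV hT hq (hm.comp PT.fst) (hxa.comp PT.fst) (hσ.comp PT.fst) (hv.comp PT.fst)
    (hy1.comp PT.fst) (PT_nthC (hy2.comp PT.fst) PT.snd) (ht.comp PT.fst) PT.snd

end

/-! ### the computation -/

section

variable {q : (List Bool × List Bool) × List Bool → List Bool} {xa : List Bool × List Bool}
  {A : Set (List Bool)}

lemma nT_succ (v : List Bool) (i : ℕ) : nT q xa v (i + 1) =
    nT q xa v i + (if (q (xa, v.take i)).headD false = true then 1 else 0) := by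
  unfold nT
  rw [List.range_succ, List.filter_append, List.length_append]
  congr 1
  cases h : (q (xa, v.take i)).headD false
  · rw [List.filter_cons_of_neg (by rw [h]; decide)]
    simp
  · rw [List.filter_cons_of_pos (by rw [h])]
    simp

lemma nT_mono (v : List Bool) {i j : ℕ} (h : i ≤ j) : nT q xa v i ≤ nT q xa v j := by
  induction j, h using Nat.le_induction with
  | base => exact le_rfl
  | succ j _ ih =>
    rw [nT_succ]
    omega

lemma nT_congr {v v' : List Bool} {i : ℕ} (h : v.take i = v'.take i) :
    nT q xa v i = nT q xa v' i := by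
  unfold nT
  congr 1
  apply List.filter_congr
  intro j hj
  rw [List.mem_range] at hj
  have h1 : ∀ u : List Bool, u.take j = (u.take i).take j := by
    intro u
    rw [List.take_take, min_eq_left hj.le]
  rw [h1 v, h, ← h1 v']

/-- the first position after more than `s` queries to the second oracle -/
lemma exists_pos (v : List Bool) {s n : ℕ} (h : s < nT q xa v n) : ∃ i < n, nT q xa v i = s ∧
    (q (xa, v.take i)).headD false = true := by
  induction n with
  | zero => exact absurd h (by simp [nT])
  | succ n ih =>
    by_cases h1 : s < nT q xa v n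
    · obtain ⟨i, h2, h3⟩ := ih h1
      exact ⟨i, by omega, h3⟩
    · rw [nT_succ] at h
      by_cases h2 : (q (xa, v.take n)).headD false = true
      · rw [if_pos h2] at h
        exact ⟨n, by omega, by omega, h2⟩
      · rw [if_neg h2] at h
        omega

open Classical in
/-- the answers of the second oracle -/
noncomputable def tau (A : Set (List Bool)) (q : (List Bool × List Bool) × List Bool → List Bool)
    (xa : List Bool × List Bool) (N : ℕ) : List Bool :=
  ((List.range N).filter fun j => (q (xa, answers A q xa j)).headD false).map
    fun j => decide (q (xa, answers A q xa j) ∈ A)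

lemma length_tau (N i : ℕ) (hi : i ≤ N) : (tau A q xa i).length = nT q xa (answers A q xa N) i := by
  unfold tau nT
  rw [List.length_map]
  congr 1
  apply List.filter_congr
  intro j hj
  rw [List.mem_range] at hj
  rw [answers_take A q xa N j (by omega)]

lemma tau_prefix {i N : ℕ} (hi : i ≤ N) : ∃ r, tau A q xa N = tau A q xa i ++ r := by
  induction N, hi using Nat.le_induction with
  | base => exact ⟨[], by simp⟩
  | succ N _ ih =>
    obtain ⟨r, hr⟩ := ih
    unfold tau at hr ⊢
    rw [List.range_succ, List.filter_append, List.map_append, hr, List.append_assoc]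
    exact ⟨_, rfl⟩

open Classical in
lemma tau_getD {i N : ℕ} (hi : i < N) (h : (q (xa, answers A q xa i)).headD false = true) :
    nT q xa (answers A q xa N) i < (tau A q xa N).length ∧
    (tau A q xa N).getD (nT q xa (answers A q xa N) i) false =
      decide (q (xa, answers A q xa i) ∈ A) := by
  obtain ⟨r, hr⟩ := tau_prefix (A := A) (q := q) (xa := xa) (show i + 1 ≤ N by omega)
  have h1 : tau A q xa (i + 1) = tau A q xa i ++ [decide (q (xa, answers A q xa i) ∈ A)] := by
    unfold tau
    rw [List.range_succ, List.filter_append, List.map_append,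
      List.filter_cons_of_pos (by rw [h])]
    rfl
  rw [hr, h1, ← length_tau N i hi.le]
  constructor
  · simp
  · rw [List.append_assoc, List.getD_append_right _ _ _ _ le_rfl, Nat.sub_self]
    rfl

end

/-! ### correctness -/

section

variable {O S T : Set (List Bool)} {R V : (List Bool × List Bool) × List Bool → Bool}
  {rT : List Bool × List Bool → Bool} {pR pT : Polynomial ℕ} {β : ℕ → List Bool}
  {q : (List Bool × List Bool) × List Bool → List Bool}
  {d : (List Bool × List Bool) × List Bool → Bool}
  (hS : ∀ Q : List Bool, Q ∈ S ↔
    ∃ w : List Bool, w.length ≤ pR.eval Q.length ∧ R ((Q, []), w) = true)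
  (hS' : ∀ Q : List Bool, Q ∈ Sᶜ ↔ ∃ w : List Bool, V ((Q, β Q.length), w) = true)
  (hT : IsCert T rT pT)

/-- the answers in `σ` are correct -/
def GoodS (A : Set (List Bool)) (q : (List Bool × List Bool) × List Bool → List Bool)
    (xa : List Bool × List Bool) (N : ℕ) (σ : List Bool) : Prop :=
  ∀ h, h < σ.length → h < (tau A q xa N).length → σ.getD h false = (tau A q xa N).getD h false

/-- the next answer of the second oracle, or the decision if there are no more queries -/
def NextOK (A : Set (List Bool)) (q : (List Bool × List Bool) × List Bool → List Bool)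
    (d : (List Bool × List Bool) × List Bool → Bool) (xa : List Bool × List Bool) (N : ℕ)
    (σ : List Bool) : Prop :=
  (σ.length < (tau A q xa N).length ∧ (tau A q xa N).getD σ.length false = true) ∨
  ((tau A q xa N).length ≤ σ.length ∧ d (xa, answers A q xa N) = true)

include hS hT in
open Classical in
lemma stp_sound {xa : List Bool × List Bool} {σ v y e : List Bool} {M m t i N : ℕ}
    (hσ : GoodS (join (join O S) T) q xa N σ)
    (hy : ∀ z ∈ DE R V pR M m, ∃ j < t, (unpair (nthC y j)).1 = z) (hi : i < N)
    (hlen : 2 * (q (xa, answers (join (join O S) T) q xa i)).length + 2 + m ≤ M)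
    (hv : v.take i = answers (join (join O S) T) q xa i)
    (hn : nT q xa v i ≤ σ.length) (hst : stp O R V rT pR pT q m xa σ v y e t i = true) :
    ((q (xa, answers (join (join O S) T) q xa i)).headD false = true ∧ nT q xa v i = σ.length ∧
      q (xa, answers (join (join O S) T) q xa i) ∈ join (join O S) T) ∨
    (¬ ((q (xa, answers (join (join O S) T) q xa i)).headD false = true ∧
        nT q xa v i = σ.length) ∧
      v.getD i false = decide (q (xa, answers (join (join O S) T) q xa i) ∈
        join (join O S) T)) := by
  obtain ⟨A, hA⟩ : ∃ A, A = join (join O S) T := ⟨_, rfl⟩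
  rw [← hA] at hσ hlen hv ⊢
  have hnT : nT q xa v i = nT q xa (answers A q xa N) i :=
    nT_congr (by rw [hv, answers_take A q xa N i hi.le])
  unfold stp at hst
  rw [hv, show decide (nT q xa v i ≤ σ.length) = true from decide_eq_true hn, Bool.not_true,
    Bool.false_or] at hst
  obtain ⟨w, hw⟩ : ∃ w, w = q (xa, answers A q xa i) := ⟨_, rfl⟩
  have htau := tau_getD (A := A) (q := q) (xa := xa) hi
  rw [← hw] at hst hlen htau ⊢
  cases hh : w.headD false with
  | true =>
    rw [hh, cond_true] at hst
    obtain ⟨ht1, ht2⟩ := htau hh
    rw [← hnT] at ht1 ht2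
    by_cases hlt : nT q xa v i < σ.length
    · right
      rw [show decide (nT q xa v i < σ.length) = true from decide_eq_true hlt, cond_true,
        decide_eq_true_eq] at hst
      refine ⟨fun h => by omega, ?_⟩
      rw [hst, hσ _ hlt ht1, ht2]
    · left
      rw [show decide (nT q xa v i < σ.length) = false from decide_eq_false hlt, cond_false,
        Bool.and_eq_true, decide_eq_true_eq] at hst
      refine ⟨rfl, by omega, ?_⟩
      rcases w with _ | ⟨b, w⟩
      · exact absurd hh (by simp)
      · have hb : b = true := hh
        subst hb
        rw [hA, mem_join_true, hT w]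
        exact ⟨e, hst⟩
  | false =>
    right
    refine ⟨fun h => absurd h.1 (by simp), ?_⟩
    rw [hh, cond_false] at hst
    cases hh2 : w.tail.headD false with
    | true =>
      rw [hh2, cond_true] at hst
      rcases w with _ | ⟨b, w⟩
      · exact absurd hh2 (by simp)
      · have hb : b = false := hh
        subst hb
        rcases w with _ | ⟨b, w⟩
        · exact absurd hh2 (by simp)
        · have hb : b = true := hh2
          subst hb
          simp only [List.tail_cons] at hst
          have h1 := tst_sound hS hst hy (by
            rw [List.length_cons, List.length_cons] at hlen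
            omega)
          rw [h1, hA]
          congr 1
          rw [mem_join_false, mem_join_true]
    | false =>
      rw [hh2, cond_false, decide_eq_true_eq] at hst
      rw [hst, hA]
      exact ansO_eq hh hh2

include hS hT in
/-- **Soundness.** -/
lemma GBp_sound {x a s σ y₁ v y₂ : List Bool} {P : Polynomial ℕ} {C k : ℕ}
    (hσ : GoodS (join (join O S) T) q (x, a) (P.eval x.length) σ)
    (hs : vl s = (DE R V pR (x.length ^ k + k) (C * (x.length + 1))).ncard)
    (hlen : ∀ i < P.eval x.length, 2 * (q ((x, a), answers (join (join O S) T) q (x, a) i)).length +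
      2 + C * (x.length + 1) ≤ x.length ^ k + k)
    (h : GBp O R V rT pR pT q d P C k x a s σ y₁ v y₂ = true) :
    NextOK (join (join O S) T) q d (x, a) (P.eval x.length) σ := by
  classical
  unfold GBp at h
  simp only [Bool.and_eq_true, decide_eq_true_eq, List.all_eq_true, List.mem_range,
    Bool.or_eq_true] at h
  obtain ⟨hv, hchk, hst, hfin⟩ := h
  obtain ⟨N, hN⟩ : ∃ N, N = P.eval x.length := ⟨_, rfl⟩
  obtain ⟨A, hA⟩ : ∃ A, A = join (join O S) T := ⟨_, rfl⟩
  have ht : vlc (y₁.length + 1) s =
      (DE R V pR (x.length ^ k + k) (C * (x.length + 1))).ncard := by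
    have h1 := ((chkE_iff R V pR).1 hchk).1
    rw [vlc_eq] at h1 ⊢
    omega
  rw [ht] at hchk hst
  have hcomp := chkE_complete R V pR hchk
  rw [← hN] at hσ hv hlen ⊢
  rw [hv] at hst hfin
  have key : ∀ i ≤ N, nT q (x, a) v i ≤ σ.length →
      v.take i = answers (join (join O S) T) q (x, a) i := by
    intro i
    induction i with
    | zero => intro _ _; rfl
    | succ i ih =>
      intro hi hn
      have hn' : nT q (x, a) v i ≤ σ.length := (nT_mono v (Nat.le_succ i)).trans hn
      have h1 := ih (by omega) hn'
      rcases stp_sound hS hT hσ hcomp (show i < N by omega) (hlen i (by omega)) h1 hn'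
        (hst i (by omega)) with ⟨h2, h3, -⟩ | ⟨-, h3⟩
      · exfalso
        rw [nT_succ, h1, if_pos h2] at hn
        omega
      · rw [answers, ← h3, ← h1, List.getD_eq_getElem _ _ (by omega),
          List.take_append_getElem]
  by_cases hc : σ.length < nT q (x, a) v N
  · left
    obtain ⟨i, hi, h1, h2⟩ := exists_pos v hc
    have h3 := key i hi.le (by omega)
    have hnT : nT q (x, a) v i = nT q (x, a) (answers (join (join O S) T) q (x, a) N) i :=
      nT_congr (by rw [h3, answers_take _ q (x, a) N i hi.le])
    rw [h3] at h2
    obtain ⟨h4, h5⟩ := tau_getD hi h2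
    rw [← hnT, h1] at h4 h5
    refine ⟨h4, ?_⟩
    rw [h5, decide_eq_true_eq]
    rcases stp_sound hS hT hσ hcomp hi (hlen i hi) h3 (by omega) (hst i hi) with
      ⟨-, -, h6⟩ | ⟨h6, -⟩
    · exact h6
    · exact absurd ⟨h2, h1⟩ h6
  · right
    have h1 := key N le_rfl (by omega)
    have h2 : v = answers (join (join O S) T) q (x, a) N := by
      rw [← h1, List.take_of_length_le (by omega)]
    refine ⟨?_, ?_⟩
    · rw [length_tau N N le_rfl, ← h2]
      omega
    · rw [← h2]
      rcases hfin with h3 | h3
      · exact absurd h3 hc
      · exact h3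

include hS hS' hT in
/-- **Completeness.** -/
lemma GBp_complete {x a s σ : List Bool} {P : Polynomial ℕ} {C k : ℕ}
    (hσ : GoodS (join (join O S) T) q (x, a) (P.eval x.length) σ)
    (hs : vl s = (DE R V pR (x.length ^ k + k) (C * (x.length + 1))).ncard)
    (hlen : ∀ i < P.eval x.length, 2 * (q ((x, a), answers (join (join O S) T) q (x, a) i)).length +
      2 + C * (x.length + 1) ≤ x.length ^ k + k)
    (hβ : ∀ i < P.eval x.length, ∀ Q,
      q ((x, a), answers (join (join O S) T) q (x, a) i) = false :: true :: Q →
      (β Q.length).length ≤ C * (x.length + 1) ∧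
      ∀ w, V ((Q, β Q.length), w) = true → w.length ≤ 2 ^ (C * (x.length + 1)))
    (h : NextOK (join (join O S) T) q d (x, a) (P.eval x.length) σ) :
    ∃ y₁ v y₂ : List Bool,
      y₁.length ≤ (DE R V pR (x.length ^ k + k) (C * (x.length + 1))).ncard *
        (2 * (2 * (x.length ^ k + k) + 2 + (2 * (x.length ^ k + k) + 2 +
          (2 * pR.eval (x.length ^ k + k) + 2 + 2 ^ (C * (x.length + 1))))) + 2) ∧
      v.length = P.eval x.length ∧
      y₂.length ≤ P.eval x.length * (2 * (pT.eval (x.length ^ k + k) + (pR.eval (x.length ^ k + k) +
        (2 * (C * (x.length + 1)) + 2 + 2 ^ (C * (x.length + 1))))) + 2) ∧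
      GBp O R V rT pR pT q d P C k x a s σ y₁ v y₂ = true := by
  classical
  obtain ⟨N, hN⟩ : ∃ N, N = P.eval x.length := ⟨_, rfl⟩
  obtain ⟨M, hM⟩ : ∃ M, M = x.length ^ k + k := ⟨_, rfl⟩
  obtain ⟨m, hm⟩ : ∃ m, m = C * (x.length + 1) := ⟨_, rfl⟩
  obtain ⟨D, hD⟩ : ∃ D, D = (DE R V pR M m).ncard := ⟨_, rfl⟩
  obtain ⟨y₁, hy1, hy2⟩ := exists_chkE R V pR M m
  obtain ⟨ans, hans⟩ : ∃ ans : ℕ → List Bool,
    ans = fun i => answers (join (join O S) T) q (x, a) i := ⟨_, rfl⟩
  have hans' : ∀ i, answers (join (join O S) T) q (x, a) i = ans i := fun i => by rw [hans]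
  have hst : ∀ i, ∃ e : List Bool, e.length ≤ pT.eval M + (pR.eval M + (2 * m + 2 + 2 ^ m)) ∧
      (i < N → stp O R V rT pR pT q m (x, a) σ (ans N) y₁ e D i = true) := by
    intro i
    by_cases hi : i < N
    · have htake : (ans N).take i = ans i := by
        rw [← hans', ← hans', answers_take _ q (x, a) N i hi.le]
      have hlen' := hlen i (by omega)
      have hβ' := hβ i (by omega)
      rw [hans'] at hlen' hβ'
      rw [← hM, ← hm] at hlen'
      have htau := tau_getD (A := join (join O S) T) (q := q) (xa := (x, a)) hi
      rw [hans', hans'] at htau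
      have hget : (ans N).getD i false = decide (q ((x, a), ans i) ∈ join (join O S) T) := by
        have h1 : (ans N).take (i + 1) = ans (i + 1) := by
          rw [← hans', ← hans', answers_take _ q (x, a) N (i + 1) hi]
        have h2 : (ans N).getD i false = ((ans N).take (i + 1)).getD i false := by
          rw [List.getD_eq_getElem?_getD, List.getD_eq_getElem?_getD, List.getElem?_take,
            if_pos (by omega)]
        have h3 : (ans i).length = i := by rw [← hans', length_answers]
        rw [h2, h1, ← hans', answers, hans', List.getD_append_right _ _ _ _ h3.le, h3,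
          Nat.sub_self]
        rfl
      by_cases hn : nT q (x, a) (ans N) i ≤ σ.length
      · cases hh : (q ((x, a), ans i)).headD false with
        | true =>
          obtain ⟨ht1, ht2⟩ := htau hh
          by_cases hlt : nT q (x, a) (ans N) i < σ.length
          · refine ⟨[], Nat.zero_le _, fun _ => ?_⟩
            unfold stp
            rw [htake, hh, cond_true, show decide (nT q (x, a) (ans N) i < σ.length) = true from
              decide_eq_true hlt, cond_true, hget, ← ht2]
            have h3 := hσ _ hlt (by rw [← hN]; exact ht1)
            rw [← hN] at h3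
            rw [h3]
            simp
          · have heq : nT q (x, a) (ans N) i = σ.length := by omega
            rw [heq] at ht1 ht2
            have hmem : q ((x, a), ans i) ∈ join (join O S) T := by
              rcases h with ⟨-, h3⟩ | ⟨h3, -⟩
              · rw [← hN, ht2, decide_eq_true_eq] at h3
                exact h3
              · rw [← hN] at h3
                omega
            obtain ⟨w, hw⟩ : ∃ w, w = q ((x, a), ans i) := ⟨_, rfl⟩
            rw [← hw] at hmem hh hlen'
            rcases w with _ | ⟨b, w⟩
            · exact absurd hh (by simp)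
            · have hb : b = true := hh
              subst hb
              rw [mem_join_true, hT w] at hmem
              obtain ⟨e, he1, he2⟩ := hmem
              rw [List.length_cons] at hlen'
              have he3 : pT.eval w.length ≤ pT.eval M := evalMono pT (by omega)
              refine ⟨e, (he1.trans he3).trans (Nat.le_add_right _ _), fun _ => ?_⟩
              unfold stp
              rw [htake, ← hw, List.headD_cons, cond_true,
                show decide (nT q (x, a) (ans N) i < σ.length) = false from decide_eq_false hlt,
                cond_false, List.tail_cons, he2, show decide (e.length ≤ pT.eval w.length) = true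
                from decide_eq_true he1]
              simp
        | false =>
          obtain ⟨w, hw⟩ : ∃ w, w = q ((x, a), ans i) := ⟨_, rfl⟩
          rw [← hw] at hh hlen' hβ' hget
          cases hh2 : w.tail.headD false with
          | true =>
            rcases w with _ | ⟨b, w⟩
            · exact absurd hh2 (by simp)
            · have hb : b = false := hh
              subst hb
              rcases w with _ | ⟨b, w⟩
              · exact absurd hh2 (by simp)
              · have hb : b = true := hh2
                subst hb
                obtain ⟨hb1, hb2⟩ := hβ' w rfl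
                rw [← hm] at hb1 hb2
                rw [List.length_cons, List.length_cons] at hlen'
                have hys : ∀ j < D, (unpair (nthC y₁ j)).1 ∈ DE R V pR M m := by
                  rw [hD]
                  exact chkE_sound R V pR hy2
                obtain ⟨e, he1, he2⟩ := tst_complete hS hS' hys hb1 hb2
                  (show w.length ≤ M by omega)
                refine ⟨e, he1.trans (Nat.le_add_left _ _), fun _ => ?_⟩
                unfold stp
                rw [htake, ← hw]
                simp only [List.headD_cons, cond_false, List.tail_cons, cond_true]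
                rw [hget]
                have h4 : decide (false :: true :: w ∈ join (join O S) T) = decide (w ∈ S) := by
                  congr 1
                  rw [mem_join_false, mem_join_true]
                rw [h4, he2]
                simp
          | false =>
            refine ⟨[], Nat.zero_le _, fun _ => ?_⟩
            unfold stp
            rw [htake, ← hw, hh, cond_false, hh2, cond_false, hget, ansO_eq (S := S) (T := T) hh hh2]
            simp
      · refine ⟨[], Nat.zero_le _, fun _ => ?_⟩
        unfold stp
        rw [show decide (nT q (x, a) (ans N) i ≤ σ.length) = false from decide_eq_false hn]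
        rfl
    · exact ⟨[], Nat.zero_le _, fun h => absurd h hi⟩
  choose e he1 he2 using hst
  have hlenN : (ans N).length = N := by rw [← hans', length_answers]
  refine ⟨y₁, ans N, mkC e N, ?_, by rw [hlenN, hN], ?_, ?_⟩
  · rw [← hM, ← hm]
    exact hy1
  · rw [← hM, ← hm, ← hN, length_mkC]
    have h1 := Finset.sum_le_card_nsmul (Finset.range N) (fun j => 2 * (e j).length + 2)
      (2 * (pT.eval M + (pR.eval M + (2 * m + 2 + 2 ^ m))) + 2) (fun j _ => by
        have := he1 j
        omega)
    rw [Finset.card_range, smul_eq_mul] at h1
    exact h1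
  · unfold GBp
    have ht : vlc (y₁.length + 1) s = D := by
      have h1 := ((chkE_iff R V pR).1 hy2).1
      rw [vlc_eq, hs, ← hM, ← hm, ← hD]
      rw [← hD] at h1
      omega
    rw [ht, ← hM, ← hm, hlenN, ← hN, decide_eq_true (rfl : N = N), Bool.true_and, hD, hy2,
      Bool.true_and, Bool.and_eq_true, List.all_eq_true]
    constructor
    · intro i hi
      rw [List.mem_range] at hi
      rw [MP_92db0f_lc_thr.nthC_mkC N e i hi, ← hD]
      exact he2 i hi
    · rw [Bool.or_eq_true, decide_eq_true_eq]
      have h1 := length_tau (A := join (join O S) T) (q := q) (xa := (x, a)) N N le_rfl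
      rw [hans'] at h1
      rw [← h1]
      rcases h with ⟨h2, -⟩ | ⟨-, h2⟩
      · left
        rw [← hN] at h2
        exact h2
      · right
        rw [← hN, hans'] at h2
        exact h2

end

end Pool.Agent.LCB
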